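import Pool.Agent.Y895.SQ.S11

set_option autoImplicit false

/-!
# Primes among numbers with prescribed leading digits: sequences growing like `b ^ n` in base `b`
-/

open Finset Filter Topology MeasureTheory Asymptotics

namespace Pool.Agent.Y895.SQ

/-- **The order law, base `b` and growth `b ^ n`.** -/
theorem ord_base_trunc : ∃ δ : ℝ, 0 < δ ∧ δ < 1 ∧ ∀ b : ℕ, 2 ≤ b →
    ∃ c1 c2 : ℝ, 0 < c1 ∧ 0 < c2 ∧ ∀ c C : ℝ, 0 < c → 0 < C → ∀ Q m : ℕ → ℕ,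
    (∀ᶠ p : ℕ in atTop, c * (b : ℝ) ^ p ≤ Q p ∧ (Q p : ℝ) ≤ C * (b : ℝ) ^ p) →
    (∀ᶠ p in atTop, m p ≤ m (p + 1)) → Grow m → (∀ᶠ p in atTop, b ^ m p ≤ Q p) →
    (∀ᶠ p : ℕ in atTop, (1 - δ) * p ≤ m p) →
    ∀ S : Set ℕ, ∀ᵐ t : ℝ, 0 ≤ t → t < 1 →
      OrdN (fun p => b ^ m p * (Q p / b ^ m p) + ⌊(b : ℝ) ^ m p * t⌋₊) c1 c2 S := by
  obtain ⟨δ, hδ, hδ1, h⟩ := ord_prime
  refine ⟨δ, hδ, hδ1, fun b hb => ?_⟩
  have hb1 : (1 : ℝ) < b := by exact_mod_cast (by omega : 1 < b)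
  have hlb : 0 < Real.log b := Real.log_pos hb1
  obtain ⟨c1, c2, hc1, hc2, h⟩ := h b hb1 b hb
  refine ⟨c1, c2, hc1, hc2, fun c C hc hC Q m hQ hm hg ht hk S => ?_⟩
  refine h (c / 2) C (by positivity) hC (fun p => b ^ m p * (Q p / b ^ m p)) m hm hg ?_ S
  filter_upwards [hQ, ht, hk] with p hp h1 h2
  obtain ⟨a1, a2, a3, -⟩ := trunc_aux hb hb1 hc h1 hp.1 hp.2
  refine ⟨a1, a2, a3, ?_⟩
  have := mul_le_mul_of_nonneg_right h2 hlb.le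
  linarith

/-- **The law, base `b` and growth `b ^ n`.** -/
theorem law_base_trunc : ∀ b : ℕ, 2 ≤ b → ∃ κ : ℝ, 0 < κ ∧
    ∀ c C : ℝ, 0 < c → 0 < C → ∀ Q m : ℕ → ℕ,
    (∀ᶠ p : ℕ in atTop, c * (b : ℝ) ^ p ≤ Q p ∧ (Q p : ℝ) ≤ C * (b : ℝ) ^ p) →
    (∀ᶠ p in atTop, m p ≤ m (p + 1)) → (∀ᶠ p in atTop, b ^ m p ≤ Q p) →
    (∀ᶠ p : ℕ in atTop, (p : ℝ) - κ * p / Real.log p ≤ m p) →
    ∀ S : Set ℕ, ∀ᵐ t : ℝ, 0 ≤ t → t < 1 →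
      PtN (fun p => b ^ m p * (Q p / b ^ m p) + ⌊(b : ℝ) ^ m p * t⌋₊) (1 / Real.log b) S := by
  intro b hb
  have hb1 : (1 : ℝ) < b := by exact_mod_cast (by omega : 1 < b)
  have hlb : 0 < Real.log b := Real.log_pos hb1
  obtain ⟨κ, hκ, h⟩ := law_prime b hb1 b hb
  refine ⟨κ / Real.log b, by positivity, fun c C hc hC Q m hQ hm ht hk S => ?_⟩
  refine h (c / 2) C (by positivity) hC (fun p => b ^ m p * (Q p / b ^ m p)) m hm ?_ S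
  filter_upwards [hQ, ht, hk] with p hp h1 h2
  obtain ⟨a1, a2, a3, -⟩ := trunc_aux hb hb1 hc h1 hp.1 hp.2
  refine ⟨a1, a2, a3, ?_⟩
  have h3 := mul_le_mul_of_nonneg_right h2 hlb.le
  have e : ((p : ℝ) - κ / Real.log b * p / Real.log p) * Real.log b =
      p * Real.log b - κ * p / Real.log p := by
    field_simp
  rw [e] at h3
  exact h3

/-- the main example of part (i) grows linearly -/
lemma dfree_grow {δ : ℝ} (hδ : 0 < δ) (hδ1 : δ < 1) : Grow (fun p : ℕ => p - ⌊δ * p⌋₊) := by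
  refine ⟨1 - δ, 1, by linarith, Eventually.of_forall fun p q _ => ?_⟩
  have hle : ∀ x : ℕ, ⌊δ * (x : ℝ)⌋₊ ≤ x := by
    intro x
    apply Nat.floor_le_of_le
    have : (0 : ℝ) ≤ x := Nat.cast_nonneg x
    nlinarith
  have h1 : (⌊δ * (q : ℝ)⌋₊ : ℝ) ≤ δ * q := Nat.floor_le (by positivity)
  have h2 : δ * (p : ℝ) < ⌊δ * (p : ℝ)⌋₊ + 1 := Nat.lt_floor_add_one _
  rw [Nat.cast_sub (hle q), Nat.cast_sub (hle p)]
  linarith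

end Pool.Agent.Y895.SQ
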