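import Pool.Agent.Y895.SQ.S12

set_option autoImplicit false

/-!
# Sums over the odd numbers, and the asymptotic form of the law for them
-/

open Finset Filter Topology MeasureTheory Asymptotics

namespace Pool.Agent.Y895.SQ

open Pool.Agent.H305R2 (log_nat_tendsto)
open Pool.Agent.TH888.R (gr gr_all loglog_tendsto)

/-- asymptotic form of the law for an index set with a logarithmic density -/
lemma bigO_gen {F V : ℕ → ℝ} {a c B K : ℝ} (hB : 0 ≤ B) (hV0 : ∀ n, 0 ≤ V n)
    (hV1 : ∀ n : ℕ, 1 ≤ n → V n ≤ Real.log n + K) (hV : ∀ n : ℕ, 2 ≤ n → |V n - a * Real.log n| ≤ K)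
    (h : ∀ n : ℕ, 3 ≤ n → |F n - c * V n| ≤ B * gr (V n * (1 + Real.log (Real.log n)))) :
    (fun n : ℕ => F n - c * a * Real.log n) =O[atTop] fun n : ℕ =>
      Real.sqrt (Real.log n) * (Real.log (Real.log n)) ^ ((5 : ℝ) / 2) := by
  have hK0 : 0 ≤ K := (abs_nonneg _).trans (hV 2 le_rfl)
  refine IsBigO.of_bound (100 * B + |c| * K) ?_
  filter_upwards [gr_all (C := K) hV0 hV1, eventually_ge_atTop 3,
    log_nat_tendsto.eventually_ge_atTop 1, loglog_tendsto.eventually_ge_atTop 1] with n h1 h2 h3 h4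
  set E := Real.sqrt (Real.log n) * (Real.log (Real.log n)) ^ ((5 : ℝ) / 2) with hE
  have hE1 : 1 ≤ E := by
    have h5 : 1 ≤ Real.sqrt (Real.log n) := by rw [Real.one_le_sqrt]; exact h3
    have h6 : 1 ≤ (Real.log (Real.log n)) ^ ((5 : ℝ) / 2) := Real.one_le_rpow h4 (by norm_num)
    rw [hE]
    nlinarith
  rw [Real.norm_eq_abs, Real.norm_of_nonneg (by linarith)]
  have e : F n - c * a * Real.log n = (F n - c * V n) + c * (V n - a * Real.log n) := by ring
  rw [e]
  have h7 := h n h2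
  have h8 := mul_le_mul_of_nonneg_left h1 hB
  have h9 : |c * (V n - a * Real.log n)| ≤ |c| * K := by
    rw [abs_mul]
    exact mul_le_mul_of_nonneg_left (hV n (by omega)) (abs_nonneg c)
  have h10 := abs_add_le (F n - c * V n) (c * (V n - a * Real.log n))
  have h11 : |c| * K ≤ |c| * K * E := by
    have : 0 ≤ |c| * K := by positivity
    nlinarith
  nlinarith

lemma VN_succ (S : Set ℕ) (n : ℕ) [Decidable (n + 1 ∈ S)] :
    VN S (n + 1) = VN S n + if n + 1 ∈ S then wn (n + 1) else 0 := by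
  classical
  unfold VN
  rw [Finset.sum_range_succ]
  congr 1
  split_ifs <;> rfl

/-- the sum over the odd numbers -/
lemma VN_odd (x : ℕ) : VN {n | Odd n} x = VN Set.univ x - 1 / 2 * VN Set.univ (x / 2) := by
  classical
  induction x with
  | zero =>
    have h0 : ∀ S : Set ℕ, VN S 0 = 0 := by
      intro S
      unfold VN wn
      simp
    simp [h0]
  | succ x ih =>
    rw [VN_succ, VN_succ, ih]
    simp only [Set.mem_univ, if_true, Set.mem_setOf_eq]
    by_cases h : Odd (x + 1)
    · rw [if_pos h]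
      have e : (x + 1) / 2 = x / 2 := by
        obtain ⟨k, hk⟩ := h
        omega
      rw [e]
      ring
    · rw [if_neg h]
      rw [Nat.not_odd_iff_even] at h
      obtain ⟨k, hk⟩ := h
      have hk1 : 1 ≤ k := by omega
      have e1 : (x + 1) / 2 = (x / 2) + 1 := by omega
      rw [e1, VN_succ]
      simp only [Set.mem_univ, if_true]
      have e2 : wn (x + 1) = 1 / 2 * wn (x / 2 + 1) := by
        have e3 : x / 2 + 1 = k := by omega
        rw [e3, hk]
        unfold wn
        push_cast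
        have : (k : ℝ) ≠ 0 := by positivity
        field_simp
        ring
      rw [e2]
      ring

lemma VN_odd_bound {n : ℕ} (hn : 2 ≤ n) : |VN {n | Odd n} n - 1 / 2 * Real.log n| ≤ 3 := by
  have h1 := VN_univ_bound n (by omega)
  have h2 := VN_univ_bound (n / 2) (by omega)
  rw [VN_odd]
  have hn0 : (0 : ℝ) < n := by exact_mod_cast (by omega : 0 < n)
  have hle : ((n / 2 : ℕ) : ℝ) ≤ n := by exact_mod_cast Nat.div_le_self n 2
  have hge : (n : ℝ) ≤ 3 * ((n / 2 : ℕ) : ℝ) := by exact_mod_cast (by omega : n ≤ 3 * (n / 2))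
  have hpos : (0 : ℝ) < ((n / 2 : ℕ) : ℝ) := by linarith
  have h3 : Real.log ((n / 2 : ℕ) : ℝ) ≤ Real.log n := Real.log_le_log hpos hle
  have h4 : Real.log n ≤ Real.log 3 + Real.log ((n / 2 : ℕ) : ℝ) := by
    rw [← Real.log_mul (by norm_num) hpos.ne']
    exact Real.log_le_log hn0 hge
  have h5 : Real.log 3 ≤ 2 := by
    have := Real.log_le_sub_one_of_pos (show (0 : ℝ) < 3 by norm_num)
    linarith
  rw [abs_le] at h1 h2 ⊢
  constructor <;> linarith [h1.1, h1.2, h2.1, h2.2]

lemma VN_mono {S T : Set ℕ} (h : S ⊆ T) (n : ℕ) : VN S n ≤ VN T n := by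
  classical
  unfold VN
  refine Finset.sum_le_sum fun q _ => ?_
  by_cases hS : q ∈ S
  · rw [if_pos hS, if_pos (h hS)]
  · rw [if_neg hS]
    split_ifs
    · exact wn_nonneg q
    · exact le_rfl

lemma VN_odd_tendsto : Tendsto (VN {n | Odd n}) atTop atTop := by
  refine tendsto_atTop_mono' _ (f₁ := fun n : ℕ => 1 / 2 * Real.log n + (-3)) ?_
    (tendsto_atTop_add_const_right _ _ (log_nat_tendsto.const_mul_atTop (by norm_num)))
  filter_upwards [eventually_ge_atTop 2] with n hn
  have := (abs_le.1 (VN_odd_bound hn)).1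
  linarith

/-- asymptotic form of the law for the odd indices -/
lemma bigO_odd {F : ℕ → ℝ} {c B : ℝ} (hB : 0 ≤ B)
    (h : ∀ n : ℕ, 3 ≤ n → |F n - c * VN {n | Odd n} n| ≤
      B * gr (VN {n | Odd n} n * (1 + Real.log (Real.log n)))) :
    (fun n : ℕ => F n - c * (1 / 2) * Real.log n) =O[atTop] fun n : ℕ =>
      Real.sqrt (Real.log n) * (Real.log (Real.log n)) ^ ((5 : ℝ) / 2) := by
  refine bigO_gen (V := VN {n | Odd n}) (K := 3) hB (VN_nonneg _) (fun n hn => ?_)
    (fun n hn => VN_odd_bound hn) h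
  have h1 := VN_mono (Set.subset_univ {n | Odd n}) n
  have h2 := (abs_le.1 (VN_univ_bound n hn)).2
  linarith

end Pool.Agent.Y895.SQ
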