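import Pool.Agent.Y895.SQ.S10
import Pool.Agent.Y895.OL.A8

set_option autoImplicit false

/-!
# Truncated sequences, and asymptotic forms
-/

open Finset Filter Topology MeasureTheory Asymptotics

namespace Pool.Agent.Y895.SQ

open Pool.Agent.H305R2 (log_nat_tendsto)
open Pool.Agent.TH888.R (gr gr_all loglog_tendsto)
open Pool.Agent.Y895.OL (dmost)

/-- prescribed upper part of a truncated sequence -/
lemma trunc_aux {b : ℕ} (hb : 2 ≤ b) {α c C : ℝ} (hα : 1 < α) (hc : 0 < c) {Q m p : ℕ}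
    (h1 : b ^ m ≤ Q) (q1 : c * α ^ p ≤ Q) (q2 : (Q : ℝ) ≤ C * α ^ p) :
    c / 2 * α ^ p ≤ ((b ^ m * (Q / b ^ m) : ℕ) : ℝ) ∧
      ((b ^ m * (Q / b ^ m) : ℕ) : ℝ) ≤ C * α ^ p ∧ b ^ m ≤ b ^ m * (Q / b ^ m) ∧
      p * Real.log α - |Real.log c| - Real.log 2 - Real.log (Q / b ^ m : ℕ) ≤ m * Real.log b := by
  have hbr : (2 : ℝ) ≤ b := by exact_mod_cast hb
  have hb0 : (0 : ℝ) < b := by linarith
  have hα0 : 0 < α := by linarith
  have hpos : 0 < b ^ m := by positivity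
  set k := Q / b ^ m with hk'
  have hk1 : 1 ≤ k := by
    rw [hk', Nat.le_div_iff_mul_le hpos, one_mul]
    exact h1
  have h4 : Q < b ^ m * k + b ^ m := by
    have := Nat.div_add_mod Q (b ^ m)
    have h5 := Nat.mod_lt Q hpos
    rw [← hk'] at this
    omega
  have h5 : b ^ m * k ≤ Q := Nat.mul_div_le _ _
  have h6 : b ^ m ≤ b ^ m * k := Nat.le_mul_of_pos_right _ hk1
  have h7 : Q ≤ 2 * (b ^ m * k) := by omega
  have h7' : (Q : ℝ) ≤ 2 * ((b ^ m * k : ℕ) : ℝ) := by exact_mod_cast h7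
  have h5' : ((b ^ m * k : ℕ) : ℝ) ≤ Q := by exact_mod_cast h5
  have hkR : (1 : ℝ) ≤ k := by exact_mod_cast hk1
  refine ⟨by linarith, by linarith, h6, ?_⟩
  have h8 : Real.log (c * α ^ p) ≤ Real.log (2 * ((b ^ m * k : ℕ) : ℝ)) :=
    Real.log_le_log (by positivity) (q1.trans h7')
  have e1 : Real.log (2 * ((b ^ m * k : ℕ) : ℝ)) =
      Real.log 2 + (m * Real.log b + Real.log k) := by
    push_cast
    rw [Real.log_mul (by norm_num) (by positivity), Real.log_mul (by positivity) (by positivity),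
      Real.log_pow]
  rw [e1, Real.log_mul hc.ne' (by positivity), Real.log_pow] at h8
  have h9 := neg_abs_le (Real.log c)
  linarith

/-- **The order law for truncated sequences.** -/
theorem ord_prime_trunc : ∃ δ : ℝ, 0 < δ ∧ δ < 1 ∧ ∀ α : ℝ, 1 < α → ∀ b : ℕ, 2 ≤ b →
    ∃ c1 c2 : ℝ, 0 < c1 ∧ 0 < c2 ∧ ∀ c C : ℝ, 0 < c → 0 < C → ∀ Q m : ℕ → ℕ,
    (∀ᶠ p : ℕ in atTop, c * α ^ p ≤ Q p ∧ (Q p : ℝ) ≤ C * α ^ p) →
    (∀ᶠ p in atTop, m p ≤ m (p + 1)) → Grow m → (∀ᶠ p in atTop, b ^ m p ≤ Q p) →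
    (∀ᶠ p : ℕ in atTop, Real.log (Q p / b ^ m p : ℕ) ≤ δ * Real.log α * p) →
    ∀ S : Set ℕ, ∀ᵐ t : ℝ, 0 ≤ t → t < 1 →
      OrdN (fun p => b ^ m p * (Q p / b ^ m p) + ⌊(b : ℝ) ^ m p * t⌋₊) c1 c2 S := by
  obtain ⟨δ, hδ, hδ1, h⟩ := ord_prime
  refine ⟨δ / 2, by positivity, by linarith, fun α hα b hb => ?_⟩
  obtain ⟨c1, c2, hc1, hc2, h⟩ := h α hα b hb
  refine ⟨c1, c2, hc1, hc2, fun c C hc hC Q m hQ hm hg ht hk S => ?_⟩
  refine h (c / 2) C (by positivity) hC (fun p => b ^ m p * (Q p / b ^ m p)) m hm hg ?_ S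
  have hlb : 0 < Real.log α := Real.log_pos hα
  filter_upwards [hQ, ht, hk, ev_lin ((|Real.log c| + Real.log 2) / (δ / 2 * Real.log α))]
    with p hp h1 h2 h3
  rw [div_le_iff₀ (by positivity)] at h3
  obtain ⟨a1, a2, a3, a4⟩ := trunc_aux hb hα hc h1 hp.1 hp.2
  refine ⟨a1, a2, a3, ?_⟩
  linarith

/-- **The law for truncated sequences.** -/
theorem law_prime_trunc : ∀ α : ℝ, 1 < α → ∀ b : ℕ, 2 ≤ b → ∃ κ : ℝ, 0 < κ ∧
    ∀ c C : ℝ, 0 < c → 0 < C → ∀ Q m : ℕ → ℕ,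
    (∀ᶠ p : ℕ in atTop, c * α ^ p ≤ Q p ∧ (Q p : ℝ) ≤ C * α ^ p) →
    (∀ᶠ p in atTop, m p ≤ m (p + 1)) → (∀ᶠ p in atTop, b ^ m p ≤ Q p) →
    (∀ᶠ p : ℕ in atTop, Real.log (Q p / b ^ m p : ℕ) ≤ κ * p / Real.log p) →
    ∀ S : Set ℕ, ∀ᵐ t : ℝ, 0 ≤ t → t < 1 →
      PtN (fun p => b ^ m p * (Q p / b ^ m p) + ⌊(b : ℝ) ^ m p * t⌋₊) (1 / Real.log α) S := by
  intro α hα b hb
  obtain ⟨κ, hκ, h⟩ := law_prime α hα b hb
  refine ⟨κ / 2, by positivity, fun c C hc hC Q m hQ hm ht hk S => ?_⟩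
  refine h (c / 2) C (by positivity) hC (fun p => b ^ m p * (Q p / b ^ m p)) m hm ?_ S
  have hk2 : ∀ᶠ p : ℕ in atTop, |Real.log c| + Real.log 2 ≤ κ / 2 * p / Real.log p :=
    (Pool.Agent.TH888.R.q_div_log (by positivity)).eventually_ge_atTop _
  filter_upwards [hQ, ht, hk, hk2] with p hp h1 h2 h3
  obtain ⟨a1, a2, a3, a4⟩ := trunc_aux hb hα hc h1 hp.1 hp.2
  refine ⟨a1, a2, a3, ?_⟩
  have e2 : κ * p / Real.log p = κ / 2 * p / Real.log p + κ / 2 * p / Real.log p := by ring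
  rw [e2]
  linarith

/-- the number of free digits grows linearly for the main example -/
lemma dmost_grow {b : ℕ} (hb : 2 ≤ b) {α δ : ℝ} (hδ : δ < Real.log α) : Grow (dmost b α δ) := by
  have hbr : (2 : ℝ) ≤ b := by exact_mod_cast hb
  have hlbb : 0 < Real.log b := Real.log_pos (by linarith)
  have hd : 0 < Real.log α - δ := by linarith
  refine ⟨(Real.log α - δ) / Real.log b, 1, by positivity, Eventually.of_forall fun p q _ => ?_⟩
  have e : ∀ x : ℕ, (x * Real.log α - δ * x) / Real.log b = (Real.log α - δ) / Real.log b * x := by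
    intro x
    ring
  have h1 : (dmost b α δ p : ℝ) ≤ (Real.log α - δ) / Real.log b * p := by
    unfold dmost
    rw [e]
    exact Nat.floor_le (by positivity)
  have h2 : (Real.log α - δ) / Real.log b * q < (dmost b α δ q : ℝ) + 1 := by
    unfold dmost
    rw [e]
    exact Nat.lt_floor_add_one _
  linarith

lemma harm_lower (n : ℕ) : Real.log ((n : ℝ) + 1) ≤ ∑ p ∈ Ico 1 (n + 1), 1 / (p : ℝ) := by
  induction n with
  | zero => simp
  | succ n ih =>
    rw [Finset.sum_Ico_succ_top (by omega)]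
    have hn0 : (0 : ℝ) < (n : ℝ) + 1 := by positivity
    have h4 : Real.log (((n + 1 : ℕ) : ℝ) + 1) =
        Real.log ((n : ℝ) + 1) + Real.log (((n : ℝ) + 2) / (n + 1)) := by
      rw [← Real.log_mul hn0.ne' (by positivity)]
      congr 1
      push_cast
      field_simp
      ring
    have h5 : Real.log (((n : ℝ) + 2) / (n + 1)) ≤ 1 / (n + 1) := by
      have h6 := Real.log_le_sub_one_of_pos (show 0 < ((n : ℝ) + 2) / (n + 1) by positivity)
      have e : ((n : ℝ) + 2) / (n + 1) - 1 = 1 / (n + 1) := by field_simp; ring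
      linarith
    rw [h4]
    push_cast
    linarith

lemma VN_univ_bound : ∀ n : ℕ, 1 ≤ n → |VN Set.univ n - Real.log n| ≤ 1 := by
  intro n hn
  have e : VN Set.univ n = ∑ p ∈ Ico 1 (n + 1), 1 / (p : ℝ) := by
    unfold VN
    have e1 : range (n + 1) = insert 0 (Ico 1 (n + 1)) := by
      ext p
      simp only [Finset.mem_range, Finset.mem_insert, Finset.mem_Ico]
      omega
    rw [e1, Finset.sum_insert (by simp)]
    simp only [Set.mem_univ, if_true, wn, Nat.cast_zero, div_zero, zero_add]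
  have hn0 : (0 : ℝ) < n := by exact_mod_cast hn
  have h1 := recip_le (le_refl 1) (show 1 < n + 1 by omega)
  rw [← e] at h1
  push_cast at h1
  rw [add_sub_cancel_right, div_one] at h1
  have h2 : Real.log n ≤ ∑ p ∈ Ico 1 (n + 1), 1 / (p : ℝ) :=
    (Real.log_le_log hn0 (by linarith)).trans (harm_lower n)
  rw [← e] at h2
  rw [abs_le]
  constructor <;> linarith

lemma VN_univ_tendsto : Tendsto (VN Set.univ) atTop atTop := by
  refine tendsto_atTop_mono' _ (f₁ := fun n : ℕ => Real.log n + (-1)) ?_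
    (tendsto_atTop_add_const_right _ _ log_nat_tendsto)
  filter_upwards [eventually_ge_atTop 1] with n hn
  have := (abs_le.1 (VN_univ_bound n hn)).1
  linarith

/-- asymptotic form of the law for all indices -/
lemma bigO_univ {F : ℕ → ℝ} {c B : ℝ} (hB : 0 ≤ B)
    (h : ∀ n : ℕ, 3 ≤ n → |F n - c * VN Set.univ n| ≤
      B * gr (VN Set.univ n * (1 + Real.log (Real.log n)))) :
    (fun n : ℕ => F n - c * Real.log n) =O[atTop] fun n : ℕ =>
      Real.sqrt (Real.log n) * (Real.log (Real.log n)) ^ ((5 : ℝ) / 2) := by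
  have hC := VN_univ_bound
  refine IsBigO.of_bound (100 * B + |c| * 1) ?_
  filter_upwards [gr_all (C := 1) (VN_nonneg Set.univ) (fun n hn => by
    have := (abs_le.1 (hC n hn)).2
    linarith), eventually_ge_atTop 3, log_nat_tendsto.eventually_ge_atTop 1,
    loglog_tendsto.eventually_ge_atTop 1] with n h1 h2 h3 h4
  set E := Real.sqrt (Real.log n) * (Real.log (Real.log n)) ^ ((5 : ℝ) / 2) with hE
  have hE1 : 1 ≤ E := by
    have h5 : 1 ≤ Real.sqrt (Real.log n) := by rw [Real.one_le_sqrt]; exact h3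
    have h6 : 1 ≤ (Real.log (Real.log n)) ^ ((5 : ℝ) / 2) := Real.one_le_rpow h4 (by norm_num)
    rw [hE]
    nlinarith
  rw [Real.norm_eq_abs, Real.norm_of_nonneg (by linarith)]
  have e : F n - c * Real.log n = (F n - c * VN Set.univ n) + c * (VN Set.univ n - Real.log n) := by
    ring
  rw [e]
  have h7 := h n h2
  have h8 := mul_le_mul_of_nonneg_left h1 hB
  have h9 : |c * (VN Set.univ n - Real.log n)| ≤ |c| * 1 := by
    rw [abs_mul]
    exact mul_le_mul_of_nonneg_left (hC n (by omega)) (abs_nonneg c)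
  have h10 := abs_add_le (F n - c * VN Set.univ n) (c * (VN Set.univ n - Real.log n))
  have h11 : |c| * 1 ≤ |c| * 1 * E := by
    have : 0 ≤ |c| * 1 := by positivity
    nlinarith
  nlinarith

end Pool.Agent.Y895.SQ
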