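import Pool.Agent.Y895.SQ.S7
import Pool.Agent.Y895.OL.A4
import Pool.Agent.TH888.R.Asy

set_option autoImplicit false

/-!
# The order law for primes with a positive proportion of prescribed upper digits
-/

open Finset Filter Topology MeasureTheory

namespace Pool.Agent.Y895.SQ

open Pool.Agent.Y895.PM (U01)
open Pool.Agent.Y895.OL (gF gM cg gF_meas gF_nonneg gF_le_one bdd_int Row row_of ae_U01 floor_lt_pow
  lv lv_le lt_lv VI FI fin_of_conv primes_scaled)
open Pool.Agent.Y895.FB (geo_real)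
open Pool.Agent.H305R2 (log_nat_tendsto)

open Classical in
/-- the sum of `1 / q` over the indices in `S` -/
noncomputable def VN (S : Set ℕ) (n : ℕ) : ℝ := ∑ q ∈ range (n + 1), if q ∈ S then wn q else 0

open Classical in
/-- the number of `q ≤ n` in `S` with `s q` prime -/
noncomputable def cN (S : Set ℕ) (s : ℕ → ℕ) (n : ℕ) : ℕ :=
  ((range (n + 1)).filter (fun q => q ∈ S ∧ (s q).Prime)).card

lemma VI_univ (S : Set ℕ) : VI Set.univ wn S = VN S := by
  funext n
  unfold VI VN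
  refine Finset.sum_congr rfl fun q _ => ?_
  by_cases h1 : q ∈ S
  · rw [if_pos ⟨h1, Set.mem_univ q⟩, if_pos h1]
  · rw [if_neg fun h => h1 h.1, if_neg h1]

lemma FI_univ {f : ℕ → ℝ → ℝ} {x : ℝ} {s : ℕ → ℕ} (hf : ∀ q, f q x = gp q (s q)) (S : Set ℕ)
    (n : ℕ) : FI Set.univ f S n x = (cN S s n : ℝ) := by
  classical
  unfold FI cN
  rw [Finset.card_eq_sum_ones, Finset.sum_filter]
  push_cast
  refine Finset.sum_congr rfl fun q _ => ?_
  rw [hf]
  unfold gp
  by_cases h1 : q ∈ S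
  · rw [if_pos ⟨h1, Set.mem_univ q⟩]
    by_cases h2 : (s q).Prime
    · rw [if_pos h2, if_pos ⟨h1, h2⟩]
    · rw [if_neg h2, if_neg fun h => h2 h.2]
  · rw [if_neg fun h => h1 h.1, if_neg fun h => h1 h.1]

lemma cN_le_card {s : ℕ → ℕ} {S : Set ℕ} (hfin : {q : ℕ | q ∈ S ∧ (s q).Prime}.Finite) (n : ℕ) :
    cN S s n ≤ hfin.toFinset.card := by
  classical
  unfold cN
  refine Finset.card_le_card fun q hq => ?_
  rw [mem_filter] at hq
  rw [Set.Finite.mem_toFinset]
  exact hq.2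

/-- order of magnitude and dichotomy at one point -/
structure OrdN (s : ℕ → ℕ) (c1 c2 : ℝ) (S : Set ℕ) : Prop where
  law : Tendsto (VN S) atTop atTop → ∀ᶠ n : ℕ in atTop,
    c1 * VN S n ≤ cN S s n ∧ (cN S s n : ℝ) ≤ c2 * VN S n
  inf : {q : ℕ | q ∈ S ∧ (s q).Prime}.Infinite ↔ Tendsto (VN S) atTop atTop

/-- the correlation growth condition -/
def CorG (b : ℕ) (m : ℕ → ℕ) : Prop := ∃ (CG : ℝ) (P1 : ℕ), 0 ≤ CG ∧ ∀ P ≥ P1, ∀ q ≥ P,
    ∑ p ∈ (range q).filter (fun p => P ≤ p), ((b : ℝ) ^ (m q - m p))⁻¹ ≤ CG * (q / Real.log q)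

/-- the number of free digits grows at least linearly -/
def Grow (m : ℕ → ℕ) : Prop := ∃ σ D : ℝ, 0 < σ ∧ ∀ᶠ p : ℕ in atTop, ∀ q ≥ p,
  σ * ((q : ℝ) - p) - D ≤ (m q : ℝ) - m p

lemma grow_sum {b : ℕ} (hb : 2 ≤ b) {m : ℕ → ℕ} (hG : Grow m) {P0 : ℕ}
    (hmono : ∀ p ≥ P0, ∀ q ≥ p, m p ≤ m q) : CorG b m := by
  obtain ⟨σ, D, hσ, hev⟩ := hG
  obtain ⟨P2, hP2⟩ := hev.exists_forall_of_atTop
  have hbr : (2 : ℝ) ≤ b := by exact_mod_cast hb
  have hb0 : (0 : ℝ) < b := by linarith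
  have hlbb : 0 < Real.log b := Real.log_pos (by linarith)
  set β := Real.exp (σ * Real.log b) with hβ
  have hβ1 : 1 < β := Real.one_lt_exp_iff.2 (by positivity)
  refine ⟨Real.exp (D * Real.log b) * (1 / (β - 1)), P0 + P2 + 2, by
    have : 0 < β - 1 := by linarith
    positivity, fun P hP q hq => ?_⟩
  have h1 : ∀ p ∈ (range q).filter (fun p => P ≤ p), ((b : ℝ) ^ (m q - m p))⁻¹ ≤
      Real.exp (D * Real.log b) * (β ^ (q - p))⁻¹ := by
    intro p hp
    rw [mem_filter, mem_range] at hp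
    have h2 := hP2 p (by omega) q hp.1.le
    have h3 := hmono p (by omega) q hp.1.le
    have e1 : (b : ℝ) ^ (m q - m p) = Real.exp (((m q : ℝ) - m p) * Real.log b) := by
      rw [mul_comm, Real.exp_mul, Real.exp_log hb0, ← Real.rpow_natCast, Nat.cast_sub h3]
    have e2 : β ^ (q - p) = Real.exp (σ * ((q : ℝ) - p) * Real.log b) := by
      rw [hβ, ← Real.exp_nat_mul, Nat.cast_sub hp.1.le]
      congr 1
      ring
    rw [e1, e2, ← Real.exp_neg, ← Real.exp_neg, ← Real.exp_add]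
    apply Real.exp_le_exp.2
    have h4 := mul_le_mul_of_nonneg_right h2 hlbb.le
    linarith
  refine (Finset.sum_le_sum h1).trans ?_
  rw [← Finset.mul_sum, mul_assoc]
  apply mul_le_mul_of_nonneg_left _ (Real.exp_pos _).le
  have h2 := geo_real hβ1 q ((range q).filter (fun p => P ≤ p)) (fun p hp => by
    rw [mem_filter, mem_range] at hp
    exact hp.1)
  refine h2.trans ?_
  have h3 : 0 ≤ 1 / (β - 1) := by
    have : 0 < β - 1 := by linarith
    positivity
  apply le_mul_of_one_le_right h3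
  have hq2 : (2 : ℝ) ≤ q := by exact_mod_cast (by omega : 2 ≤ q)
  rw [one_le_div (Real.log_pos (by linarith))]
  exact (Real.log_le_sub_one_of_pos (by linarith)).trans (by linarith)

/-- **The order law for primes.** -/
theorem ord_prime' : ∃ δ : ℝ, 0 < δ ∧ δ < 1 ∧ ∀ α : ℝ, 1 < α → ∀ b : ℕ, 2 ≤ b →
    ∃ c1 c2 : ℝ, 0 < c1 ∧ 0 < c2 ∧ ∀ c C : ℝ, 0 < c → 0 < C → ∀ A m : ℕ → ℕ,
    (∀ᶠ p in atTop, m p ≤ m (p + 1)) → CorG b m →
    (∀ᶠ p : ℕ in atTop, c * α ^ p ≤ A p ∧ (A p : ℝ) ≤ C * α ^ p ∧ b ^ m p ≤ A p ∧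
      (p : ℝ) * (1 - δ) * Real.log α ≤ m p * Real.log b) →
    ∀ S : Set ℕ, ∀ᵐ t : ℝ, 0 ≤ t → t < 1 →
      OrdN (fun p => A p + ⌊(b : ℝ) ^ m p * t⌋₊) c1 c2 S := by
  obtain ⟨δ3, η, hδ3, hδ32, hη, hlow⟩ := primes_scaled
  set δ := δ3 / 16 with hδ
  have hδ0 : 0 < δ := by positivity
  have hδ1 : δ < 1 / 32 := by rw [hδ]; linarith
  refine ⟨δ, hδ0, by linarith, fun α hα b hb => ?_⟩
  have hbr : (2 : ℝ) ≤ b := by exact_mod_cast hb
  have hb0 : (0 : ℝ) < b := by linarith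
  have hα0 : 0 < α := by linarith
  have hlbb : 0 < Real.log b := Real.log_pos (by linarith)
  have hlb : 0 < Real.log α := Real.log_pos hα
  obtain ⟨K, hK, hrow⟩ := row_gen (b := b) hb hα
  refine ⟨η / Real.log α / 2, 2 * K, by positivity, by positivity,
    fun c C hc hC A m hm hgrow hA S => ?_⟩
  obtain ⟨Q1, hrow⟩ := hrow c C hc hC
  obtain ⟨P3, hP3⟩ := hlow α hα (2 * C) (by positivity)
  obtain ⟨P0, hP0⟩ := (hm.and hA).exists_forall_of_atTop
  have hmono : ∀ p ≥ P0, ∀ q ≥ p, m p ≤ m q := by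
    intro p hp q hq
    induction q, hq using Nat.le_induction with
    | base => exact le_rfl
    | succ q hq ih => exact ih.trans (hP0 q (le_trans hp hq)).1
  obtain ⟨CG, P1, hCG, hG⟩ := hgrow
  set D := |Real.log C| with hD
  have hD0 : 0 ≤ D := abs_nonneg _
  have hev1 : ∀ᶠ q : ℕ in atTop, D / (δ / 2 * Real.log α) ≤ q :=
    tendsto_natCast_atTop_atTop.eventually_ge_atTop _
  obtain ⟨P4, hP4⟩ := hev1.exists_forall_of_atTop
  set P := P0 + P1 + P3 + P4 + 16 with hP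
  have hDq : ∀ q ≥ P, D ≤ q * (δ / 2 * Real.log α) := by
    intro q hq
    have h1 := hP4 q (by omega)
    rw [div_le_iff₀ (by positivity)] at h1
    exact h1
  have hq16 : ∀ q ≥ P, (16 : ℝ) ≤ q := fun q hq => by exact_mod_cast (by omega : 16 ≤ q)
  have hbigd : ∀ q ≥ P, (q : ℝ) * (1 - δ) * Real.log α ≤ m q * Real.log b :=
    fun q hq => (hP0 q (by omega)).2.2.2.2
  have hadm : AdmP b α c C A m P := by
    refine ⟨fun p hp q hq => hmono p (by omega) q hq, fun p hp => (hP0 p (by omega)).2.1,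
      fun p hp => (hP0 p (by omega)).2.2.1, fun p hp => (hP0 p (by omega)).2.2.2.1,
      fun p hp => ?_⟩
    refine le_trans ?_ (hbigd p hp)
    apply mul_le_mul_of_nonneg_right _ hlb.le
    apply mul_le_mul_of_nonneg_left _ (Nat.cast_nonneg p)
    linarith
  have hlvm : ∀ q ≥ P, (q : ℝ) * (1 - 2 * δ) * Real.log α ≤
      ((m q : ℝ) - lv b α δ q) * Real.log b := by
    intro q hq
    have h1 := lv_le hb hα hδ0 q
    have h2 := hbigd q hq
    nlinarith
  have hlm : ∀ q ≥ P, lv b α δ q ≤ m q := by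
    intro q hq
    have h1 := hlvm q hq
    have h2 := hq16 q hq
    by_contra h
    have h3 : (m q : ℝ) - lv b α δ q ≤ 0 := by
      have : (m q : ℝ) ≤ lv b α δ q := by exact_mod_cast (by omega : m q ≤ lv b α δ q)
      linarith
    have h4 : ((m q : ℝ) - lv b α δ q) * Real.log b ≤ 0 :=
      mul_nonpos_of_nonpos_of_nonneg h3 hlbb.le
    have h5 : 0 < (q : ℝ) * (1 - 2 * δ) * Real.log α := by
      have : 0 < 1 - 2 * δ := by linarith
      positivity
    linarith
  have hcomp : ∀ q ≥ P, ∀ p ≥ P, lv b α δ q < m p → δ / 2 * q ≤ p := by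
    intro q hq p hp h
    have h1 := lt_lv hb h
    have h2 := hadm.m_up hb hα hC hp
    have h3 := hDq q hq
    have h4 : (δ / 2 * q) * Real.log α ≤ p * Real.log α := by linarith
    exact le_of_mul_le_mul_right h4 hlb
  have hnear : ∀ q ≥ P, ∀ T : Finset ℕ, (∀ p ∈ T, P ≤ p ∧ p < q ∧ lv b α δ q < m p) →
      ∑ p ∈ T, wn p ≤ 2 / δ * 1 := by
    intro q hq T hT
    have hq0 : (0 : ℝ) < q := by linarith [hq16 q hq]
    have h1 : ∀ p ∈ T, wn p ≤ 1 / (δ / 2 * q) := by
      intro p hp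
      obtain ⟨g2, g3, g4⟩ := hT p hp
      exact one_div_le_one_div_of_le (by positivity) (hcomp q hq p g2 g4)
    have hcard : (T.card : ℝ) ≤ q := by
      have : T.card ≤ q := by
        calc T.card ≤ (range q).card := card_le_card fun p hp => mem_range.2 (hT p hp).2.1
          _ = q := card_range q
      exact_mod_cast this
    calc ∑ p ∈ T, wn p ≤ ∑ p ∈ T, 1 / (δ / 2 * q) := Finset.sum_le_sum h1
      _ = T.card * (1 / (δ / 2 * q)) := by rw [Finset.sum_const, nsmul_eq_mul]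
      _ ≤ q * (1 / (δ / 2 * q)) := mul_le_mul_of_nonneg_right hcard (by positivity)
      _ = 2 / δ * 1 := by field_simp
  obtain ⟨hR, hup, hone⟩ := hrow A m (lv b α δ) P hadm (fun q hq => ⟨hlm q hq, by
      refine le_trans ?_ (hlvm q hq)
      apply mul_le_mul_of_nonneg_right _ hlb.le
      apply mul_le_mul_of_nonneg_left _ (Nat.cast_nonneg q)
      linarith⟩) CG hCG (fun q hq => hG P (by omega) q hq) (fun _ => 1) (fun _ => le_rfl)
    ⟨1, zero_le_one, fun q => by rw [mul_one]; exact wn_le_one q⟩ (2 / δ) (by positivity) hnear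
  have hlo : ∀ᵐ t ∂U01, ∀ q ≥ P + Q1, q ∈ Set.univ →
      η / Real.log α * wn q ≤ gM gp b A m (lv b α δ) q t := by
    refine ae_U01 fun t ht0 ht1 q hq _ => ?_
    have hqP : q ≥ P := by omega
    set h := m q - lv b α δ q with hh
    set k := ⌊(b : ℝ) ^ lv b α δ q * t⌋₊ with hk
    have hkl : k < b ^ lv b α δ q := floor_lt_pow hb _ ht1
    have hdig := hadm.dig q hqP
    have e2 : A q + b ^ h * k + b ^ h ≤ 2 * A q := by
      have h4 : b ^ h * k + b ^ h ≤ b ^ m q := by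
        calc b ^ h * k + b ^ h = b ^ h * (k + 1) := by ring
          _ ≤ b ^ h * b ^ lv b α δ q := Nat.mul_le_mul_left _ hkl
          _ = b ^ m q := by rw [← pow_add, hh, Nat.sub_add_cancel (hlm q hqP)]
      omega
    have h0 : (0 : ℝ) < (b : ℝ) ^ h := by positivity
    have hLB : b ^ h ≤ A q + b ^ h * k := by
      have h1 : b ^ h ≤ b ^ m q := Nat.pow_le_pow_right (by omega) (by omega)
      omega
    have hlogL : Real.log ((b ^ h : ℕ) : ℝ) = ((m q : ℝ) - lv b α δ q) * Real.log b := by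
      push_cast
      rw [Real.log_pow, hh, Nat.cast_sub (hlm q hqP)]
    have hlv := hlvm q hqP
    have hq16' := hq16 q hqP
    obtain ⟨X, Y, g1, g2, g3, g4⟩ := hP3 q (by omega) (A q + b ^ h * k) (b ^ h) 1 le_rfl
      (by omega) hLB (by
        have h2 := hadm.up q hqP
        have h3 : ((A q + b ^ h * k : ℕ) : ℝ) ≤ ((2 * A q : ℕ) : ℝ) := by
          exact_mod_cast (by omega : A q + b ^ h * k ≤ 2 * A q)
        push_cast at h3 ⊢
        linarith) (by
        rw [hlogL]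
        refine le_trans ?_ hlv
        apply mul_le_mul_of_nonneg_right _ hlb.le
        apply mul_le_mul_of_nonneg_left _ (by linarith)
        rw [hδ]; linarith)
    rw [one_mul] at g2 g3
    have hcard : ((Ioc X (X + Y)).filter Nat.Prime).card ≤
        ((range (b ^ h)).filter (fun j => (A q + b ^ h * k + j).Prime)).card := by
      refine Finset.card_le_card_of_injOn (fun l => l - (A q + b ^ h * k)) ?_ ?_
      · intro l hl
        rw [Finset.mem_coe, mem_filter, mem_Ioc] at hl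
        rw [Finset.mem_coe, mem_filter, mem_range]
        have e : A q + b ^ h * k + (l - (A q + b ^ h * k)) = l := by omega
        show l - (A q + b ^ h * k) < b ^ h ∧ (A q + b ^ h * k + (l - (A q + b ^ h * k))).Prime
        rw [e]
        exact ⟨by omega, hl.2⟩
      · intro x hx y hy hxy
        rw [Finset.mem_coe, mem_filter, mem_Ioc] at hx hy
        simp only at hxy
        omega
    have e : gM gp b A m (lv b α δ) q t = ((b : ℝ) ^ h)⁻¹ *
        cg (gp q) (A q + b ^ h * k) (b ^ h) := rfl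
    rw [e, cg_gp, inv_mul_eq_div, le_div_iff₀ h0]
    have hcr : (((Ioc X (X + Y)).filter Nat.Prime).card : ℝ) ≤
        (((range (b ^ h)).filter (fun j => (A q + b ^ h * k + j).Prime)).card : ℝ) := by
      exact_mod_cast hcard
    refine le_trans (le_of_eq ?_) (g4.trans hcr)
    unfold wn
    push_cast
    ring
  have main : ∀ᵐ t ∂U01, OrdN (fun p => A p + ⌊(b : ℝ) ^ m p * t⌋₊) (η / Real.log α / 2) (2 * K) S := by
    by_cases hdiv : Tendsto (VN S) atTop atTop
    · have h1 := hR.order (c0 := η / Real.log α) (K := K) (by positivity) hK hlo hup S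
        (by rw [VI_univ]; exact hdiv)
      filter_upwards [h1] with t ht
      have hlaw : ∀ᶠ n : ℕ in atTop, η / Real.log α / 2 * VN S n ≤
          cN S (fun p => A p + ⌊(b : ℝ) ^ m p * t⌋₊) n ∧
          (cN S (fun p => A p + ⌊(b : ℝ) ^ m p * t⌋₊) n : ℝ) ≤ 2 * K * VN S n := by
        filter_upwards [ht] with n hn
        rw [VI_univ] at hn
        have e : FI Set.univ (gF gp b A m) S n t =
            (cN S (fun p => A p + ⌊(b : ℝ) ^ m p * t⌋₊) n : ℝ) :=
          FI_univ (fun q => rfl) S n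
        rw [e] at hn
        exact hn
      refine ⟨fun _ => hlaw, ⟨fun _ => hdiv, fun _ hfin => ?_⟩⟩
      set M := hfin.toFinset.card with hM
      have hbd : ∀ n : ℕ, cN S (fun p => A p + ⌊(b : ℝ) ^ m p * t⌋₊) n ≤ M :=
        fun n => cN_le_card hfin n
      have h2 := hdiv.eventually (eventually_gt_atTop ((M : ℝ) / (η / Real.log α / 2)))
      obtain ⟨n, g1, g2⟩ := (hlaw.and h2).exists
      rw [div_lt_iff₀ (by positivity)] at g2
      have h3 : (cN S (fun p => A p + ⌊(b : ℝ) ^ m p * t⌋₊) n : ℝ) ≤ M := by exact_mod_cast hbd n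
      linarith [g1.1]
    · have h1 := fin_of_conv (μ := U01) (f := gF gp b A m) (I := Set.univ) (w := wn) (P := P + Q1)
        (gF_meas gp b A m) (gF_nonneg gp01 b A m) (gF_le_one gp01 b A m) wn_nonneg hK.le hone S
        (by rw [VI_univ]; exact hdiv)
      filter_upwards [h1] with t ht
      refine ⟨fun hd => absurd hd hdiv, ⟨fun hi => ?_, fun hd => absurd hd hdiv⟩⟩
      exfalso
      apply hi
      refine ht.subset fun q hq => ?_
      obtain ⟨g1, g2⟩ := hq
      refine ⟨g1, Set.mem_univ q, ?_⟩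
      show gp q (A q + ⌊(b : ℝ) ^ m q * t⌋₊) = 1
      unfold gp
      rw [if_pos g2]
  unfold U01 at main
  rw [ae_restrict_iff' measurableSet_Ico] at main
  filter_upwards [main] with t ht h0 h1
  exact ht ⟨h0, h1⟩

/-- **The order law for primes.** -/
theorem ord_prime : ∃ δ : ℝ, 0 < δ ∧ δ < 1 ∧ ∀ α : ℝ, 1 < α → ∀ b : ℕ, 2 ≤ b →
    ∃ c1 c2 : ℝ, 0 < c1 ∧ 0 < c2 ∧ ∀ c C : ℝ, 0 < c → 0 < C → ∀ A m : ℕ → ℕ,
    (∀ᶠ p in atTop, m p ≤ m (p + 1)) → Grow m →
    (∀ᶠ p : ℕ in atTop, c * α ^ p ≤ A p ∧ (A p : ℝ) ≤ C * α ^ p ∧ b ^ m p ≤ A p ∧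
      (p : ℝ) * (1 - δ) * Real.log α ≤ m p * Real.log b) →
    ∀ S : Set ℕ, ∀ᵐ t : ℝ, 0 ≤ t → t < 1 →
      OrdN (fun p => A p + ⌊(b : ℝ) ^ m p * t⌋₊) c1 c2 S := by
  obtain ⟨δ, h0, h1, h⟩ := ord_prime'
  refine ⟨δ, h0, h1, fun α hα b hb => ?_⟩
  obtain ⟨c1, c2, hc1, hc2, h⟩ := h α hα b hb
  refine ⟨c1, c2, hc1, hc2, fun c C hc hC A m hm hg hA S => ?_⟩
  obtain ⟨P0, hP0⟩ := hm.exists_forall_of_atTop
  refine h c C hc hC A m hm (grow_sum hb hg (P0 := P0) ?_) hA S
  intro p hp q hq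
  induction q, hq using Nat.le_induction with
  | base => exact le_rfl
  | succ q hq ih => exact ih.trans (hP0 q (le_trans hp hq))

end Pool.Agent.Y895.SQ
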