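import Pool.Agent.Y895.SQ.Up
import Pool.Agent.H305R2.MertensE

set_option autoImplicit false

/-!
# The upper bound sieve for primes and pairs of primes in arithmetic blocks
-/

open Finset Filter Topology

namespace Pool.Agent.Y895.SQ

lemma prod_sub_le {S T : Finset ℕ} {f : ℕ → ℝ} (h : S ⊆ T) (h1 : ∀ r ∈ T, 1 ≤ f r) :
    ∏ r ∈ S, f r ≤ ∏ r ∈ T, f r := by
  classical
  rw [← Finset.prod_sdiff h]
  have h2 : ∏ r ∈ T \ S, (1 : ℝ) ≤ ∏ r ∈ T \ S, f r :=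
    Finset.prod_le_prod (fun _ _ => zero_le_one) fun r hr => h1 r (mem_sdiff.1 hr).1
  rw [Finset.prod_const_one] at h2
  have h3 : 0 ≤ ∏ r ∈ S, f r := Finset.prod_nonneg fun r hr => by linarith [h1 r (h hr)]
  exact le_mul_of_one_le_left h3 h2

/-- the primes up to `y` -/
def Pr (y : ℕ) : Finset ℕ := (Icc 1 y).filter Nat.Prime

lemma mem_Pr {y r : ℕ} : r ∈ Pr y ↔ r.Prime ∧ r ≤ y := by
  unfold Pr
  rw [mem_filter, mem_Icc]
  constructor
  · rintro ⟨⟨_, h1⟩, h2⟩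
    exact ⟨h2, h1⟩
  · rintro ⟨h1, h2⟩
    exact ⟨⟨h1.one_lt.le, h2⟩, h1⟩

/-- the Mertens product -/
noncomputable def E (y : ℕ) : ℝ := ∏ r ∈ Pr y, (1 - (r : ℝ)⁻¹)⁻¹

lemma fac_pos {r : ℕ} (hr : r.Prime) : 0 < 1 - (r : ℝ)⁻¹ ∧ 1 - (r : ℝ)⁻¹ ≤ 1 := by
  have h2 : (2 : ℝ) ≤ r := by exact_mod_cast hr.two_le
  have h3 : (r : ℝ)⁻¹ ≤ 2⁻¹ := inv_anti₀ (by norm_num) h2
  have h4 : 0 < (r : ℝ)⁻¹ := by positivity
  constructor <;> linarith

lemma E_pos (y : ℕ) : 0 < E y :=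
  Finset.prod_pos fun r hr => inv_pos.2 (fac_pos (mem_Pr.1 hr).1).1

lemma one_le_E (y : ℕ) : 1 ≤ E y := by
  unfold E
  have h : ∏ r ∈ Pr y, (1 : ℝ) ≤ ∏ r ∈ Pr y, (1 - (r : ℝ)⁻¹)⁻¹ :=
    Finset.prod_le_prod (fun _ _ => zero_le_one) fun r hr => by
      obtain ⟨h1, h2⟩ := fac_pos (mem_Pr.1 hr).1
      exact (one_le_inv₀ h1).2 h2
  simpa using h

lemma E_bounds : ∃ C : ℝ, 1 ≤ C ∧ ∀ y : ℕ, 2 ≤ y → Real.log y ≤ C * E y ∧ E y ≤ C * Real.log y := by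
  have hlim := Pool.Agent.H305R2.mertens_three
  have hlim1 : Tendsto (fun N : ℕ => E (N + 2) / Real.log (N + 2 : ℕ)) atTop
      (𝓝 (Real.exp Real.eulerMascheroniConstant)) :=
    hlim.comp (tendsto_add_atTop_nat 2)
  have hlim2 := hlim1.inv₀ (Real.exp_pos _).ne'
  obtain ⟨C1, hC1⟩ := hlim1.bddAbove_range
  obtain ⟨C2, hC2⟩ := hlim2.bddAbove_range
  refine ⟨max 1 (max C1 C2), le_max_left _ _, fun y hy => ?_⟩
  obtain ⟨k, rfl⟩ := Nat.exists_eq_add_of_le' hy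
  have hlog : 0 < Real.log (k + 2 : ℕ) := by
    apply Real.log_pos
    have : (0 : ℝ) ≤ k := Nat.cast_nonneg k
    push_cast
    linarith
  have hE := E_pos (k + 2)
  have h1 : E (k + 2) / Real.log (k + 2 : ℕ) ≤ C1 := hC1 ⟨k, rfl⟩
  have h2 : (E (k + 2) / Real.log (k + 2 : ℕ))⁻¹ ≤ C2 := hC2 ⟨k, rfl⟩
  rw [inv_div, div_le_iff₀ hE] at h2
  rw [div_le_iff₀ hlog] at h1
  constructor
  · exact h2.trans (mul_le_mul_of_nonneg_right ((le_max_right _ _).trans (le_max_right _ _)) hE.le)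
  · exact h1.trans (mul_le_mul_of_nonneg_right ((le_max_left _ _).trans (le_max_right _ _)) hlog.le)

/-- the primes in `(z, y]` -/
def Pz (z y : ℕ) : Finset ℕ := (Pr y).filter (fun r => z < r)

lemma mem_Pz {z y r : ℕ} : r ∈ Pz z y ↔ (r.Prime ∧ r ≤ y) ∧ z < r := by
  unfold Pz
  rw [mem_filter, mem_Pr]

lemma prod_Pz {z y : ℕ} (hzy : z ≤ y) : ∏ r ∈ Pz z y, (1 - (r : ℝ)⁻¹) = E z / E y := by
  have h1 : E y = E z * ∏ r ∈ Pz z y, (1 - (r : ℝ)⁻¹)⁻¹ := by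
    unfold E Pz
    rw [← Finset.prod_filter_mul_prod_filter_not (Pr y) (fun r => z < r), mul_comm]
    congr 1
    refine Finset.prod_congr ?_ fun _ _ => rfl
    ext r
    rw [mem_filter, mem_Pr, mem_Pr]
    constructor
    · rintro ⟨⟨h1, h2⟩, h3⟩
      exact ⟨h1, by omega⟩
    · rintro ⟨h1, h2⟩
      exact ⟨⟨h1, by omega⟩, by omega⟩
  have h2 : ∏ r ∈ Pz z y, (1 - (r : ℝ)⁻¹)⁻¹ = (∏ r ∈ Pz z y, (1 - (r : ℝ)⁻¹))⁻¹ :=
    Finset.prod_inv_distrib _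
  have h3 : 0 < ∏ r ∈ Pz z y, (1 - (r : ℝ)⁻¹) :=
    Finset.prod_pos fun r hr => (fac_pos (mem_Pz.1 hr).1.1).1
  rw [h2] at h1
  rw [h1]
  have := (E_pos z).ne'
  field_simp

/-- the local factors at the primes that divide `D` -/
noncomputable def G (D : ℤ) (y : ℕ) : ℝ :=
  ∏ r ∈ (Pr y).filter (fun r : ℕ => (r : ℤ) ∣ D), (1 - (r : ℝ)⁻¹)⁻¹

lemma G_pos (D : ℤ) (y : ℕ) : 0 < G D y :=
  Finset.prod_pos fun r hr => inv_pos.2 (fac_pos (mem_Pr.1 (mem_filter.1 hr).1).1).1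

lemma one_le_G (D : ℤ) (y : ℕ) : 1 ≤ G D y := by
  unfold G
  have h : ∏ r ∈ (Pr y).filter (fun r : ℕ => (r : ℤ) ∣ D), (1 : ℝ) ≤
      ∏ r ∈ (Pr y).filter (fun r : ℕ => (r : ℤ) ∣ D), (1 - (r : ℝ)⁻¹)⁻¹ :=
    Finset.prod_le_prod (fun _ _ => zero_le_one) fun r hr => by
      obtain ⟨h1, h2⟩ := fac_pos (mem_Pr.1 (mem_filter.1 hr).1).1
      exact (one_le_inv₀ h1).2 h2
  simpa using h

/-- the bad classes of a pair of linear forms -/
def Q2 (a1 a2 u : ℕ) (r n : ℕ) : Prop := r ∣ a1 + n ∨ r ∣ a2 + u * n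

lemma Q2_per (a1 a2 u r n : ℕ) : Q2 a1 a2 u r n ↔ Q2 a1 a2 u r (n % r) := by
  unfold Q2
  have h1 : a1 + n ≡ a1 + n % r [MOD r] := (Nat.mod_modEq n r).symm.add_left a1
  have h2 : a2 + u * n ≡ a2 + u * (n % r) [MOD r] :=
    (((Nat.mod_modEq n r).symm.mul_left u).add_left a2)
  rw [h1.dvd_iff dvd_rfl, h2.dvd_iff dvd_rfl]

open Classical in
lemma nu_Q2 {a1 a2 u r : ℕ} (hr : r.Prime) (hu : ¬ r ∣ u) :
    nu (Q2 a1 a2 u) r ≤ 2 ∧ 1 ≤ nu (Q2 a1 a2 u) r ∧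
      (¬ (r : ℤ) ∣ (a2 : ℤ) - u * a1 → 2 ≤ nu (Q2 a1 a2 u) r) := by
  haveI : Fact r.Prime := ⟨hr⟩
  have hu0 : ((u : ℕ) : ZMod r) ≠ 0 := by
    intro h
    exact hu ((ZMod.natCast_eq_zero_iff u r).1 h)
  set x1 : ZMod r := -(a1 : ZMod r) with hx1
  set x2 : ZMod r := -(a2 : ZMod r) / u with hx2
  have hiff : ∀ n : ℕ, Q2 a1 a2 u r n ↔ (n : ZMod r) = x1 ∨ (n : ZMod r) = x2 := by
    intro n
    unfold Q2
    rw [← ZMod.natCast_eq_zero_iff, ← ZMod.natCast_eq_zero_iff]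
    push_cast
    constructor
    · rintro (h | h)
      · left
        rw [hx1, eq_neg_iff_add_eq_zero, add_comm]
        exact h
      · right
        rw [hx2, eq_div_iff hu0, eq_neg_iff_add_eq_zero]
        rw [← h]
        ring
    · rintro (h | h)
      · left
        rw [hx1] at h
        rw [h]
        ring
      · right
        rw [hx2, eq_div_iff hu0] at h
        have : (u : ZMod r) * n = -a2 := by rw [← h]; ring
        rw [this]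
        ring
  have e : (range r).filter (fun n => Q2 a1 a2 u r n) = {x1.val, x2.val} := by
    ext n
    rw [mem_filter, mem_range, mem_insert, mem_singleton, hiff]
    constructor
    · rintro ⟨h1, h2 | h2⟩
      · left
        rw [← h2, ZMod.val_natCast, Nat.mod_eq_of_lt h1]
      · right
        rw [← h2, ZMod.val_natCast, Nat.mod_eq_of_lt h1]
    · rintro (h | h)
      · rw [h]
        exact ⟨ZMod.val_lt _, Or.inl (ZMod.natCast_zmod_val x1)⟩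
      · rw [h]
        exact ⟨ZMod.val_lt _, Or.inr (ZMod.natCast_zmod_val x2)⟩
  unfold nu
  rw [e]
  refine ⟨Finset.card_le_two, Finset.card_pos.2 ⟨_, mem_insert_self _ _⟩, fun hD => ?_⟩
  have hne : x1.val ≠ x2.val := by
    intro h
    have h1 : x1 = x2 := ZMod.val_injective r h
    apply hD
    rw [← ZMod.intCast_zmod_eq_zero_iff_dvd]
    push_cast
    rw [hx1, hx2, eq_div_iff hu0] at h1
    have : (u : ZMod r) * a1 = a2 := by
      have h2 : -((u : ZMod r) * a1) = -a2 := by rw [← h1]; ring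
      exact neg_injective h2
    rw [this]
    ring
  rw [Finset.card_pair hne]

lemma half_le {r : ℕ} (hr : r.Prime) : (r : ℝ)⁻¹ ≤ 2⁻¹ ∧ 0 < (r : ℝ)⁻¹ := by
  have h2 : (2 : ℝ) ≤ r := by exact_mod_cast hr.two_le
  exact ⟨inv_anti₀ (by norm_num) h2, by positivity⟩

/-- **The sieve bound for pairs.** -/
theorem pair_sieve (b : ℕ) (hb : 2 ≤ b) : ∃ (K : ℕ) (C : ℝ), 1 ≤ K ∧ 0 < C ∧ ∀ y X : ℕ, 3 ≤ y →
    y ^ K ≤ X → ∀ a1 a2 h : ℕ, y < a1 → y < a2 →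
    (((range X).filter (fun j => (a1 + j).Prime ∧ (a2 + b ^ h * j).Prime)).card : ℝ) ≤
      C * (X / Real.log y ^ 2) * G ((a2 : ℤ) - (b ^ h : ℕ) * a1) y + √(X : ℝ) + 1 := by
  obtain ⟨K, z0, hK, hS⟩ := up_sieve 2
  obtain ⟨CE, hCE, hE⟩ := E_bounds
  set z := max z0 b with hz
  refine ⟨K, 2 * (E z * CE) ^ 2, hK, by have := E_pos z; positivity,
    fun y X hy hyX a1 a2 h h1 h2 => ?_⟩
  have hEz := E_pos z
  have hly : 0 < Real.log y := Real.log_pos (by exact_mod_cast (by omega : 1 < y))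
  have hu : ∀ r, r.Prime → z < r → ¬ r ∣ b ^ h := by
    intro r hr hzr hd
    have h3 := hr.dvd_of_dvd_pow hd
    have h4 := Nat.le_of_dvd (by omega) h3
    have : b ≤ z := le_max_right _ _
    omega
  have hcount := hS y X hy hyX (Q2 a1 a2 (b ^ h)) (fun p n => Q2_per _ _ _ _ _) (Pz z y)
    (fun p hp => by
      have hp' := mem_Pz.1 hp
      exact ⟨hp'.1.1, lt_of_le_of_lt (le_max_left _ _) hp'.2, hp'.1.2,
        (nu_Q2 hp'.1.1 (hu p hp'.1.1 hp'.2)).1⟩)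
  classical
  have hsub : (range X).filter (fun j => (a1 + j).Prime ∧ (a2 + b ^ h * j).Prime) ⊆
      insert 0 ((Icc 1 X).filter (fun n : ℕ => ∀ p ∈ Pz z y, ¬ Q2 a1 a2 (b ^ h) p n)) := by
    intro j hj
    rw [mem_filter, mem_range] at hj
    obtain ⟨hj, h3, h4⟩ := hj
    rcases Nat.eq_zero_or_pos j with h0 | h0
    · rw [h0]; exact mem_insert_self _ _
    · apply mem_insert_of_mem
      rw [mem_filter, mem_Icc]
      refine ⟨⟨h0, hj.le⟩, fun r hr hbad => ?_⟩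
      have hr' := mem_Pz.1 hr
      rcases hbad with h5 | h5
      · have := (Nat.prime_dvd_prime_iff_eq hr'.1.1 h3).1 h5
        omega
      · have := (Nat.prime_dvd_prime_iff_eq hr'.1.1 h4).1 h5
        omega
  have hcard : (((range X).filter (fun j => (a1 + j).Prime ∧ (a2 + b ^ h * j).Prime)).card : ℝ) ≤
      (((Icc 1 X).filter (fun n : ℕ => ∀ p ∈ Pz z y, ¬ Q2 a1 a2 (b ^ h) p n)).card : ℝ) + 1 := by
    have := (card_le_card hsub).trans (card_insert_le _ _)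
    exact_mod_cast this
  have hG1 := one_le_G ((a2 : ℤ) - (b ^ h : ℕ) * a1) y
  -- the product
  have hprod : ∏ p ∈ Pz z y, (1 - (nu (Q2 a1 a2 (b ^ h)) p : ℝ) / p) ≤
      (E z * CE) ^ 2 / Real.log y ^ 2 * G ((a2 : ℤ) - (b ^ h : ℕ) * a1) y := by
    set D : ℤ := (a2 : ℤ) - (b ^ h : ℕ) * a1 with hD
    have hfac : ∀ r ∈ Pz z y, 1 - (nu (Q2 a1 a2 (b ^ h)) r : ℝ) / r ≤
        (1 - (r : ℝ)⁻¹) ^ 2 * (if (r : ℤ) ∣ D then (1 - (r : ℝ)⁻¹)⁻¹ else 1) := by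
      intro r hr
      have hr' := mem_Pz.1 hr
      obtain ⟨n1, n2, n3⟩ := nu_Q2 (a1 := a1) (a2 := a2) hr'.1.1 (hu r hr'.1.1 hr'.2)
      have h5 := fac_pos hr'.1.1
      have h6 := half_le hr'.1.1
      rw [div_eq_mul_inv]
      split_ifs with hd
      · have h7 : (1 : ℝ) ≤ nu (Q2 a1 a2 (b ^ h)) r := by exact_mod_cast n2
        have h8 : 1 * (r : ℝ)⁻¹ ≤ nu (Q2 a1 a2 (b ^ h)) r * (r : ℝ)⁻¹ :=
          mul_le_mul_of_nonneg_right h7 h6.2.le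
        have h9 : (1 - (r : ℝ)⁻¹) ^ 2 * (1 - (r : ℝ)⁻¹)⁻¹ = 1 - (r : ℝ)⁻¹ := by
          rw [sq, mul_assoc, mul_inv_cancel₀ h5.1.ne', mul_one]
        rw [h9]
        linarith
      · have h7 : (2 : ℝ) ≤ nu (Q2 a1 a2 (b ^ h)) r := by exact_mod_cast n3 hd
        have h8 : 2 * (r : ℝ)⁻¹ ≤ nu (Q2 a1 a2 (b ^ h)) r * (r : ℝ)⁻¹ :=
          mul_le_mul_of_nonneg_right h7 h6.2.le
        nlinarith [sq_nonneg (r : ℝ)⁻¹]
    have hfac0 : ∀ r ∈ Pz z y, 0 ≤ 1 - (nu (Q2 a1 a2 (b ^ h)) r : ℝ) / r := by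
      intro r hr
      have hr0 : (0 : ℝ) < r := by exact_mod_cast (mem_Pz.1 hr).1.1.pos
      have : (nu (Q2 a1 a2 (b ^ h)) r : ℝ) / r ≤ 1 := by
        rw [div_le_one hr0]
        exact_mod_cast nu_le _ r
      linarith
    refine (Finset.prod_le_prod hfac0 hfac).trans ?_
    rw [Finset.prod_mul_distrib, Finset.prod_pow]
    have hg : ∏ r ∈ Pz z y, (if (r : ℤ) ∣ D then (1 - (r : ℝ)⁻¹)⁻¹ else 1) ≤ G D y := by
      rw [← Finset.prod_filter]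
      unfold G
      refine prod_sub_le ?_ ?_
      · intro r hr
        rw [mem_filter] at hr ⊢
        exact ⟨mem_Pr.2 (mem_Pz.1 hr.1).1, hr.2⟩
      · intro r hr
        obtain ⟨h5, h6⟩ := fac_pos (mem_Pr.1 (mem_filter.1 hr).1).1
        exact (one_le_inv₀ h5).2 h6
    have hm : (∏ r ∈ Pz z y, (1 - (r : ℝ)⁻¹)) ^ 2 ≤ (E z * CE) ^ 2 / Real.log y ^ 2 := by
      rw [← div_pow]
      have h0 : 0 ≤ ∏ r ∈ Pz z y, (1 - (r : ℝ)⁻¹) :=
        Finset.prod_nonneg fun r hr => (fac_pos (mem_Pz.1 hr).1.1).1.le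
      refine pow_le_pow_left₀ h0 ?_ 2
      have hEy := (hE y (by omega)).1
      rcases le_or_gt z y with hzy | hzy
      · rw [prod_Pz hzy, div_le_div_iff₀ (E_pos y) hly]
        calc E z * Real.log y ≤ E z * (CE * E y) := mul_le_mul_of_nonneg_left hEy hEz.le
          _ = _ := by ring
      · have h1 : ∏ r ∈ Pz z y, (1 - (r : ℝ)⁻¹) ≤ 1 :=
          Finset.prod_le_one (fun r hr => (fac_pos (mem_Pz.1 hr).1.1).1.le)
            fun r hr => (fac_pos (mem_Pz.1 hr).1.1).2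
        refine h1.trans ?_
        rw [le_div_iff₀ hly, one_mul]
        have hEyz : E y ≤ E z := by
          unfold E
          refine prod_sub_le (fun r hr => ?_) fun r hr => ?_
          · rw [mem_Pr] at hr ⊢
            exact ⟨hr.1, by omega⟩
          · obtain ⟨h5, h6⟩ := fac_pos (mem_Pr.1 hr).1
            exact (one_le_inv₀ h5).2 h6
        calc Real.log y ≤ CE * E y := hEy
          _ ≤ CE * E z := mul_le_mul_of_nonneg_left hEyz (by linarith)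
          _ = _ := by ring
    have h0 : 0 ≤ ∏ r ∈ Pz z y, (if (r : ℤ) ∣ D then (1 - (r : ℝ)⁻¹)⁻¹ else 1) :=
      Finset.prod_nonneg fun r hr => by
        split_ifs
        · exact (inv_pos.2 (fac_pos (mem_Pz.1 hr).1.1).1).le
        · exact zero_le_one
    exact mul_le_mul hm hg h0 (by positivity)
  have hfin : 2 * ((X : ℝ) * ∏ p ∈ Pz z y, (1 - (nu (Q2 a1 a2 (b ^ h)) p : ℝ) / p)) ≤
      2 * (E z * CE) ^ 2 * (X / Real.log y ^ 2) * G ((a2 : ℤ) - (b ^ h : ℕ) * a1) y := by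
    have h7 := mul_le_mul_of_nonneg_left hprod (Nat.cast_nonneg (α := ℝ) X)
    calc 2 * ((X : ℝ) * ∏ p ∈ Pz z y, (1 - (nu (Q2 a1 a2 (b ^ h)) p : ℝ) / p))
        ≤ 2 * (X * ((E z * CE) ^ 2 / Real.log y ^ 2 * G ((a2 : ℤ) - (b ^ h : ℕ) * a1) y)) := by
          linarith
      _ = _ := by ring
  linarith

end Pool.Agent.Y895.SQ
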