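import Pool.Agent.Y895.PM.B1

set_option autoImplicit false

/-!
# The prime number theorem in every very short interval
-/

open Filter Topology Set MeasureTheory
open scoped Real

namespace Pool.Agent.Y895.SQ

open Pool.Agent.W66
open Pool.Agent.Y895.PM (KTP PP_pt)

lemma tri_full' {h : ℝ} (hh : 0 < h) {A B t : ℝ} (hA : A ≤ t - h) (hB : t + h ≤ B) :
    ∫ z in A..B, tri h (z - t) = 1 := by
  rw [intervalIntegral.integral_comp_sub_right (fun u => tri h u), ← integral_tri hh]
  apply intervalIntegral.integral_eq_integral_of_support_subset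
  intro u hu
  rw [Function.mem_support] at hu
  have h1 : |u| < h := by
    by_contra hcon
    exact hu (tri_zero_of hh (not_lt.1 hcon))
  rw [abs_lt] at h1
  exact ⟨by linarith, by linarith⟩

/-- the smoothed prime sum at every point -/
theorem pp_pt : ∃ cc Y0 : ℝ, 0 < cc ∧ 16 ≤ Y0 ∧ ∀ Y ≥ Y0,
    (√Y ≤ cc / 2 * Y / Real.log Y ∧ Real.exp (-√Y) ≤ 1 / Y ^ 2) ∧
      ∀ y : ℝ, Y - 1 ≤ y → y ≤ Y + 1 → ∀ N : ℕ, Real.exp (y + 1) ≤ N →
      |PP (hs cc Y) N y - 1 / Y| ≤ 6 / Y ^ 2 := by
  obtain ⟨c0, Z0, hc0, hZ0, hKT⟩ := KTP 3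
  obtain ⟨C, hC, hPP⟩ := PP_pt
  set cc := c0 / 4 with hcc
  have hcc0 : 0 < cc := by positivity
  obtain ⟨Y1, hY1⟩ := (ev_Y (cc / 2) C (by positivity) hC).exists_forall_of_atTop
  obtain ⟨Y2, hY2⟩ := (ev_Y cc C hcc0 hC).exists_forall_of_atTop
  refine ⟨cc, max 16 (max (max Y1 Y2) (2 * Z0)), hcc0, le_max_left _ _, fun Y hYq => ?_⟩
  have hY16 : 16 ≤ Y := (le_max_left _ _).trans hYq
  have hYm : max (max Y1 Y2) (2 * Z0) ≤ Y := (le_max_right _ _).trans hYq
  obtain ⟨a1, -, -, -, -, -⟩ := hY1 Y (((le_max_left _ _).trans (le_max_left _ _)).trans hYm)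
  obtain ⟨-, a2, a3, a4, a5, a6⟩ := hY2 Y (((le_max_right _ _).trans (le_max_left _ _)).trans hYm)
  have hZ0Y : 2 * Z0 ≤ Y := (le_max_right _ _).trans hYm
  have hY0 : 0 < Y := by linarith
  have hlogY : 0 < Real.log Y := by linarith
  set lam := cc * Y / Real.log Y with hlam
  set h := hs cc Y with hh
  have hhe : h = Real.exp (-lam) := rfl
  have hh0 : 0 < h := hs_pos _ _
  have hlamhalf : cc / 2 * Y / Real.log Y = lam / 2 := by rw [hlam]; ring
  rw [hlamhalf] at a1
  have hlam1 : √(Y + 4) ≤ lam := by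
    have h1 : √(Y + 4) ≤ 2 * √(Y + 2) := by
      rw [show (2 : ℝ) * √(Y + 2) = √(4 * (Y + 2)) by
        rw [Real.sqrt_mul (by norm_num), show (4 : ℝ) = 2 ^ 2 by norm_num,
          Real.sqrt_sq (by norm_num)]]
      exact Real.sqrt_le_sqrt (by linarith)
    linarith
  have hlam0 : 0 ≤ lam := (Real.sqrt_nonneg _).trans hlam1
  have hlam32 : lam ≤ Y / 32 := by
    rw [hlam, div_le_iff₀ hlogY]
    calc cc * Y = Y / 32 * (32 * cc) := by ring
      _ ≤ Y / 32 * Real.log Y := by gcongr; linarith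
  have hhY : h ≤ 1 / Y ^ 2 := by
    rw [hhe]
    have h1 : √Y ≤ lam := (Real.sqrt_le_sqrt (by linarith)).trans hlam1
    exact (Real.exp_le_exp.2 (by linarith)).trans a3
  have hh1 : h ≤ 1 := by rw [hhe]; exact Real.exp_le_one_iff.2 (by linarith)
  refine ⟨⟨by rw [hlamhalf]; exact (Real.sqrt_le_sqrt (by linarith)).trans a1, a3⟩,
    fun y hy1 hy2 N hN => ?_⟩
  have hyY : Y / 2 ≤ y := by linarith
  have hy0 : 0 < y := by linarith
  have hTT : |TT h N y - 1| ≤ 1 / y ^ 3 := by
    refine hKT y lam h (by linarith) hhe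
      (le_trans (Real.sqrt_le_sqrt (by linarith)) hlam1) ?_ N hN
    have h2 : Real.log y ≤ 2 * Real.log Y := by
      have h3 : y ≤ Y * Y := by
        have h4 : 8 * Y ≤ Y * Y := mul_le_mul_of_nonneg_right a6 hY0.le
        linarith
      calc Real.log y ≤ Real.log (Y * Y) := Real.log_le_log hy0 h3
        _ = 2 * Real.log Y := by rw [Real.log_mul hY0.ne' hY0.ne']; ring
    calc lam * Real.log y ≤ lam * (2 * Real.log Y) := by gcongr
      _ = c0 / 2 * Y := by rw [hlam, hcc]; field_simp; ring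
      _ ≤ c0 * y := by
          have := mul_le_mul_of_nonneg_left hyY hc0.le
          linarith
  have key := hPP h y N hh0 hh1 (by linarith) hN (1 / y ^ 3) hTT
  have m1 : 32 * (Real.exp (-y) / h) ≤ 1 / Y ^ 2 := by
    refine le_trans ?_ a4
    rw [hhe, ← Real.exp_sub]
    apply mul_le_mul_of_nonneg_left _ (by norm_num)
    apply Real.exp_le_exp.2
    linarith
  have m2 : C / h * Real.exp (-(y / 2)) ≤ 1 / Y ^ 2 := by
    refine le_trans ?_ a5
    have : C / h * Real.exp (-(y / 2)) = C * (Real.exp (-(y / 2)) / h) := by ring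
    rw [this, hhe, ← Real.exp_sub]
    apply mul_le_mul_of_nonneg_left _ hC.le
    apply Real.exp_le_exp.2
    linarith
  have m3 : 1 / y ^ 3 ≤ 1 / Y ^ 2 := by
    apply one_div_le_one_div_of_le (by positivity)
    have h1 : (Y / 2) ^ 3 ≤ y ^ 3 := pow_le_pow_left₀ (by positivity) hyY 3
    have h2 : Y ^ 2 ≤ (Y / 2) ^ 3 := by
      have : (Y / 2) ^ 3 = Y ^ 2 * (Y / 8) := by ring
      rw [this]
      exact le_mul_of_one_le_right (by positivity) (by linarith)
    linarith
  have e1 : h * (1 + 32 * Real.exp (-y) / h ^ 2) = h + 32 * (Real.exp (-y) / h) := by field_simp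
  rw [e1] at key
  have m4 : |1 / y - 1 / Y| ≤ 2 / Y ^ 2 := by
    have e : 1 / y - 1 / Y = (Y - y) / (y * Y) := by field_simp
    rw [e, abs_div, abs_of_pos (by positivity : 0 < y * Y), div_le_div_iff₀ (by positivity)
      (by positivity)]
    have h1 : |Y - y| ≤ 1 := by rw [abs_le]; constructor <;> linarith
    have h2 : Y ^ 2 ≤ 2 * (y * Y) := by nlinarith
    have h3 : |Y - y| * Y ^ 2 ≤ 1 * Y ^ 2 := mul_le_mul_of_nonneg_right h1 (by positivity)
    linarith
  have e2 : PP h N y - 1 / Y = (PP h N y - 1 / y) + (1 / y - 1 / Y) := by ring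
  rw [e2]
  refine (abs_add_le _ _).trans ?_
  have e3 : 6 / Y ^ 2 = 1 / Y ^ 2 + 1 / Y ^ 2 + 1 / Y ^ 2 + 1 / Y ^ 2 + 2 / Y ^ 2 := by ring
  rw [e3]
  linarith

/-- **The prime number theorem in every very short interval.** -/
theorem prime_block : ∃ κ K Y0 : ℝ, 0 < κ ∧ 0 < K ∧ 16 ≤ Y0 ∧ ∀ B L : ℕ, 1 ≤ B →
    Y0 ≤ Real.log B → (L : ℝ) * Real.log B ≤ B →
    Real.exp (-(κ * Real.log B / Real.log (Real.log B))) * B ≤ L →
    |(((Finset.range L).filter (fun j => (B + j).Prime)).card : ℝ) - L / Real.log B| ≤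
      K * (L / Real.log B ^ 2) := by
  obtain ⟨cc, Y0, hcc, hY0, hpp⟩ := pp_pt
  refine ⟨cc / 2, 20, Y0, by positivity, by norm_num, hY0, fun B L hB hYB hLB hBL => ?_⟩
  set Y := Real.log B with hY
  have hY16 : 16 ≤ Y := hY0.trans hYB
  have hYpos : 0 < Y := by linarith
  have hBr : (1 : ℝ) ≤ B := by exact_mod_cast hB
  have hB0 : (0 : ℝ) < B := by linarith
  obtain ⟨⟨a1, a2⟩, hPP⟩ := hpp Y hYB
  set h := hs cc Y with hh
  have hh0 : 0 < h := hs_pos _ _
  have hL0 : (0 : ℝ) < L := lt_of_lt_of_le (by positivity) hBL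
  set x := 1 / Y with hx
  have hx0 : 0 < x := by positivity
  have hx16 : x ≤ 1 / 16 := one_div_le_one_div_of_le (by norm_num) hY16
  set δ := (L : ℝ) / B with hδ
  have hδ0 : 0 < δ := by positivity
  have hδx : δ ≤ x := by
    rw [hδ, hx, div_le_div_iff₀ hB0 hYpos]
    linarith
  have hδL : δ * B = L := by rw [hδ]; field_simp
  have hδh : h ≤ δ * x ^ 2 := by
    have e : h = Real.exp (-(cc / 2 * Y / Real.log Y)) * Real.exp (-(cc / 2 * Y / Real.log Y)) := by
      rw [hh]
      unfold hs
      rw [← Real.exp_add]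
      congr 1
      ring
    rw [e]
    have h1 : Real.exp (-(cc / 2 * Y / Real.log Y)) ≤ δ := by
      rw [hδ, le_div_iff₀ hB0]
      exact hBL
    have h2 : Real.exp (-(cc / 2 * Y / Real.log Y)) ≤ x ^ 2 := by
      refine (Real.exp_le_exp.2 (by linarith)).trans (a2.trans (le_of_eq ?_))
      rw [hx, one_div_pow]
    exact mul_le_mul h1 h2 (Real.exp_pos _).le hδ0.le
  -- the window
  set b := Real.log ((B : ℝ) + L) with hb
  have hbY : b = Y + Real.log (1 + δ) := by
    rw [hb, hY, ← Real.log_mul hB0.ne' (by positivity)]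
    congr 1
    rw [mul_add, mul_one, mul_comm, hδL]
  have hb1 : b - Y ≤ δ := by
    rw [hbY]
    have := Real.log_le_sub_one_of_pos (show 0 < 1 + δ by positivity)
    linarith
  have hb2 : δ * (1 - x) ≤ b - Y := by
    rw [hbY]
    have h1 := Real.one_sub_inv_le_log_of_pos (show 0 < 1 + δ by positivity)
    have h2 : δ * (1 - x) ≤ 1 - (1 + δ)⁻¹ := by
      have e : 1 - (1 + δ)⁻¹ = δ / (1 + δ) := by field_simp; ring
      rw [e, le_div_iff₀ (by positivity)]
      have h3 : (1 - x) * (1 + δ) ≤ 1 := by nlinarith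
      calc δ * (1 - x) * (1 + δ) = δ * ((1 - x) * (1 + δ)) := by ring
        _ ≤ δ * 1 := mul_le_mul_of_nonneg_left h3 hδ0.le
        _ = δ := mul_one _
    linarith
  have hx2 : x ^ 2 ≤ 1 / 256 := by nlinarith
  have hh2 : h ≤ δ / 256 := by
    have := mul_le_mul_of_nonneg_left hx2 hδ0.le
    linarith
  have hδ16 : δ ≤ 1 / 16 := hδx.trans hx16
  have hab : Y + h ≤ b - h := by nlinarith
  set N := ⌈Real.exp (Y + 4)⌉₊ with hN
  have hN1 : Real.exp (Y + 4) ≤ N := Nat.le_ceil _
  set PN := (Finset.Ioc 0 N).filter Nat.Prime with hPN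
  set T := PN.filter (fun l => B ≤ l ∧ l < B + L) with hT
  have hcont : Continuous (fun v => PP h N v) := PP_continuous h N
  have hPPint : ∀ a' b' : ℝ, ∫ v in a'..b', PP h N v =
      ∑ l ∈ PN, 1 / (l : ℝ) * ∫ v in a'..b', tri h (v - Real.log l) := by
    intro a' b'
    unfold PP
    rw [intervalIntegral.integral_finsetSum]
    · refine Finset.sum_congr rfl fun l _ => ?_
      rw [intervalIntegral.integral_const_mul]
    · intro l _
      exact (((tri_continuous h).comp (continuous_id.sub continuous_const)).const_mul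
        _).intervalIntegrable _ _
  have hint : ∀ a' b' : ℝ, Y - 1 ≤ a' → a' ≤ b' → b' ≤ Y + 1 →
      |(∫ v in a'..b', PP h N v) - x * (b' - a')| ≤ 6 * x ^ 2 * (b' - a') := by
    intro a' b' h1 h2 h3
    have e : (∫ v in a'..b', PP h N v) - x * (b' - a') = ∫ v in a'..b', (PP h N v - 1 / Y) := by
      rw [intervalIntegral.integral_sub (hcont.intervalIntegrable _ _) intervalIntegrable_const,
        intervalIntegral.integral_const, smul_eq_mul]
      ring
    rw [e]
    have h4 := intervalIntegral.norm_integral_le_of_norm_le_const (a := a') (b := b')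
      (C := 6 / Y ^ 2) (f := fun v => PP h N v - 1 / Y) (fun v hv => by
        rw [Set.uIoc_of_le h2] at hv
        rw [Real.norm_eq_abs]
        exact hPP v (by linarith [hv.1]) (by linarith [hv.2]) N
          ((Real.exp_le_exp.2 (by linarith [hv.2])).trans hN1))
    rw [Real.norm_eq_abs, abs_of_nonneg (by linarith : 0 ≤ b' - a')] at h4
    have e2 : 6 * x ^ 2 = 6 / Y ^ 2 := by rw [hx]; field_simp
    rw [e2]
    exact h4
  have hPNpos : ∀ l ∈ PN, (0 : ℝ) < l := by
    intro l hl
    rw [hPN, Finset.mem_filter] at hl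
    exact_mod_cast hl.2.pos
  have hTb : ∀ l ∈ T, (B : ℝ) ≤ l ∧ (l : ℝ) < B + L ∧ (0 : ℝ) < l := by
    intro l hl
    rw [hT, Finset.mem_filter] at hl
    exact ⟨by exact_mod_cast hl.2.1, by exact_mod_cast hl.2.2, hPNpos l hl.1⟩
  set R := ∑ l ∈ T, 1 / (l : ℝ) with hR
  -- upper bound
  have hup : R ≤ (b - Y + 2 * h) * (x + 6 * x ^ 2) := by
    have h1 : R ≤ ∫ v in (Y - h)..(b + h), PP h N v := by
      rw [hPPint, hR]
      have h2 : ∑ l ∈ T, 1 / (l : ℝ) =
          ∑ l ∈ T, 1 / (l : ℝ) * ∫ v in (Y - h)..(b + h), tri h (v - Real.log l) := by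
        refine Finset.sum_congr rfl fun l hl => ?_
        obtain ⟨t1, t2, t3⟩ := hTb l hl
        have t4 : Y ≤ Real.log l := Real.log_le_log hB0 t1
        have t5 : Real.log l ≤ b := Real.log_le_log t3 t2.le
        rw [tri_full' hh0 (by linarith) (by linarith), mul_one]
      rw [h2]
      refine Finset.sum_le_sum_of_subset_of_nonneg (Finset.filter_subset _ _) fun l hl _ => ?_
      apply mul_nonneg (by positivity)
      apply intervalIntegral.integral_nonneg (by linarith)
      intro v _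
      exact tri_nonneg hh0 _
    have h2 := (abs_le.1 (hint (Y - h) (b + h) (by linarith) (by linarith) (by linarith))).2
    have e : b + h - (Y - h) = b - Y + 2 * h := by ring
    rw [e] at h2
    linarith
  have hlow : (b - Y - 2 * h) * (x - 6 * x ^ 2) ≤ R := by
    have h1 : ∫ v in (Y + h)..(b - h), PP h N v ≤ R := by
      rw [hPPint, hR]
      have h2 : ∀ l ∈ PN, 1 / (l : ℝ) * (∫ v in (Y + h)..(b - h), tri h (v - Real.log l)) ≤
          if B ≤ l ∧ l < B + L then 1 / (l : ℝ) else 0 := by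
        intro l hl
        have hl0 := hPNpos l hl
        split_ifs with hc
        · have h3 := integral_tri_shift_le hh0 (Real.log l) (Y + h) (b - h) hab
          calc _ ≤ 1 / (l : ℝ) * 1 := mul_le_mul_of_nonneg_left h3 (by positivity)
            _ = _ := mul_one _
        · have h3 : ∫ v in (Y + h)..(b - h), tri h (v - Real.log l) = 0 := by
            rw [intervalIntegral.integral_of_le hab]
            apply setIntegral_eq_zero_of_forall_eq_zero
            intro v hv
            apply tri_zero_of hh0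
            by_contra hcon
            rw [not_le, abs_lt] at hcon
            apply hc
            constructor
            · have h4 : Y < Real.log l := by linarith [hv.1, hcon.2]
              have h5 := (Real.log_lt_log_iff hB0 hl0).1 h4
              exact_mod_cast h5.le
            · have h4 : Real.log l < b := by linarith [hv.2, hcon.1]
              have h5 := (Real.log_lt_log_iff hl0 (by positivity)).1 h4
              exact_mod_cast h5
          rw [h3, mul_zero]
      refine (Finset.sum_le_sum h2).trans (le_of_eq ?_)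
      rw [← Finset.sum_filter]
    have h2 := (abs_le.1 (hint (Y + h) (b - h) (by linarith) hab (by linarith))).1
    have e : b - h - (Y + h) = b - Y - 2 * h := by ring
    rw [e] at h2
    linarith
  -- the number of primes
  have hcardT : ((Finset.range L).filter (fun j => (B + j).Prime)).card = T.card := by
    have himg : T = ((Finset.range L).filter (fun j => (B + j).Prime)).image (fun j => B + j) := by
      ext l
      rw [Finset.mem_image, hT, Finset.mem_filter, hPN, Finset.mem_filter, Finset.mem_Ioc]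
      constructor
      · rintro ⟨⟨⟨g1, g2⟩, g3⟩, g4, g5⟩
        refine ⟨l - B, ?_, by omega⟩
        rw [Finset.mem_filter, Finset.mem_range]
        have : B + (l - B) = l := by omega
        rw [this]
        exact ⟨by omega, g3⟩
      · rintro ⟨j, hj, rfl⟩
        rw [Finset.mem_filter, Finset.mem_range] at hj
        refine ⟨⟨⟨hj.2.pos, ?_⟩, hj.2⟩, by omega, by omega⟩
        have h1 : ((B + j : ℕ) : ℝ) ≤ N := by
          have h2 : ((B + j : ℕ) : ℝ) ≤ B + L := by
            push_cast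
            have : (j : ℝ) ≤ L := by exact_mod_cast hj.1.le
            linarith
          have h3 : (B : ℝ) + L ≤ Real.exp (Y + 4) := by
            have h4 : (L : ℝ) ≤ B := by
              have : (L : ℝ) * 1 ≤ L * Y := mul_le_mul_of_nonneg_left (by linarith) hL0.le
              linarith
            have h5 : Real.exp (Y + 4) = B * Real.exp 4 := by
              rw [Real.exp_add, hY, Real.exp_log hB0]
            have h6 : (2 : ℝ) ≤ Real.exp 4 := by
              have := Real.add_one_le_exp (4 : ℝ)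
              linarith
            rw [h5]
            nlinarith
          linarith
        exact_mod_cast h1
    rw [himg, Finset.card_image_of_injective _ (add_right_injective B)]
  have hRup : (T.card : ℝ) ≤ (B + L) * R := by
    rw [hR, Finset.mul_sum, Finset.card_eq_sum_ones]
    push_cast
    refine Finset.sum_le_sum fun l hl => ?_
    obtain ⟨t1, t2, t3⟩ := hTb l hl
    rw [mul_one_div, le_div_iff₀ t3, one_mul]
    exact t2.le
  have hRlow : B * R ≤ (T.card : ℝ) := by
    rw [hR, Finset.mul_sum, Finset.card_eq_sum_ones]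
    push_cast
    refine Finset.sum_le_sum fun l hl => ?_
    obtain ⟨t1, t2, t3⟩ := hTb l hl
    rw [mul_one_div, div_le_iff₀ t3, one_mul]
    exact t1
  rw [hcardT]
  have e1 : (L : ℝ) / Y = L * x := by rw [hx]; ring
  have e2 : 20 * ((L : ℝ) / Y ^ 2) = 20 * (L * x ^ 2) := by rw [hx]; field_simp
  rw [e1, e2, abs_le]
  have hx1 : 0 ≤ x - 6 * x ^ 2 := by nlinarith
  constructor
  · -- lower
    have h1 : δ * (1 - x - 2 * x ^ 2) ≤ b - Y - 2 * h := by nlinarith
    have h2 : δ * (1 - x - 2 * x ^ 2) * (x - 6 * x ^ 2) ≤ R :=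
      (mul_le_mul_of_nonneg_right h1 hx1).trans hlow
    have h3 : L * (1 - x - 2 * x ^ 2) * (x - 6 * x ^ 2) ≤ T.card := by
      calc L * (1 - x - 2 * x ^ 2) * (x - 6 * x ^ 2) =
            B * (δ * (1 - x - 2 * x ^ 2) * (x - 6 * x ^ 2)) := by rw [← hδL]; ring
        _ ≤ B * R := mul_le_mul_of_nonneg_left h2 hB0.le
        _ ≤ T.card := hRlow
    have h4 : x - 20 * x ^ 2 ≤ (1 - x - 2 * x ^ 2) * (x - 6 * x ^ 2) := by
      have e : (1 - x - 2 * x ^ 2) * (x - 6 * x ^ 2) = x - 7 * x ^ 2 + 4 * x ^ 3 + 12 * x ^ 4 := by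
        ring
      rw [e]
      have : 0 ≤ x ^ 3 := by positivity
      have : 0 ≤ x ^ 4 := by positivity
      have : 0 ≤ x ^ 2 := by positivity
      linarith
    have h5 := mul_le_mul_of_nonneg_left h4 hL0.le
    linarith
  · have h1 : b - Y + 2 * h ≤ δ * (1 + 2 * x ^ 2) := by nlinarith
    have h2 : R ≤ δ * (1 + 2 * x ^ 2) * (x + 6 * x ^ 2) :=
      hup.trans (mul_le_mul_of_nonneg_right h1 (by positivity))
    have h3 : (T.card : ℝ) ≤ L * ((1 + x) * (1 + 2 * x ^ 2) * (x + 6 * x ^ 2)) := by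
      calc (T.card : ℝ) ≤ (B + L) * R := hRup
        _ ≤ (B + L) * (δ * (1 + 2 * x ^ 2) * (x + 6 * x ^ 2)) :=
            mul_le_mul_of_nonneg_left h2 (by positivity)
        _ = L * ((1 + δ) * (1 + 2 * x ^ 2) * (x + 6 * x ^ 2)) := by rw [← hδL]; ring
        _ ≤ L * ((1 + x) * (1 + 2 * x ^ 2) * (x + 6 * x ^ 2)) := by
            gcongr
    have h4 : (1 + x) * (1 + 2 * x ^ 2) * (x + 6 * x ^ 2) ≤ x + 20 * x ^ 2 := by
      have e : (1 + x) * (1 + 2 * x ^ 2) * (x + 6 * x ^ 2) =
          x + 7 * x ^ 2 + x ^ 2 * (8 * x + 14 * x ^ 2 + 12 * x ^ 3) := by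
        ring
      rw [e]
      have h5 : 8 * x + 14 * x ^ 2 + 12 * x ^ 3 ≤ 13 := by
        have : x ^ 3 ≤ 1 / 256 := by
          calc x ^ 3 = x ^ 2 * x := by ring
            _ ≤ 1 / 256 * 1 := mul_le_mul hx2 (by linarith) hx0.le (by norm_num)
            _ = _ := by norm_num
        linarith
      have h6 := mul_le_mul_of_nonneg_left h5 (show 0 ≤ x ^ 2 by positivity)
      linarith
    have h5 := mul_le_mul_of_nonneg_left h4 hL0.le
    linarith

end Pool.Agent.Y895.SQ
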