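import Pool.Agent.Y895.SQ.S9
import Pool.Agent.Y895.SQ.S6

set_option autoImplicit false

/-!
# The law for primes with about `κ q / log q` prescribed upper digits: conclusion
-/

open Finset Filter Topology MeasureTheory

namespace Pool.Agent.Y895.SQ

open Pool.Agent.Y895.PM (U01)
open Pool.Agent.Y895.OL (gF gM cg gF_meas gF_nonneg gF_le_one bdd_int Row row_of ae_U01 floor_lt_pow)
open Pool.Agent.H305R2 (log_nat_tendsto)
open Pool.Agent.TH888.R (gr)

/-- the law with error term and the dichotomy at one point -/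
structure PtN (s : ℕ → ℕ) (c : ℝ) (S : Set ℕ) : Prop where
  law : Tendsto (VN S) atTop atTop → ∃ B : ℝ, 0 ≤ B ∧ ∀ n : ℕ, 3 ≤ n →
    |(cN S s n : ℝ) - c * VN S n| ≤ B * gr (VN S n * (1 + Real.log (Real.log n)))
  inf : {q : ℕ | q ∈ S ∧ (s q).Prime}.Infinite ↔ Tendsto (VN S) atTop atTop

lemma ev_lin (K : ℝ) : ∀ᶠ q : ℕ in atTop, K ≤ q :=
  tendsto_natCast_atTop_atTop.eventually_ge_atTop K

lemma ev_log (K : ℝ) : ∀ᶠ q : ℕ in atTop, K ≤ Real.log q := log_nat_tendsto.eventually_ge_atTop K

/-- `log q` is small compared with `q / log q` -/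
lemma ev_logsq {ε : ℝ} (hε : 0 < ε) (K : ℝ) : ∀ᶠ q : ℕ in atTop,
    K + Real.log q ≤ ε * (q / Real.log q) := by
  have h1 := (isLittleO_log_rpow_atTop (r := (1 / 2 : ℝ)) (by norm_num)).bound
    (show (0 : ℝ) < √ε / 2 by positivity)
  have h2 : ∀ᶠ x : ℝ in atTop, Real.log x ≤ √ε / 2 * √x := by
    filter_upwards [h1, eventually_ge_atTop 1] with x hx hx1
    rw [Real.norm_of_nonneg (Real.log_nonneg hx1), Real.norm_of_nonneg (by positivity),
      ← Real.sqrt_eq_rpow] at hx
    exact hx
  filter_upwards [tendsto_natCast_atTop_atTop.eventually h2, ev_log (|K| + 1), ev_lin 1]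
    with q g1 g2 g3
  have hq0 : (0 : ℝ) < q := by linarith
  have hl0 : 0 < Real.log q := by
    have := abs_nonneg K
    linarith
  rw [mul_div_assoc', le_div_iff₀ hl0]
  have h4 : Real.log q ^ 2 ≤ ε / 4 * q := by
    calc Real.log q ^ 2 ≤ (√ε / 2 * √q) ^ 2 := pow_le_pow_left₀ hl0.le g1 2
      _ = ε / 4 * q := by
          rw [mul_pow, div_pow, Real.sq_sqrt hε.le, Real.sq_sqrt hq0.le]
          norm_num
  have h5 := le_abs_self K
  have h6 : (K + Real.log q) * Real.log q ≤ 2 * Real.log q ^ 2 := by nlinarith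
  have h7 : 0 ≤ ε * q := by positivity
  linarith

section

variable {b : ℕ}

lemma combine (_hb : 2 ≤ b) (A m : ℕ → ℕ) (S : Set ℕ) {c c1 c2 : ℝ}
    (ho : ∀ᵐ t : ℝ, 0 ≤ t → t < 1 → OrdN (fun p => A p + ⌊(b : ℝ) ^ m p * t⌋₊) c1 c2 S)
    (hl : Tendsto (VN S) atTop atTop → ∀ᵐ t ∂U01, ∃ B : ℝ, 0 ≤ B ∧ ∀ n : ℕ, 3 ≤ n →
      |(cN S ((fun t p => A p + ⌊(b : ℝ) ^ m p * t⌋₊ : ℝ → ℕ → ℕ) t) n : ℝ) - c * VN S n| ≤
        B * gr (VN S n * (1 + Real.log (Real.log n)))) :
    ∀ᵐ t : ℝ, 0 ≤ t → t < 1 → PtN (fun p => A p + ⌊(b : ℝ) ^ m p * t⌋₊) c S := by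
  by_cases hdiv : Tendsto (VN S) atTop atTop
  · have main := hl hdiv
    unfold U01 at main
    rw [ae_restrict_iff' measurableSet_Ico] at main
    filter_upwards [main, ho] with t ht ho h0 h1
    exact ⟨fun _ => ht ⟨h0, h1⟩, (ho h0 h1).inf⟩
  · filter_upwards [ho] with t ho h0 h1
    exact ⟨fun h => absurd h hdiv, (ho h0 h1).inf⟩

/-- **The law for primes.** -/
theorem law_prime : ∀ α : ℝ, 1 < α → ∀ b : ℕ, 2 ≤ b → ∃ κ : ℝ, 0 < κ ∧
    ∀ c C : ℝ, 0 < c → 0 < C → ∀ A m : ℕ → ℕ, (∀ᶠ p in atTop, m p ≤ m (p + 1)) →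
    (∀ᶠ p : ℕ in atTop, c * α ^ p ≤ A p ∧ (A p : ℝ) ≤ C * α ^ p ∧ b ^ m p ≤ A p ∧
      (p : ℝ) * Real.log α - κ * p / Real.log p ≤ m p * Real.log b) →
    ∀ S : Set ℕ, ∀ᵐ t : ℝ, 0 ≤ t → t < 1 →
      PtN (fun p => A p + ⌊(b : ℝ) ^ m p * t⌋₊) (1 / Real.log α) S := by
  intro α hα b hb
  have hbr : (2 : ℝ) ≤ b := by exact_mod_cast hb
  have hb0 : (0 : ℝ) < b := by linarith
  have hα0 : 0 < α := by linarith
  have hlbb : 0 < Real.log b := Real.log_pos (by linarith)
  have hlb : 0 < Real.log α := Real.log_pos hα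
  obtain ⟨δ, hδ0, hδ1, hord⟩ := ord_prime'
  obtain ⟨c1, c2, hc1, hc2, hord⟩ := hord α hα b hb
  obtain ⟨κ0, K0, Y0, hκ0, hK0, hY0, hblk⟩ := prime_block
  obtain ⟨K, hK, hrow⟩ := row_gen (b := b) hb hα
  set κ := κ0 * Real.log α / 12 with hκ
  have hκp : 0 < κ := by positivity
  refine ⟨κ, hκp, fun c C hc hC A m hm hA S => ?_⟩
  obtain ⟨Q1, hrow⟩ := hrow c C hc hC
  set D := |Real.log C| + |Real.log c| + 1 with hD
  have hD1 : 1 ≤ D := by
    have := abs_nonneg (Real.log C)
    have := abs_nonneg (Real.log c)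
    linarith
  set δ' := min δ (1 / 8) with hδ'
  have hδ'0 : 0 < δ' := lt_min hδ0 (by norm_num)
  have hev : ∀ᶠ q : ℕ in atTop, κ / (δ' * Real.log α) ≤ Real.log q ∧
      2 * D + Real.log 2 + |Real.log (2 * Real.log α * b)| + Real.log q ≤ κ * (q / Real.log q) ∧
      (2 * Y0 + 2 * D + 16) / Real.log α ≤ q ∧ 2 * Real.log α + 16 ≤ q := by
    filter_upwards [ev_log (κ / (δ' * Real.log α)),
      ev_logsq hκp (2 * D + Real.log 2 + |Real.log (2 * Real.log α * b)|),
      ev_lin ((2 * Y0 + 2 * D + 16) / Real.log α), ev_lin (2 * Real.log α + 16)] with q a1 a2 a3 a4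
    exact ⟨a1, a2, a3, a4⟩
  obtain ⟨P0, hP0⟩ := (hm.and (hA.and hev)).exists_forall_of_atTop
  have hmono : ∀ p ≥ P0, ∀ q ≥ p, m p ≤ m q := by
    intro p hp q hq
    induction q, hq using Nat.le_induction with
    | base => exact le_rfl
    | succ q hq ih => exact ih.trans (hP0 q (le_trans hp hq)).1
  set P := P0 + 16 with hP
  -- facts on the indices
  have fact : ∀ q ≥ P, (16 : ℝ) ≤ q ∧ 1 ≤ Real.log q ∧
      κ * (q / Real.log q) ≤ q * δ' * Real.log α ∧
      2 * D + Real.log 2 + |Real.log (2 * Real.log α * b)| + Real.log q ≤ κ * (q / Real.log q) ∧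
      2 * Y0 + 2 * D + 16 ≤ q * Real.log α ∧ 2 * Real.log α ≤ q := by
    intro q hq
    obtain ⟨a1, a2, a3, a4⟩ := (hP0 q (by omega)).2.2
    have hq16 : (16 : ℝ) ≤ q := by exact_mod_cast (by omega : 16 ≤ q)
    have hlq : 1 ≤ Real.log q := by
      rw [Real.le_log_iff_exp_le (by linarith)]
      linarith [Real.exp_one_lt_d9]
    refine ⟨hq16, hlq, ?_, a2, ?_, by linarith⟩
    · rw [div_le_iff₀ (by positivity)] at a1
      rw [mul_div_assoc', div_le_iff₀ (by linarith)]
      have := mul_le_mul_of_nonneg_left a1 (show (0 : ℝ) ≤ q by linarith)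
      linarith
    · rw [div_le_iff₀ hlb] at a3
      exact a3
  have hAk : ∀ q ≥ P, (q : ℝ) * Real.log α - κ * (q / Real.log q) ≤ m q * Real.log b := by
    intro q hq
    have := (hP0 q (by omega)).2.1.2.2.2
    have e : κ * (q : ℝ) / Real.log q = κ * (q / Real.log q) := by ring
    rwa [e] at this
  have hδ'8 : δ' ≤ 1 / 8 := min_le_right _ _
  have hδ'δ : δ' ≤ δ := min_le_left _ _
  have hbig8 : ∀ q ≥ P, (q : ℝ) * (7 / 8) * Real.log α ≤ m q * Real.log b := by
    intro q hq
    obtain ⟨f1, f2, f3, f4, f5, f6⟩ := fact q hq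
    have h1 := hAk q hq
    have h2 : (q : ℝ) * δ' * Real.log α ≤ q * (1 / 8) * Real.log α := by gcongr
    linarith
  have hadm : AdmP b α c C A m P := by
    refine ⟨fun p hp q hq => hmono p (by omega) q hq, fun p hp => (hP0 p (by omega)).2.1.1,
      fun p hp => (hP0 p (by omega)).2.1.2.1, fun p hp => (hP0 p (by omega)).2.1.2.2.1,
      fun p hp => ?_⟩
    refine le_trans ?_ (hbig8 p hp)
    apply mul_le_mul_of_nonneg_right _ hlb.le
    apply mul_le_mul_of_nonneg_left _ (Nat.cast_nonneg p)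
    norm_num
  obtain ⟨CG, hCG, hG⟩ := kappa_sum hb hα hκp hC hadm (by omega) (fun p hp => by
    have := hAk p hp
    have e : κ * (p : ℝ) / Real.log p = κ * (p / Real.log p) := by ring
    rw [e]
    exact this)
  have hcor : CorG b m := by
    refine ⟨CG, P, hCG, fun P' hP' q hq => ?_⟩
    refine le_trans ?_ (hG q (by omega))
    refine Finset.sum_le_sum_of_subset_of_nonneg (fun p hp => ?_) fun _ _ _ => by positivity
    rw [mem_filter] at hp ⊢
    exact ⟨hp.1, by omega⟩
  -- the digits for the local mean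
  have hlk1 : ∀ q ≥ P, (lk b κ q : ℝ) * Real.log b ≤ κ * (q / Real.log q) := by
    intro q hq
    obtain ⟨f1, f2, f3, f4, f5, f6⟩ := fact q hq
    have h1 : (lk b κ q : ℝ) ≤ κ * q / Real.log q / Real.log b := Nat.floor_le (by positivity)
    calc (lk b κ q : ℝ) * Real.log b ≤ κ * q / Real.log q / Real.log b * Real.log b :=
          mul_le_mul_of_nonneg_right h1 hlbb.le
      _ = _ := by field_simp
  have hlk2 : ∀ q ≥ P, κ * (q / Real.log q) ≤ ((lk b κ q : ℝ) + 1) * Real.log b := by
    intro q hq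
    obtain ⟨f1, f2, f3, f4, f5, f6⟩ := fact q hq
    have h1 : κ * q / Real.log q / Real.log b < (lk b κ q : ℝ) + 1 := Nat.lt_floor_add_one _
    calc κ * (q / Real.log q) = κ * q / Real.log q / Real.log b * Real.log b := by field_simp
      _ ≤ ((lk b κ q : ℝ) + 1) * Real.log b := mul_le_mul_of_nonneg_right h1.le hlbb.le
  have hlev : ∀ q ≥ P, lk b κ q ≤ m q ∧
      (q : ℝ) * (1 / 4) * Real.log α ≤ ((m q : ℝ) - lk b κ q) * Real.log b := by
    intro q hq
    obtain ⟨f1, f2, f3, f4, f5, f6⟩ := fact q hq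
    have h1 := hlk1 q hq
    have h2 := hbig8 q hq
    have h3 : (q : ℝ) * δ' * Real.log α ≤ q * (1 / 8) * Real.log α := by gcongr
    have h4 : (q : ℝ) * (1 / 4) * Real.log α ≤ ((m q : ℝ) - lk b κ q) * Real.log b := by
      have : 0 ≤ (q : ℝ) * Real.log α := by positivity
      linarith
    refine ⟨?_, h4⟩
    by_contra h
    have h5 : (m q : ℝ) - lk b κ q ≤ 0 := by
      have : (m q : ℝ) ≤ lk b κ q := by exact_mod_cast (by omega : m q ≤ lk b κ q)
      linarith
    have h6 := mul_nonpos_of_nonpos_of_nonneg h5 hlbb.le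
    have h7 : 0 < (q : ℝ) * (1 / 4) * Real.log α := by positivity
    linarith
  -- near weights
  set κ2 := κ / (2 * Real.log α) with hκ2
  have hκ2p : 0 < κ2 := by positivity
  have hnear : ∀ q ≥ P, ∀ T : Finset ℕ, (∀ p ∈ T, P ≤ p ∧ p < q ∧ lk b κ q < m p) →
      ∑ p ∈ T, wn p ≤ (1 + |Real.log κ2|) * lm q := by
    intro q hq T hT
    obtain ⟨f1, f2, f3, f4, f5, f6⟩ := fact q hq
    have hx0 : 0 < (q : ℝ) / Real.log q := by positivity
    set a := max 1 ⌈κ2 * (q / Real.log q)⌉₊ with ha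
    have ha1 : 1 ≤ a := le_max_left _ _
    have ha2 : κ2 * (q / Real.log q) ≤ a := by
      refine (Nat.le_ceil _).trans ?_
      exact_mod_cast le_max_right _ _
    have hpa : ∀ p ∈ T, a ≤ p := by
      intro p hp
      obtain ⟨g1, g2, g3⟩ := hT p hp
      have h1 := hadm.m_up hb hα hC g1
      have h2 := hlk2 q hq
      have h3 : ((lk b κ q : ℝ) + 1) ≤ m p := by exact_mod_cast g3
      have h4 := mul_le_mul_of_nonneg_right h3 hlbb.le
      have h5 : κ * (q / Real.log q) ≤ p * Real.log α + |Real.log C| := by linarith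
      have h6 : |Real.log C| ≤ D := by
        have := abs_nonneg (Real.log c)
        linarith
      have h7 : 0 ≤ |Real.log (2 * Real.log α * b)| := abs_nonneg _
      have h8 : 0 ≤ Real.log 2 := Real.log_nonneg (by norm_num)
      have h9 : κ2 * (q / Real.log q) ≤ p := by
        rw [hκ2, div_mul_eq_mul_div, div_le_iff₀ (by positivity)]
        linarith
      apply max_le (by omega)
      exact Nat.ceil_le.2 h9
    rcases T.eq_empty_or_nonempty with hT0 | ⟨p0, hp0⟩
    · rw [hT0, Finset.sum_empty]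
      have h1 := one_le_lm q
      have h2 := abs_nonneg (Real.log κ2)
      exact mul_nonneg (by linarith) (by linarith)
    · have haq : a < q := lt_of_le_of_lt (hpa p0 hp0) (hT p0 hp0).2.1
      have h1 : ∑ p ∈ T, wn p ≤ ∑ p ∈ Ico a q, 1 / (p : ℝ) := by
        refine Finset.sum_le_sum_of_subset_of_nonneg (fun p hp => ?_) fun p _ _ => wn_nonneg p
        rw [mem_Ico]
        exact ⟨hpa p hp, (hT p hp).2.1⟩
      have h2 := recip_le ha1 haq
      have ha0 : (0 : ℝ) < a := by exact_mod_cast ha1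
      have h3 : Real.log (((q : ℝ) - 1) / a) ≤ Real.log (Real.log q) + |Real.log κ2| := by
        have h4 : ((q : ℝ) - 1) / a ≤ Real.log q / κ2 := by
          rw [div_le_div_iff₀ ha0 hκ2p]
          have h5 : κ2 * q ≤ Real.log q * a := by
            have h6 := mul_le_mul_of_nonneg_left ha2 (show 0 ≤ Real.log q by linarith)
            have e : Real.log q * (κ2 * (q / Real.log q)) = κ2 * q := by field_simp
            rwa [e] at h6
          have h7 : ((q : ℝ) - 1) * κ2 = κ2 * q - κ2 := by ring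
          linarith
        have h5 : 0 < ((q : ℝ) - 1) / a := div_pos (by linarith) ha0
        have h6 := Real.log_le_log h5 h4
        rw [Real.log_div (by linarith) hκ2p.ne'] at h6
        have := neg_abs_le (Real.log κ2)
        linarith
      have h4 : Real.log (Real.log q) ≤ max 0 (Real.log (Real.log (q : ℝ))) := le_max_right _ _
      have h5 := one_le_lm q
      have h6 : |Real.log κ2| * 1 ≤ |Real.log κ2| * lm q :=
        mul_le_mul_of_nonneg_left h5 (abs_nonneg _)
      have h7 : lm q = 1 + max 0 (Real.log (Real.log (q : ℝ))) := rfl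
      linarith
  obtain ⟨hR, -, -⟩ := hrow A m (lk b κ) P hadm hlev CG hCG hG lm one_le_lm
    ⟨1, zero_le_one, wn_lm_le⟩ (1 + |Real.log κ2|) (by positivity) hnear
  -- the local means
  have hmeans : ∀ᵐ t ∂U01, ∀ q ≥ P + Q1, |gM gp b A m (lk b κ) q t - 1 / Real.log α * wn q| ≤
      (4 * K0 + 2 * D) / Real.log α ^ 2 * (1 / (q : ℝ) ^ 2) := by
    refine ae_U01 fun t ht0 ht1 q hq' => ?_
    have hq : q ≥ P := by omega
    obtain ⟨f1, f2, f3, f4, f5, f6⟩ := fact q hq
    obtain ⟨hlm, -⟩ := hlev q hq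
    have hq0 : (0 : ℝ) < q := by linarith
    set h := m q - lk b κ q with hh
    set k := ⌊(b : ℝ) ^ lk b κ q * t⌋₊ with hk
    have hkl : k < b ^ lk b κ q := floor_lt_pow hb _ ht1
    have hdig := hadm.dig q hq
    have hpow : b ^ h * b ^ lk b κ q = b ^ m q := by rw [← pow_add, hh, Nat.sub_add_cancel hlm]
    have h4 : b ^ h * k + b ^ h ≤ b ^ m q := by
      calc b ^ h * k + b ^ h = b ^ h * (k + 1) := by ring
        _ ≤ b ^ h * b ^ lk b κ q := Nat.mul_le_mul_left _ hkl
        _ = b ^ m q := hpow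
    have hbh : 0 < b ^ h := by positivity
    set B := A q + b ^ h * k with hB
    have hB1 : 1 ≤ B := by omega
    have hBA : A q ≤ B := by omega
    have hB2 : B ≤ 2 * A q := by omega
    have hB0 : (0 : ℝ) < B := by exact_mod_cast hB1
    obtain ⟨Aq0, Aq1⟩ := hadm.logA hb hα hC hq
    have hAlo : (q : ℝ) * Real.log α - |Real.log c| ≤ Real.log (A q) := by
      have h1 := Real.log_le_log (by positivity) (hadm.lo q hq)
      rw [Real.log_mul hc.ne' (by positivity), Real.log_pow] at h1
      have := neg_abs_le (Real.log c)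
      linarith
    set Y := Real.log B with hY
    have hYup : Y ≤ q * Real.log α + D := by
      have h1 : (B : ℝ) ≤ 2 * A q := by exact_mod_cast hB2
      have h2 := Real.log_le_log hB0 h1
      rw [Real.log_mul (by norm_num) Aq0.ne'] at h2
      have h3 := Real.log_two_lt_d9
      have := abs_nonneg (Real.log c)
      linarith
    have hYlo : q * Real.log α - D ≤ Y := by
      have h1 : (A q : ℝ) ≤ B := by exact_mod_cast hBA
      have h2 := Real.log_le_log Aq0 h1
      have := abs_nonneg (Real.log C)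
      linarith
    have hYhalf : q * Real.log α / 2 ≤ Y := by linarith
    have hYpos : 0 < Y := by
      have : 0 < (q : ℝ) * Real.log α := by positivity
      linarith
    have hY2 : Y ≤ 2 * q * Real.log α := by linarith
    have hlY : Real.log Y ≤ 2 * Real.log q := by
      have h1 : Y ≤ (q : ℝ) ^ 2 := by
        calc Y ≤ 2 * q * Real.log α := hY2
          _ = q * (2 * Real.log α) := by ring
          _ ≤ q * q := mul_le_mul_of_nonneg_left f6 hq0.le
          _ = (q : ℝ) ^ 2 := (sq _).symm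
      have h2 := Real.log_le_log hYpos h1
      rw [Real.log_pow] at h2
      exact_mod_cast h2
    have hY16 : 16 ≤ Y := by linarith
    have hlYpos : 0 < Real.log Y := Real.log_pos (by linarith)
    have hx0 : 0 < (q : ℝ) / Real.log q := by positivity
    have hκY : 3 * (κ * (q / Real.log q)) ≤ κ0 * Y / Real.log Y := by
      rw [le_div_iff₀ hlYpos]
      have e : 3 * (κ * (q / Real.log q)) * (2 * Real.log q) = κ0 * (q * Real.log α / 2) := by
        rw [hκ]
        field_simp
        ring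
      calc 3 * (κ * (q / Real.log q)) * Real.log Y ≤
            3 * (κ * (q / Real.log q)) * (2 * Real.log q) :=
            mul_le_mul_of_nonneg_left hlY (by positivity)
        _ = κ0 * (q * Real.log α / 2) := e
        _ ≤ κ0 * Y := mul_le_mul_of_nonneg_left hYhalf hκ0.le
    have hbhR : (0 : ℝ) < (b : ℝ) ^ h := by positivity
    -- the block is short
    have c2 : ((b ^ h : ℕ) : ℝ) * Y ≤ B := by
      have h1 : Y ≤ (b : ℝ) ^ lk b κ q := by
        have h2 := hlk2 q hq
        have h3 : Real.log (2 * q * Real.log α) ≤ (lk b κ q : ℝ) * Real.log b := by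
          have e : Real.log (2 * q * Real.log α) = Real.log (2 * Real.log α * b) + Real.log q -
              Real.log b := by
            rw [Real.log_mul (by positivity) (by positivity),
              Real.log_mul (by norm_num) (by positivity),
              Real.log_mul (by positivity) (by positivity),
              Real.log_mul (by norm_num) (by positivity)]
            ring
          have h5 := le_abs_self (Real.log (2 * Real.log α * b))
          have h6 : 0 ≤ Real.log 2 := Real.log_nonneg (by norm_num)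
          rw [e]
          linarith
        have h4 := Real.exp_le_exp.2 h3
        rw [Real.exp_log (by positivity), mul_comm (lk b κ q : ℝ), Real.exp_mul,
          Real.exp_log hb0, Real.rpow_natCast] at h4
        linarith
      have h2 : ((b ^ h : ℕ) : ℝ) * (b : ℝ) ^ lk b κ q ≤ B := by
        have : b ^ h * b ^ lk b κ q ≤ B := by rw [hpow]; omega
        exact_mod_cast this
      calc ((b ^ h : ℕ) : ℝ) * Y ≤ ((b ^ h : ℕ) : ℝ) * (b : ℝ) ^ lk b κ q :=
            mul_le_mul_of_nonneg_left h1 (Nat.cast_nonneg _)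
        _ ≤ B := h2
    -- the block is long
    have c3 : Real.exp (-(κ0 * Real.log B / Real.log (Real.log B))) * B ≤ ((b ^ h : ℕ) : ℝ) := by
      have h1 : Real.log ((b : ℝ) ^ h) = ((m q : ℝ) - lk b κ q) * Real.log b := by
        rw [Real.log_pow, hh, Nat.cast_sub hlm]
      have h2 : Y - κ0 * Y / Real.log Y ≤ Real.log ((b : ℝ) ^ h) := by
        rw [h1]
        have h3 := hAk q hq
        have h4 := hlk1 q hq
        have h5 : 0 ≤ Real.log 2 := Real.log_nonneg (by norm_num)
        have h6 := abs_nonneg (Real.log (2 * Real.log α * b))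
        have h7 : D ≤ κ * (q / Real.log q) := by linarith
        linarith
      have h3 := Real.exp_le_exp.2 h2
      rw [Real.exp_log hbhR, sub_eq_neg_add, Real.exp_add, hY, Real.exp_log hB0] at h3
      push_cast
      exact h3
    have key := hblk B (b ^ h) hB1 (by linarith) c2 c3
    have e : gM gp b A m (lk b κ) q t = ((b : ℝ) ^ h)⁻¹ * cg (gp q) B (b ^ h) := rfl
    rw [e, cg_gp]
    push_cast at key
    set N := (((range (b ^ h)).filter (fun j => (B + j).Prime)).card : ℝ) with hN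
    have k1 : |((b : ℝ) ^ h)⁻¹ * N - 1 / Y| ≤ K0 / Y ^ 2 := by
      have e1 : ((b : ℝ) ^ h)⁻¹ * N - 1 / Y = ((b : ℝ) ^ h)⁻¹ * (N - (b : ℝ) ^ h / Y) := by
        field_simp
      rw [e1, abs_mul, abs_of_pos (inv_pos.2 hbhR), inv_mul_le_iff₀ hbhR]
      refine key.trans (le_of_eq ?_)
      rw [← hY]
      ring
    have k2 : K0 / Y ^ 2 ≤ 4 * K0 / Real.log α ^ 2 * (1 / (q : ℝ) ^ 2) := by
      have h1 : (q * Real.log α / 2) ^ 2 ≤ Y ^ 2 := pow_le_pow_left₀ (by positivity) hYhalf 2
      calc K0 / Y ^ 2 ≤ K0 / (q * Real.log α / 2) ^ 2 :=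
            div_le_div_of_nonneg_left hK0.le (by positivity) h1
        _ = _ := by field_simp; ring
    have k3 : |1 / Y - 1 / Real.log α * wn q| ≤ 2 * D / Real.log α ^ 2 * (1 / (q : ℝ) ^ 2) := by
      have e1 : 1 / Y - 1 / Real.log α * wn q = (q * Real.log α - Y) / (Y * (q * Real.log α)) := by
        unfold wn
        field_simp
      rw [e1, abs_div, abs_of_pos (by positivity : 0 < Y * (q * Real.log α)),
        div_le_iff₀ (by positivity)]
      have h1 : |q * Real.log α - Y| ≤ D := by rw [abs_le]; constructor <;> linarith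
      refine h1.trans ?_
      calc D = 2 * D / Real.log α ^ 2 * (1 / (q : ℝ) ^ 2) *
            ((q * Real.log α / 2) * (q * Real.log α)) := by field_simp
        _ ≤ 2 * D / Real.log α ^ 2 * (1 / (q : ℝ) ^ 2) * (Y * (q * Real.log α)) := by
            apply mul_le_mul_of_nonneg_left _ (by positivity)
            exact mul_le_mul_of_nonneg_right hYhalf (by positivity)
    have e2 : ((b : ℝ) ^ h)⁻¹ * N - 1 / Real.log α * wn q =
        (((b : ℝ) ^ h)⁻¹ * N - 1 / Y) + (1 / Y - 1 / Real.log α * wn q) := by ring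
    rw [e2]
    refine (abs_add_le _ _).trans ?_
    have e3 : (4 * K0 + 2 * D) / Real.log α ^ 2 * (1 / (q : ℝ) ^ 2) =
        4 * K0 / Real.log α ^ 2 * (1 / (q : ℝ) ^ 2) + 2 * D / Real.log α ^ 2 * (1 / (q : ℝ) ^ 2) := by
      ring
    rw [e3]
    linarith
  have hordS := hord c C hc hC A m hm hcor (by
    filter_upwards [hA, eventually_ge_atTop P] with p hp hpP
    obtain ⟨f1, f2, f3, f4, f5, f6⟩ := fact p hpP
    refine ⟨hp.1, hp.2.1, hp.2.2.1, ?_⟩
    have h1 := hAk p hpP
    have h2 : (p : ℝ) * δ' * Real.log α ≤ p * δ * Real.log α := by gcongr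
    linarith) S
  exact combine hb A m S (c := 1 / Real.log α) hordS fun hdiv =>
    law_of_row (I := Set.univ) (fun q => Set.mem_univ q) (by omega : 1 ≤ P + Q1)
      (c := 1 / Real.log α) (K' := (4 * K0 + 2 * D) / Real.log α ^ 2) (by positivity)
      (by positivity) hR hmeans (s := fun t p => A p + ⌊(b : ℝ) ^ m p * t⌋₊) (fun t q => rfl) S hdiv

end

end Pool.Agent.Y895.SQ
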