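import Pool.Agent.Y895.SQ.S1

set_option autoImplicit false

/-!
# The mean value of the local factors
-/

open Finset Filter Topology

namespace Pool.Agent.Y895.SQ

lemma sum_sq_le (T : Finset ℕ) (hT : ∀ r ∈ T, r.Prime) : ∑ r ∈ T, ((r : ℝ)⁻¹) ^ 2 ≤ 2 := by
  have hsub : T ⊆ Ioo 0 (T.sup id + 1) := by
    intro r hr
    rw [mem_Ioo]
    exact ⟨(hT r hr).pos, Nat.lt_succ_of_le (Finset.le_sup (f := id) hr)⟩
  have h1 : ∑ r ∈ T, ((r : ℝ)⁻¹) ^ 2 ≤ ∑ r ∈ Ioo 0 (T.sup id + 1), ((r : ℝ) ^ 2)⁻¹ := by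
    refine (Finset.sum_le_sum_of_subset_of_nonneg hsub fun _ _ _ => by positivity).trans ?_
    refine Finset.sum_le_sum fun r _ => ?_
    rw [inv_pow]
  have h2 := sum_Ioo_inv_sq_le (α := ℝ) 0 (T.sup id + 1)
  have h3 : (2 : ℝ) / ((0 : ℕ) + 1) = 2 := by norm_num
  rw [h3] at h2
  exact h1.trans h2

lemma prod_one_add_le (T : Finset ℕ) (f : ℕ → ℝ) (h0 : ∀ r ∈ T, 0 ≤ f r) :
    ∏ r ∈ T, (1 + f r) ≤ Real.exp (∑ r ∈ T, f r) := by
  rw [Real.exp_sum]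
  refine Finset.prod_le_prod (fun r hr => by linarith [h0 r hr]) fun r _ => ?_
  have := Real.add_one_le_exp (f r)
  linarith

lemma card_big {D : ℤ} (hD : D ≠ 0) {T : Finset ℕ} (hT : ∀ r ∈ T, r.Prime ∧ (r : ℤ) ∣ D) {Y : ℝ}
    (hY : Real.log |(D : ℝ)| ≤ Y) : (T.card : ℝ) ≤ 2 * Y := by
  have hdvd : ∏ r ∈ T, r ∣ D.natAbs := by
    apply Finset.prod_primes_dvd
    · intro r hr
      exact (hT r hr).1.prime
    · intro r hr
      exact Int.natCast_dvd.1 (hT r hr).2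
  have hDn : D.natAbs ≠ 0 := Int.natAbs_ne_zero.2 hD
  have h1 : 2 ^ T.card ≤ D.natAbs := by
    calc 2 ^ T.card = ∏ r ∈ T, 2 := by rw [Finset.prod_const]
      _ ≤ ∏ r ∈ T, r := Finset.prod_le_prod (fun _ _ => by norm_num) fun r hr => (hT r hr).1.two_le
      _ ≤ D.natAbs := Nat.le_of_dvd (Nat.pos_of_ne_zero hDn) hdvd
  have h2 : (2 : ℝ) ^ T.card ≤ |(D : ℝ)| := by
    have h3 : ((D.natAbs : ℕ) : ℝ) = |(D : ℝ)| := by
      rw [← Int.cast_natCast, Int.natCast_natAbs]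
      push_cast
      rfl
    rw [← h3]
    exact_mod_cast h1
  have h3 := Real.log_le_log (by positivity) h2
  rw [Real.log_pow] at h3
  have h4 := Real.log_two_gt_d9
  have h5 : (0 : ℝ) ≤ T.card := Nat.cast_nonneg _
  nlinarith

lemma G_le {D : ℤ} (hD : D ≠ 0) (y : ℕ) {Y : ℕ} (hY1 : 1 ≤ Y) (hY : Real.log |(D : ℝ)| ≤ Y) :
    G D y ≤ Real.exp 6 * ∏ r ∈ (Pr Y).filter (fun r : ℕ => (r : ℤ) ∣ D), (1 + (r : ℝ)⁻¹) := by
  classical
  set T := (Pr y).filter (fun r : ℕ => (r : ℤ) ∣ D) with hT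
  have hTm : ∀ r ∈ T, r.Prime ∧ (r : ℤ) ∣ D := fun r hr => by
    rw [hT, mem_filter, mem_Pr] at hr
    exact ⟨hr.1.1, hr.2⟩
  have h1 : G D y ≤ ∏ r ∈ T, ((1 + (r : ℝ)⁻¹) * (1 + 2 * ((r : ℝ)⁻¹) ^ 2)) := by
    unfold G
    refine Finset.prod_le_prod (fun r hr => (inv_pos.2 (fac_pos (hTm r hr).1).1).le) fun r hr => ?_
    obtain ⟨a1, a2⟩ := fac_pos (hTm r hr).1
    obtain ⟨a3, a4⟩ := half_le (hTm r hr).1
    rw [inv_le_comm₀ a1 (by positivity), inv_le_iff_one_le_mul₀ (by positivity)]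
    set x := (r : ℝ)⁻¹
    have e : (1 - x) * ((1 + x) * (1 + 2 * x ^ 2)) = 1 + x ^ 2 - 2 * x ^ 4 := by ring
    rw [e]
    have : x ^ 2 ≤ 1 / 4 := by nlinarith
    nlinarith [sq_nonneg x]
  have h2 : ∏ r ∈ T, (1 + 2 * ((r : ℝ)⁻¹) ^ 2) ≤ Real.exp 4 := by
    refine (prod_one_add_le T _ fun r _ => by positivity).trans (Real.exp_le_exp.2 ?_)
    rw [← Finset.mul_sum]
    linarith [sum_sq_le T fun r hr => (hTm r hr).1]
  have h3 : ∏ r ∈ T, (1 + (r : ℝ)⁻¹) ≤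
      (∏ r ∈ (Pr Y).filter (fun r : ℕ => (r : ℤ) ∣ D), (1 + (r : ℝ)⁻¹)) * Real.exp 2 := by
    rw [← Finset.prod_filter_mul_prod_filter_not T (fun r => r ≤ Y)]
    have hone : ∀ r : ℕ, 1 ≤ 1 + (r : ℝ)⁻¹ := fun r => by
      have : 0 ≤ (r : ℝ)⁻¹ := by positivity
      linarith
    have g1 : ∏ r ∈ T.filter (fun r => r ≤ Y), (1 + (r : ℝ)⁻¹) ≤
        ∏ r ∈ (Pr Y).filter (fun r : ℕ => (r : ℤ) ∣ D), (1 + (r : ℝ)⁻¹) := by
      refine prod_sub_le (fun r hr => ?_) fun r _ => hone r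
      rw [mem_filter] at hr
      obtain ⟨hr1, hr2⟩ := hr
      rw [mem_filter, mem_Pr]
      exact ⟨⟨(hTm r hr1).1, hr2⟩, (hTm r hr1).2⟩
    have g2 : ∏ r ∈ T.filter (fun r => ¬ r ≤ Y), (1 + (r : ℝ)⁻¹) ≤ Real.exp 2 := by
      refine (prod_one_add_le _ _ fun r _ => by positivity).trans (Real.exp_le_exp.2 ?_)
      have g3 : ∀ r ∈ T.filter (fun r => ¬ r ≤ Y), (r : ℝ)⁻¹ ≤ (Y : ℝ)⁻¹ := by
        intro r hr
        rw [mem_filter] at hr
        have hY0 : (0 : ℝ) < Y := by exact_mod_cast hY1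
        exact inv_anti₀ hY0 (by exact_mod_cast (by omega : Y ≤ r))
      refine (Finset.sum_le_sum g3).trans ?_
      rw [Finset.sum_const, nsmul_eq_mul]
      have g4 := card_big hD (T := T.filter (fun r => ¬ r ≤ Y))
        (fun r hr => hTm r (mem_filter.1 hr).1) hY
      have hY0 : (0 : ℝ) < Y := by exact_mod_cast hY1
      rw [← div_eq_mul_inv, div_le_iff₀ hY0]
      exact g4
    exact mul_le_mul g1 g2 (Finset.prod_nonneg fun r _ => by linarith [hone r])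
      (Finset.prod_nonneg fun r _ => by linarith [hone r])
  rw [Finset.prod_mul_distrib] at h1
  have h0 : 0 ≤ ∏ r ∈ (Pr Y).filter (fun r : ℕ => (r : ℤ) ∣ D), (1 + (r : ℝ)⁻¹) :=
    Finset.prod_nonneg fun r _ => by positivity
  calc G D y ≤ (∏ r ∈ T, (1 + (r : ℝ)⁻¹)) * ∏ r ∈ T, (1 + 2 * ((r : ℝ)⁻¹) ^ 2) := h1
    _ ≤ ((∏ r ∈ (Pr Y).filter (fun r : ℕ => (r : ℤ) ∣ D), (1 + (r : ℝ)⁻¹)) * Real.exp 2) *
        Real.exp 4 := by
        apply mul_le_mul h3 h2 (Finset.prod_nonneg fun r _ => by positivity) (by positivity)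
    _ = _ := by
        rw [mul_assoc, ← Real.exp_add]
        norm_num
        ring

lemma card_dvd (D0 : ℤ) {d : ℕ} (hd : 0 < d) (H : ℕ) :
    (((range H).filter (fun s : ℕ => (d : ℤ) ∣ D0 + s)).card : ℝ) ≤ (H : ℝ) / d + 1 := by
  have h1 : ((range H).filter (fun s : ℕ => (d : ℤ) ∣ D0 + s)).card ≤ H / d + 1 := by
    rw [← Finset.card_range (H / d + 1)]
    refine Finset.card_le_card_of_injOn (fun s => s / d) ?_ ?_
    · intro s hs
      rw [Finset.mem_coe, mem_filter, mem_range] at hs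
      rw [Finset.mem_coe, mem_range]
      have : s / d ≤ H / d := Nat.div_le_div_right hs.1.le
      show s / d < H / d + 1
      omega
    · intro s hs s' hs' h
      rw [Finset.mem_coe, mem_filter, mem_range] at hs hs'
      have h2 : (d : ℤ) ∣ (s : ℤ) - s' := by
        have := dvd_sub hs.2 hs'.2
        have e : D0 + (s : ℤ) - (D0 + s') = s - s' := by ring
        rwa [e] at this
      have h3 : s ≡ s' [MOD d] := by
        have := (Int.modEq_iff_dvd (a := (s' : ℤ)) (b := (s : ℤ)) (n := (d : ℤ))).2 h2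
        exact (Int.natCast_modEq_iff.1 this).symm
      have h4 := Nat.div_add_mod s d
      have h5 := Nat.div_add_mod s' d
      have h6 : s % d = s' % d := h3
      simp only at h
      rw [← h4, ← h5, h6, h]
  have h2 : ((H / d : ℕ) : ℝ) ≤ (H : ℝ) / d := Nat.cast_div_le
  have h3 : (((range H).filter (fun s : ℕ => (d : ℤ) ∣ D0 + s)).card : ℝ) ≤ ((H / d : ℕ) : ℝ) + 1 := by
    exact_mod_cast h1
  linarith

lemma prod_dvd_of {T : Finset ℕ} (hT : ∀ r ∈ T, r.Prime) {D : ℤ} (h : ∀ r ∈ T, (r : ℤ) ∣ D) :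
    ((∏ r ∈ T, r : ℕ) : ℤ) ∣ D := by
  rw [Int.natCast_dvd]
  apply Finset.prod_primes_dvd
  · intro r hr
    exact (hT r hr).prime
  · intro r hr
    exact Int.natCast_dvd.1 (h r hr)

lemma avg_prod (D0 : ℤ) (Y H : ℕ) :
    ∑ s ∈ range H, ∏ r ∈ (Pr Y).filter (fun r : ℕ => (r : ℤ) ∣ D0 + s), (1 + (r : ℝ)⁻¹) ≤
      Real.exp 2 * H + ∏ r ∈ Pr Y, (1 + (r : ℝ)⁻¹) := by
  classical
  have h1 : ∀ s ∈ range H,
      ∏ r ∈ (Pr Y).filter (fun r : ℕ => (r : ℤ) ∣ D0 + s), (1 + (r : ℝ)⁻¹) =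
      ∑ T ∈ (Pr Y).powerset, (∏ r ∈ T, (r : ℝ)⁻¹) *
        (if ∀ r ∈ T, (r : ℤ) ∣ D0 + s then (1 : ℝ) else 0) := by
    intro s _
    rw [Finset.prod_one_add]
    simp only [mul_ite, mul_one, mul_zero]
    rw [← Finset.sum_filter]
    refine Finset.sum_congr ?_ fun _ _ => rfl
    ext T
    rw [mem_powerset, mem_filter, mem_powerset]
    constructor
    · intro h
      exact ⟨fun r hr => (mem_filter.1 (h hr)).1, fun r hr => (mem_filter.1 (h hr)).2⟩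
    · rintro ⟨h2, h3⟩ r hr
      exact mem_filter.2 ⟨h2 hr, h3 r hr⟩
  rw [Finset.sum_congr rfl h1, Finset.sum_comm]
  have h2 : ∀ T ∈ (Pr Y).powerset, ∑ s ∈ range H, (∏ r ∈ T, (r : ℝ)⁻¹) *
      (if ∀ r ∈ T, (r : ℤ) ∣ D0 + s then (1 : ℝ) else 0) ≤
      H * ∏ r ∈ T, ((r : ℝ)⁻¹) ^ 2 + ∏ r ∈ T, (r : ℝ)⁻¹ := by
    intro T hT
    rw [mem_powerset] at hT
    have hTp : ∀ r ∈ T, r.Prime := fun r hr => (mem_Pr.1 (hT hr)).1
    rw [← Finset.mul_sum, Finset.sum_boole]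
    have hpos : 0 < ∏ r ∈ T, r := Finset.prod_pos fun r hr => (hTp r hr).pos
    have h3 : (((range H).filter (fun s : ℕ => ∀ r ∈ T, (r : ℤ) ∣ D0 + s)).card : ℝ) ≤
        (H : ℝ) / ((∏ r ∈ T, r : ℕ) : ℝ) + 1 := by
      refine le_trans ?_ (card_dvd D0 hpos H)
      have : ((range H).filter (fun s : ℕ => ∀ r ∈ T, (r : ℤ) ∣ D0 + s)).card ≤
          ((range H).filter (fun s : ℕ => ((∏ r ∈ T, r : ℕ) : ℤ) ∣ D0 + s)).card := by
        apply card_le_card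
        intro s hs
        rw [mem_filter] at hs ⊢
        exact ⟨hs.1, prod_dvd_of hTp hs.2⟩
      exact_mod_cast this
    have hnn : 0 ≤ ∏ r ∈ T, (r : ℝ)⁻¹ := Finset.prod_nonneg fun r _ => by positivity
    have h4 := mul_le_mul_of_nonneg_left h3 hnn
    refine h4.trans (le_of_eq ?_)
    have e1 : ((∏ r ∈ T, r : ℕ) : ℝ)⁻¹ = ∏ r ∈ T, (r : ℝ)⁻¹ := by
      push_cast
      rw [Finset.prod_inv_distrib]
    rw [mul_add, mul_one, div_eq_mul_inv, e1, Finset.prod_pow]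
    ring
  refine (Finset.sum_le_sum h2).trans ?_
  rw [Finset.sum_add_distrib, ← Finset.mul_sum, ← Finset.prod_one_add, ← Finset.prod_one_add]
  have h3 : ∏ r ∈ Pr Y, (1 + ((r : ℝ)⁻¹) ^ 2) ≤ Real.exp 2 := by
    refine (prod_one_add_le _ _ fun r _ => by positivity).trans (Real.exp_le_exp.2 ?_)
    exact sum_sq_le _ fun r hr => (mem_Pr.1 hr).1
  have h4 := mul_le_mul_of_nonneg_left h3 (Nat.cast_nonneg (α := ℝ) H)
  linarith

/-- **The mean value of the local factors.** -/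
theorem avg_G : ∃ C : ℝ, 0 < C ∧ ∀ (D0 : ℤ) (y Y H : ℕ), 2 ≤ Y →
    (∀ s < H, D0 + s ≠ 0 → Real.log |((D0 + s : ℤ) : ℝ)| ≤ Y) →
    ∑ s ∈ (range H).filter (fun s : ℕ => D0 + s ≠ 0), G (D0 + s) y ≤ C * (H + Real.log Y) := by
  obtain ⟨CE, hCE, hE⟩ := E_bounds
  refine ⟨Real.exp 6 * (Real.exp 2 + CE), by positivity, fun D0 y Y H hY hlog => ?_⟩
  have h1 : ∑ s ∈ (range H).filter (fun s : ℕ => D0 + s ≠ 0), G (D0 + s) y ≤
      ∑ s ∈ range H, Real.exp 6 *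
        ∏ r ∈ (Pr Y).filter (fun r : ℕ => (r : ℤ) ∣ D0 + s), (1 + (r : ℝ)⁻¹) := by
    refine le_trans (Finset.sum_le_sum (g := fun s : ℕ => Real.exp 6 *
        ∏ r ∈ (Pr Y).filter (fun r : ℕ => (r : ℤ) ∣ D0 + s), (1 + (r : ℝ)⁻¹)) fun s hs => ?_) ?_
    · rw [mem_filter, mem_range] at hs
      exact G_le hs.2 y (by omega) (hlog s hs.1 hs.2)
    · refine Finset.sum_le_sum_of_subset_of_nonneg (filter_subset _ _) fun s _ _ => ?_
      exact mul_nonneg (Real.exp_pos _).le (Finset.prod_nonneg fun r _ => by positivity)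
  refine h1.trans ?_
  rw [← Finset.mul_sum, mul_assoc]
  apply mul_le_mul_of_nonneg_left _ (Real.exp_pos _).le
  refine (avg_prod D0 Y H).trans ?_
  have h2 : ∏ r ∈ Pr Y, (1 + (r : ℝ)⁻¹) ≤ E Y := by
    unfold E
    refine Finset.prod_le_prod (fun r _ => by positivity) fun r hr => ?_
    obtain ⟨a1, a2⟩ := fac_pos (mem_Pr.1 hr).1
    obtain ⟨a3, a4⟩ := half_le (mem_Pr.1 hr).1
    rw [← one_div (1 - (r : ℝ)⁻¹), le_div_iff₀ a1]
    nlinarith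
  have h3 := (hE Y hY).2
  have hl : 0 ≤ Real.log Y := Real.log_nonneg (by exact_mod_cast (by omega : 1 ≤ Y))
  have hH : (0 : ℝ) ≤ H := Nat.cast_nonneg H
  have h4 : 0 < Real.exp 2 := Real.exp_pos _
  nlinarith

end Pool.Agent.Y895.SQ
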