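import Pool.Agent.Y895.SQ.S2

set_option autoImplicit false

/-!
# Counting primes and pairs of primes over blocks of digits
-/

open Finset Filter Topology

namespace Pool.Agent.Y895.SQ

lemma sq_le_sqrt {b : ℕ} (hb : 2 ≤ b) (k : ℕ) : (k : ℝ) ^ 2 ≤ 17 * √((b ^ k : ℕ) : ℝ) := by
  have hbr : (2 : ℝ) ≤ b := by exact_mod_cast hb
  have h1 : Real.exp (k * Real.log 2 / 2) ≤ √((b ^ k : ℕ) : ℝ) := by
    apply Real.le_sqrt_of_sq_le
    rw [← Real.exp_nat_mul]
    have e : ((2 : ℕ) : ℝ) * (k * Real.log 2 / 2) = k * Real.log 2 := by push_cast; ring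
    rw [e, mul_comm, Real.exp_mul, Real.exp_log (by norm_num), Real.rpow_natCast]
    push_cast
    exact pow_le_pow_left₀ (by norm_num) hbr k
  have hk : (0 : ℝ) ≤ k := Nat.cast_nonneg k
  have hl := Real.log_two_gt_d9
  have h2 : 0 ≤ k * Real.log 2 / 2 := by positivity
  have h3 := Real.quadratic_le_exp_of_nonneg h2
  have h4 : (k : ℝ) ^ 2 * (Real.log 2 ^ 2 / 8) ≤ √((b ^ k : ℕ) : ℝ) := by
    have e : (k * Real.log 2 / 2) ^ 2 / 2 = (k : ℝ) ^ 2 * (Real.log 2 ^ 2 / 8) := by ring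
    linarith
  have h5 : 1 / 17 ≤ Real.log 2 ^ 2 / 8 := by nlinarith
  have h6 := mul_le_mul_of_nonneg_left h5 (sq_nonneg (k : ℝ))
  linarith

/-- the number of the digits used for the sieve -/
lemma level {b : ℕ} (hb : 2 ≤ b) (K : ℕ) (hK : 1 ≤ K) {k : ℕ} (hk : 2 * (K + 1) ≤ k) :
    3 ≤ b ^ (k / (K + 1)) ∧ (b ^ (k / (K + 1))) ^ K ≤ b ^ k ∧ b ^ (k / (K + 1)) < b ^ k ∧
      (k : ℝ) / (2 * (K + 1)) * Real.log 2 ≤ Real.log ((b ^ (k / (K + 1)) : ℕ) : ℝ) := by
  set u := k / (K + 1) with hu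
  have hu2 : 2 ≤ u := by
    rw [hu, Nat.le_div_iff_mul_le (by omega)]
    exact hk
  have h1 : (K + 1) * u ≤ k := Nat.mul_div_le k (K + 1)
  have h2 : k < (K + 1) * (u + 1) := Nat.lt_mul_div_succ k (by omega)
  refine ⟨?_, ?_, ?_, ?_⟩
  · calc 3 ≤ 2 ^ 2 := by norm_num
      _ ≤ b ^ 2 := Nat.pow_le_pow_left hb 2
      _ ≤ b ^ u := Nat.pow_le_pow_right (by omega) hu2
  · rw [← pow_mul]
    apply Nat.pow_le_pow_right (by omega)
    nlinarith
  · apply Nat.pow_lt_pow_right (by omega)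
    nlinarith
  · have hbr : (2 : ℝ) ≤ b := by exact_mod_cast hb
    push_cast
    rw [Real.log_pow]
    have h3 : (k : ℝ) < (K + 1) * (u + 1) := by exact_mod_cast h2
    have h4 : (2 : ℝ) ≤ u := by exact_mod_cast hu2
    have hK1 : (0 : ℝ) < K + 1 := by positivity
    have h5 : (k : ℝ) / (2 * (K + 1)) ≤ u := by
      rw [div_le_iff₀ (by positivity)]
      nlinarith
    have h6 : Real.log 2 ≤ Real.log b := Real.log_le_log (by norm_num) hbr
    have h7 : 0 < Real.log 2 := Real.log_pos (by norm_num)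
    exact mul_le_mul h5 h6 h7.le (by positivity)

/-- **Primes in a block of digits.** -/
theorem single_count (b : ℕ) (hb : 2 ≤ b) : ∃ (C : ℝ) (M0 : ℕ), 0 < C ∧ 1 ≤ M0 ∧ ∀ k ≥ M0,
    ∀ a : ℕ, b ^ k ≤ a →
    (((range (b ^ k)).filter (fun j => (a + j).Prime)).card : ℝ) ≤ C * ((b : ℝ) ^ k / k) := by
  obtain ⟨K, C, hK, hC, hps⟩ := pair_sieve b hb
  obtain ⟨CE, hCE, hE⟩ := E_bounds
  set g := 2 * ((K : ℝ) + 1) / Real.log 2 with hg
  have hl2 : 0 < Real.log 2 := Real.log_pos (by norm_num)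
  have hg0 : 0 < g := by positivity
  refine ⟨C * CE * g + 34, 2 * (K + 1), by positivity, by omega, fun k hk a ha => ?_⟩
  obtain ⟨y3, yK, yk, ylog⟩ := level hb K hK hk
  set y := b ^ (k / (K + 1)) with hy
  have hk0 : (0 : ℝ) < k := by exact_mod_cast (by omega : 0 < k)
  have h1 := hps y (b ^ k) y3 yK a a 0 (by omega) (by omega)
  have hD : ((a : ℤ) - ((b ^ 0 : ℕ) : ℤ) * a) = 0 := by simp
  rw [hD] at h1
  have hG : G 0 y = E y := by
    unfold G E
    congr 1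
    rw [filter_eq_self]
    intro r _
    exact dvd_zero _
  rw [hG] at h1
  have e : (range (b ^ k)).filter (fun j => (a + j).Prime ∧ (a + b ^ 0 * j).Prime) =
      (range (b ^ k)).filter (fun j => (a + j).Prime) := by
    apply filter_congr
    intro j _
    rw [pow_zero, one_mul, and_self]
  rw [e] at h1
  refine h1.trans ?_
  have hbk : (0 : ℝ) < (b : ℝ) ^ k := by positivity
  have hly : 0 < Real.log y := Real.log_pos (by exact_mod_cast (by omega : 1 < y))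
  have h2 : (k : ℝ) / g ≤ Real.log y := by
    rw [hg]
    have e : (k : ℝ) / (2 * ((K : ℝ) + 1) / Real.log 2) = (k : ℝ) / (2 * (K + 1)) * Real.log 2 := by
      field_simp
    rw [e]
    exact ylog
  have h3 : 1 / Real.log y ≤ g / k := by
    rw [div_le_div_iff₀ hly hk0]
    rw [div_le_iff₀ hg0] at h2
    linarith
  have hEy := (hE y (by omega)).2
  have h4 : C * (((b ^ k : ℕ) : ℝ) / Real.log y ^ 2) * E y ≤ C * CE * g * ((b : ℝ) ^ k / k) := by
    push_cast
    calc C * ((b : ℝ) ^ k / Real.log y ^ 2) * E y ≤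
          C * ((b : ℝ) ^ k / Real.log y ^ 2) * (CE * Real.log y) :=
          mul_le_mul_of_nonneg_left hEy (by positivity)
      _ = C * CE * (b : ℝ) ^ k * (1 / Real.log y) := by field_simp
      _ ≤ C * CE * (b : ℝ) ^ k * (g / k) := mul_le_mul_of_nonneg_left h3 (by positivity)
      _ = _ := by ring
  have h5 : √((b ^ k : ℕ) : ℝ) + 1 ≤ 34 * ((b : ℝ) ^ k / k) := by
    have h6 := sq_le_sqrt hb k
    set s := √((b ^ k : ℕ) : ℝ) with hs
    have hs1 : 1 ≤ s := by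
      rw [hs, Real.one_le_sqrt]
      exact_mod_cast Nat.one_le_pow k b (by omega)
    have hss : s * s = (b : ℝ) ^ k := by
      rw [hs, Real.mul_self_sqrt (Nat.cast_nonneg _)]
      push_cast
      rfl
    have hk1 : (1 : ℝ) ≤ k := by exact_mod_cast (by omega : 1 ≤ k)
    rw [← hss, mul_div_assoc', le_div_iff₀ hk0]
    have h7 : (k : ℝ) ≤ 17 * s := by nlinarith
    have h8 : (s + 1) * k ≤ (2 * s) * k := mul_le_mul_of_nonneg_right (by linarith) hk0.le
    have h9 : (2 * s) * k ≤ (2 * s) * (17 * s) := mul_le_mul_of_nonneg_left h7 (by linarith)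
    nlinarith
  have e2 : (C * CE * g + 34) * ((b : ℝ) ^ k / k) =
      C * CE * g * ((b : ℝ) ^ k / k) + 34 * ((b : ℝ) ^ k / k) := by ring
  rw [e2]
  linarith

/-- **Pairs of primes in a block of digits.** -/
theorem pair_count (b : ℕ) (hb : 2 ≤ b) : ∃ (C : ℝ) (M0 : ℕ), 0 < C ∧ 1 ≤ M0 ∧ ∀ k ≥ M0,
    ∀ h a1 a2 Y : ℕ, 2 ≤ Y → b ^ k ≤ a1 → b ^ k ≤ a2 → (h = 0 → a1 ≠ a2) →
    Real.log (a2 + b ^ h : ℕ) ≤ Y → Real.log (b ^ h * a1 : ℕ) ≤ Y →
    ∑ s ∈ range (b ^ h), (((range (b ^ k)).filter (fun j => (a1 + j).Prime ∧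
      (a2 + s + b ^ h * j).Prime)).card : ℝ) ≤
      C * ((b : ℝ) ^ k / (k : ℝ) ^ 2) * ((b : ℝ) ^ h + Real.log Y) := by
  obtain ⟨K, C, hK, hC, hps⟩ := pair_sieve b hb
  obtain ⟨CG, hCG, hG⟩ := avg_G
  set g := 2 * ((K : ℝ) + 1) / Real.log 2 with hg
  have hl2 : 0 < Real.log 2 := Real.log_pos (by norm_num)
  have hg0 : 0 < g := by positivity
  refine ⟨C * CG * g ^ 2 + 34, 2 * (K + 1), by positivity, by omega,
    fun k hk h a1 a2 Y hY ha1 ha2 hne hl1 hl2' => ?_⟩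
  obtain ⟨y3, yK, yk, ylog⟩ := level hb K hK hk
  set y := b ^ (k / (K + 1)) with hy
  have hk0 : (0 : ℝ) < k := by exact_mod_cast (by omega : 0 < k)
  have hbk : (0 : ℝ) < (b : ℝ) ^ k := by positivity
  have hbh : (0 : ℝ) < (b : ℝ) ^ h := by positivity
  have hly : 0 < Real.log y := Real.log_pos (by exact_mod_cast (by omega : 1 < y))
  have h2 : (k : ℝ) / g ≤ Real.log y := by
    rw [hg]
    have e : (k : ℝ) / (2 * ((K : ℝ) + 1) / Real.log 2) = (k : ℝ) / (2 * (K + 1)) * Real.log 2 := by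
      field_simp
    rw [e]
    exact ylog
  have h3 : 1 / Real.log y ≤ g / k := by
    rw [div_le_div_iff₀ hly hk0]
    rw [div_le_iff₀ hg0] at h2
    linarith
  set D0 : ℤ := (a2 : ℤ) - ((b ^ h : ℕ) : ℤ) * a1 with hD0
  set s1 := √((b ^ k : ℕ) : ℝ) with hs1
  -- one shift
  have hone : ∀ s ∈ range (b ^ h), (((range (b ^ k)).filter (fun j => (a1 + j).Prime ∧
      (a2 + s + b ^ h * j).Prime)).card : ℝ) ≤
      (if D0 + s ≠ 0 then C * ((b : ℝ) ^ k / Real.log y ^ 2) * G (D0 + s) y else 0) + (s1 + 1) := by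
    intro s hs
    rw [mem_range] at hs
    have hs10 : 0 ≤ s1 := Real.sqrt_nonneg _
    split_ifs with hD
    · have h4 := hps y (b ^ k) y3 yK a1 (a2 + s) h (by omega) (by omega)
      have e : (((a2 + s : ℕ) : ℤ) - ((b ^ h : ℕ) : ℤ) * a1) = D0 + s := by
        rw [hD0]
        push_cast
        ring
      rw [e, ← hs1, Nat.cast_pow] at h4
      linarith
    · have hz : (range (b ^ k)).filter (fun j => (a1 + j).Prime ∧ (a2 + s + b ^ h * j).Prime) = ∅ := by
        rw [filter_eq_empty_iff]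
        rintro j _ ⟨h5, h6⟩
        rw [not_not] at hD
        have h7 : a2 + s = b ^ h * a1 := by
          have : ((a2 + s : ℕ) : ℤ) = ((b ^ h * a1 : ℕ) : ℤ) := by
            push_cast
            rw [hD0] at hD
            push_cast at hD
            linarith
          exact_mod_cast this
        rcases Nat.eq_zero_or_pos h with h0 | h0
        · rw [h0, pow_zero] at hs h7
          have : s = 0 := by omega
          exact hne h0 (by omega)
        · rw [h7, ← mul_add] at h6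
          have h8 : 2 ≤ b ^ h := by
            calc 2 ≤ b := hb
              _ = b ^ 1 := (pow_one b).symm
              _ ≤ b ^ h := Nat.pow_le_pow_right (by omega) h0
          exact Nat.not_prime_mul (by omega) h5.one_lt.ne' h6
      rw [hz, card_empty, Nat.cast_zero, zero_add]
      linarith
  refine (Finset.sum_le_sum hone).trans ?_
  rw [Finset.sum_add_distrib, ← Finset.sum_filter, ← Finset.mul_sum, Finset.sum_const, card_range,
    nsmul_eq_mul]
  -- the mean value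
  have hlogs : ∀ s < b ^ h, D0 + (s : ℤ) ≠ 0 → Real.log |((D0 + (s : ℤ) : ℤ) : ℝ)| ≤ Y := by
    intro s hs hne0
    have hb1 : |((D0 + (s : ℤ) : ℤ) : ℝ)| ≤ ((a2 + b ^ h : ℕ) : ℝ) ∨
        |((D0 + (s : ℤ) : ℤ) : ℝ)| ≤ ((b ^ h * a1 : ℕ) : ℝ) := by
      rw [hD0]
      push_cast
      have hsr : (s : ℝ) ≤ (b : ℝ) ^ h := by exact_mod_cast hs.le
      have hs0 : (0 : ℝ) ≤ s := Nat.cast_nonneg s
      have ha20 : (0 : ℝ) ≤ a2 := Nat.cast_nonneg _
      have ha10 : (0 : ℝ) ≤ (b : ℝ) ^ h * a1 := by positivity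
      rcases le_or_gt 0 ((a2 : ℝ) - (b : ℝ) ^ h * a1 + s) with h5 | h5
      · left
        rw [abs_of_nonneg h5]
        linarith
      · right
        rw [abs_of_neg h5]
        linarith
    have hpos : 0 < |((D0 + (s : ℤ) : ℤ) : ℝ)| := abs_pos.2 (by exact_mod_cast hne0)
    rcases hb1 with h5 | h5
    · exact (Real.log_le_log hpos h5).trans hl1
    · exact (Real.log_le_log hpos h5).trans hl2'
  have h6 := hG D0 y Y (b ^ h) hY hlogs
  push_cast at h6
  have hlY : 0 ≤ Real.log Y := Real.log_nonneg (by exact_mod_cast (by omega : 1 ≤ Y))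
  have hXX : 0 ≤ (b : ℝ) ^ h + Real.log Y := by positivity
  have h7 : C * ((b : ℝ) ^ k / Real.log y ^ 2) *
      ∑ s ∈ (range (b ^ h)).filter (fun s : ℕ => D0 + (s : ℤ) ≠ 0), G (D0 + s) y ≤
      C * CG * g ^ 2 * ((b : ℝ) ^ k / (k : ℝ) ^ 2) * ((b : ℝ) ^ h + Real.log Y) := by
    have h8 : (b : ℝ) ^ k / Real.log y ^ 2 ≤ g ^ 2 * ((b : ℝ) ^ k / (k : ℝ) ^ 2) := by
      have h9 : (1 / Real.log y) ^ 2 ≤ (g / k) ^ 2 := pow_le_pow_left₀ (by positivity) h3 2
      calc (b : ℝ) ^ k / Real.log y ^ 2 = (b : ℝ) ^ k * (1 / Real.log y) ^ 2 := by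
            rw [one_div, inv_pow]
            rfl
        _ ≤ (b : ℝ) ^ k * (g / k) ^ 2 := mul_le_mul_of_nonneg_left h9 hbk.le
        _ = _ := by rw [div_pow]; ring
    calc _ ≤ C * (g ^ 2 * ((b : ℝ) ^ k / (k : ℝ) ^ 2)) * (CG * ((b : ℝ) ^ h + Real.log Y)) := by
          apply mul_le_mul (mul_le_mul_of_nonneg_left h8 hC.le) h6
            (Finset.sum_nonneg fun s _ => (G_pos _ _).le) (by positivity)
      _ = _ := by ring
  have h8 : ((b ^ h : ℕ) : ℝ) * (s1 + 1) ≤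
      34 * ((b : ℝ) ^ k / (k : ℝ) ^ 2) * ((b : ℝ) ^ h + Real.log Y) := by
    have h9 := sq_le_sqrt hb k
    rw [← hs1] at h9
    have hs11 : 1 ≤ s1 := by
      rw [hs1, Real.one_le_sqrt]
      exact_mod_cast Nat.one_le_pow k b (by omega)
    have hss : s1 * s1 = (b : ℝ) ^ k := by
      rw [hs1, Real.mul_self_sqrt (Nat.cast_nonneg _)]
      push_cast
      rfl
    have h10 : s1 + 1 ≤ 34 * ((b : ℝ) ^ k / (k : ℝ) ^ 2) := by
      rw [← hss, mul_div_assoc', le_div_iff₀ (by positivity)]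
      calc (s1 + 1) * (k : ℝ) ^ 2 ≤ (2 * s1) * (17 * s1) :=
            mul_le_mul (by linarith) h9 (by positivity) (by linarith)
        _ = _ := by ring
    push_cast
    calc (b : ℝ) ^ h * (s1 + 1) ≤ (b : ℝ) ^ h * (34 * ((b : ℝ) ^ k / (k : ℝ) ^ 2)) :=
          mul_le_mul_of_nonneg_left h10 hbh.le
      _ = 34 * ((b : ℝ) ^ k / (k : ℝ) ^ 2) * (b : ℝ) ^ h := by ring
      _ ≤ _ := by
          apply mul_le_mul_of_nonneg_left _ (by positivity)
          linarith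
  have e2 : (C * CG * g ^ 2 + 34) * ((b : ℝ) ^ k / (k : ℝ) ^ 2) * ((b : ℝ) ^ h + Real.log Y) =
      C * CG * g ^ 2 * ((b : ℝ) ^ k / (k : ℝ) ^ 2) * ((b : ℝ) ^ h + Real.log Y) +
      34 * ((b : ℝ) ^ k / (k : ℝ) ^ 2) * ((b : ℝ) ^ h + Real.log Y) := by ring
  rw [e2]
  linarith

end Pool.Agent.Y895.SQ
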