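import Pool.Agent.Y895.SQ.S3
import Pool.Agent.Y895.OL.A2

set_option autoImplicit false

/-!
# Correlations of primes with random lower digits
-/

open Finset Filter Topology MeasureTheory

namespace Pool.Agent.Y895.SQ

open Pool.Agent.Y895.PM (U01 avg corr)
open Pool.Agent.Y895.OL (gF gM cg gF_meas gF_nonneg gF_le_one bdd_int)

open Classical in
/-- the indicator of the primes -/
noncomputable def gp (_q n : ℕ) : ℝ := if n.Prime then 1 else 0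

lemma gp01 (q n : ℕ) : gp q n = 0 ∨ gp q n = 1 := by
  unfold gp
  split_ifs
  · right; rfl
  · left; rfl

lemma gp_nonneg (q n : ℕ) : 0 ≤ gp q n := by
  rcases gp01 q n with h | h <;> rw [h]
  norm_num

lemma gp_abs (q n : ℕ) : |gp q n| ≤ 1 := by
  rcases gp01 q n with h | h <;> rw [h] <;> norm_num

lemma cg_gp (q B L : ℕ) :
    cg (gp q) B L = (((range L).filter (fun j => (B + j).Prime)).card : ℝ) := by
  classical
  unfold cg gp
  rw [Finset.sum_boole]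

/-- families with prescribed upper digits -/
structure AdmP (b : ℕ) (α c C : ℝ) (A m : ℕ → ℕ) (P : ℕ) : Prop where
  mono : ∀ p ≥ P, ∀ q ≥ p, m p ≤ m q
  lo : ∀ p ≥ P, c * α ^ p ≤ A p
  up : ∀ p ≥ P, (A p : ℝ) ≤ C * α ^ p
  dig : ∀ p ≥ P, b ^ m p ≤ A p
  big : ∀ p ≥ P, (p : ℝ) * (1 / 2) * Real.log α ≤ m p * Real.log b

section

variable {b : ℕ}

/-- the mean over one block -/
lemma block_mean (hb : 2 ≤ b) : ∃ (C : ℝ) (M0 : ℕ), 0 < C ∧ 1 ≤ M0 ∧ ∀ k ≥ M0, ∀ q a : ℕ, b ^ k ≤ a →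
    ((b : ℝ) ^ k)⁻¹ * cg (gp q) a (b ^ k) ≤ C / k := by
  obtain ⟨C, M0, hC, hM0, h⟩ := single_count b hb
  refine ⟨C, M0, hC, hM0, fun k hk q a ha => ?_⟩
  have hbk : (0 : ℝ) < (b : ℝ) ^ k := by positivity
  rw [cg_gp, inv_mul_le_iff₀ hbk]
  refine (h k hk a ha).trans (le_of_eq ?_)
  ring

lemma int_gF (hb : 2 ≤ b) (A m : ℕ → ℕ) (q : ℕ) :
    ∫ t, gF gp b A m q t ∂U01 = ((b : ℝ) ^ m q)⁻¹ * cg (gp q) (A q) (b ^ m q) := by
  unfold gF
  exact avg hb (G := fun j => gp q (A q + j)) (fun n => gp_abs _ _) (m q)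

lemma int_pair (hb : 2 ≤ b) (A m : ℕ → ℕ) {p q : ℕ} (hm : m p ≤ m q) :
    ∫ t, gF gp b A m p t * gF gp b A m q t ∂U01 = ((b : ℝ) ^ m q)⁻¹ *
      ∑ k ∈ range (b ^ m p), ∑ r ∈ range (b ^ (m q - m p)),
        gp p (A p + k) * gp q (A q + (b ^ (m q - m p) * k + r)) := by
  have h := corr hb (F := fun j => gp p (A p + j)) (G := fun n => gp q (A q + n))
    (fun n => gp_abs _ _) (fun n => gp_abs _ _) (m p) (m q - m p)
  rw [Nat.sub_add_cancel hm] at h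
  exact h

lemma pair_far (hb : 2 ≤ b) : ∃ (C : ℝ) (M0 : ℕ), 0 < C ∧ 1 ≤ M0 ∧ ∀ (A m : ℕ → ℕ) (p q : ℕ),
    m p ≤ m q → M0 ≤ m p → M0 ≤ m q - m p → b ^ m p ≤ A p → b ^ m q ≤ A q →
    ∫ t, gF gp b A m p t * gF gp b A m q t ∂U01 ≤ C / m p * (C / (m q - m p : ℕ)) := by
  obtain ⟨C, M0, hC, hM0, h⟩ := block_mean hb
  refine ⟨C, M0, hC, hM0, fun A m p q hm hp hh hAp hAq => ?_⟩
  rw [int_pair hb A m hm]
  set d := m q - m p with hd
  have hbd : (0 : ℝ) < (b : ℝ) ^ d := by positivity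
  have hbp : (0 : ℝ) < (b : ℝ) ^ m p := by positivity
  have e : (b : ℝ) ^ m q = (b : ℝ) ^ m p * (b : ℝ) ^ d := by
    rw [← pow_add]
    congr 1
    omega
  have h1 : ∀ k ∈ range (b ^ m p), ∑ r ∈ range (b ^ d),
      gp p (A p + k) * gp q (A q + (b ^ d * k + r)) ≤ gp p (A p + k) * ((b : ℝ) ^ d * (C / d)) := by
    intro k _
    rw [← Finset.mul_sum]
    apply mul_le_mul_of_nonneg_left _ (gp_nonneg _ _)
    have h2 := h d hh q (A q + b ^ d * k) (by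
      have : b ^ d ≤ b ^ m q := Nat.pow_le_pow_right (by omega) (by omega)
      omega)
    rw [inv_mul_le_iff₀ hbd] at h2
    unfold cg at h2
    simpa only [add_assoc] using h2
  have h3 := Finset.sum_le_sum h1
  rw [← Finset.sum_mul] at h3
  have h4 := h (m p) hp p (A p) hAp
  rw [inv_mul_le_iff₀ hbp] at h4
  unfold cg at h4
  have h5 : 0 ≤ (b : ℝ) ^ d * (C / d) := by positivity
  rw [e, inv_mul_le_iff₀ (by positivity)]
  calc _ ≤ (∑ k ∈ range (b ^ m p), gp p (A p + k)) * ((b : ℝ) ^ d * (C / d)) := h3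
    _ ≤ ((b : ℝ) ^ m p * (C / m p)) * ((b : ℝ) ^ d * (C / d)) := mul_le_mul_of_nonneg_right h4 h5
    _ = _ := by ring

lemma pair_near (hb : 2 ≤ b) : ∃ (C : ℝ) (M0 : ℕ), 0 < C ∧ 1 ≤ M0 ∧ ∀ (A m : ℕ → ℕ) (p q Y : ℕ),
    2 ≤ Y → m p ≤ m q → M0 ≤ m p → b ^ m p ≤ A p → b ^ m q ≤ A q → A p ≠ A q →
    Real.log (A q + b ^ (m q - m p) : ℕ) ≤ Y → Real.log (b ^ (m q - m p) * A p : ℕ) ≤ Y →
    ∫ t, gF gp b A m p t * gF gp b A m q t ∂U01 ≤
      C / (m p : ℝ) ^ 2 * (1 + Real.log Y * ((b : ℝ) ^ (m q - m p))⁻¹) := by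
  obtain ⟨C, M0, hC, hM0, h⟩ := pair_count b hb
  refine ⟨C, M0, hC, hM0, fun A m p q Y hY hm hp hAp hAq hne hl1 hl2 => ?_⟩
  rw [int_pair hb A m hm]
  set d := m q - m p with hd
  have hbd : (0 : ℝ) < (b : ℝ) ^ d := by positivity
  have hbp : (0 : ℝ) < (b : ℝ) ^ m p := by positivity
  have e : (b : ℝ) ^ m q = (b : ℝ) ^ m p * (b : ℝ) ^ d := by
    rw [← pow_add]
    congr 1
    omega
  have h1 := h (m p) hp d (A p) (A q) Y hY hAp (by
    have : b ^ m p ≤ b ^ m q := Nat.pow_le_pow_right (by omega) hm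
    omega) (fun _ => hne) hl1 hl2
  have h2 : ∑ k ∈ range (b ^ m p), ∑ r ∈ range (b ^ d),
      gp p (A p + k) * gp q (A q + (b ^ d * k + r)) =
      ∑ s ∈ range (b ^ d), (((range (b ^ m p)).filter (fun j => (A p + j).Prime ∧
      (A q + s + b ^ d * j).Prime)).card : ℝ) := by
    rw [Finset.sum_comm]
    refine Finset.sum_congr rfl fun s _ => ?_
    classical
    rw [← Finset.sum_boole]
    refine Finset.sum_congr rfl fun j _ => ?_
    have e1 : A q + (b ^ d * j + s) = A q + s + b ^ d * j := by ring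
    rw [e1]
    unfold gp
    by_cases h3 : (A p + j).Prime
    · by_cases h4 : (A q + s + b ^ d * j).Prime
      · rw [if_pos h3, if_pos h4, if_pos ⟨h3, h4⟩, one_mul]
      · rw [if_pos h3, if_neg h4, if_neg fun h5 => h4 h5.2, mul_zero]
    · rw [if_neg h3, zero_mul, if_neg fun h5 => h3 h5.1]
  rw [h2, e, inv_mul_le_iff₀ (by positivity)]
  refine h1.trans (le_of_eq ?_)
  have : (b : ℝ) ^ d * ((b : ℝ) ^ d)⁻¹ = 1 := mul_inv_cancel₀ hbd.ne'
  calc C * ((b : ℝ) ^ m p / (m p : ℝ) ^ 2) * ((b : ℝ) ^ d + Real.log Y) =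
        C * ((b : ℝ) ^ m p / (m p : ℝ) ^ 2) * ((b : ℝ) ^ d + Real.log Y * ((b : ℝ) ^ d * ((b : ℝ) ^ d)⁻¹)) := by
        rw [this, mul_one]
    _ = _ := by ring

end

end Pool.Agent.Y895.SQ
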