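import Pool.Agent.Y895.SQ.S4

set_option autoImplicit false

/-!
# The correlation sums of primes with random lower digits
-/

open Finset Filter Topology MeasureTheory

namespace Pool.Agent.Y895.SQ

open Pool.Agent.Y895.PM (U01)
open Pool.Agent.Y895.OL (gF gM cg gF_meas gF_nonneg gF_le_one bdd_int)
open Pool.Agent.H305R2 (log_nat_tendsto)

section

variable {b : ℕ} {α c C : ℝ} {A m : ℕ → ℕ} {P : ℕ}

lemma AdmP.m_lo (hb : 2 ≤ b) (h : AdmP b α c C A m P) {p : ℕ} (hp : P ≤ p) :
    Real.log α / (2 * Real.log b) * p ≤ m p := by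
  have hlbb : 0 < Real.log b := Real.log_pos (by exact_mod_cast (by omega : 1 < b))
  have h1 := h.big p hp
  have e : Real.log α / (2 * Real.log b) * p = (p * (1 / 2) * Real.log α) / Real.log b := by
    field_simp
  rw [e, div_le_iff₀ hlbb]
  exact h1

lemma AdmP.m_up (hb : 2 ≤ b) (hα : 1 < α) (hC : 0 < C) (h : AdmP b α c C A m P) {p : ℕ}
    (hp : P ≤ p) : (m p : ℝ) * Real.log b ≤ p * Real.log α + |Real.log C| := by
  have hbr : (2 : ℝ) ≤ b := by exact_mod_cast hb
  have hα0 : 0 < α := by linarith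
  have h1 := h.dig p hp
  have h2 := h.up p hp
  have h3 : (b : ℝ) ^ m p ≤ C * α ^ p := by
    have : (b : ℝ) ^ m p ≤ A p := by exact_mod_cast h1
    linarith
  have h4 := Real.log_le_log (by positivity) h3
  rw [Real.log_mul hC.ne' (by positivity), Real.log_pow, Real.log_pow] at h4
  have h5 := le_abs_self (Real.log C)
  linarith

lemma AdmP.logA (hb : 2 ≤ b) (hα : 1 < α) (hC : 0 < C) (h : AdmP b α c C A m P) {p : ℕ}
    (hp : P ≤ p) : 0 < (A p : ℝ) ∧ Real.log (A p) ≤ p * Real.log α + |Real.log C| := by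
  have hα0 : 0 < α := by linarith
  have h1 := h.dig p hp
  have h2 := h.up p hp
  have h3 : 0 < b ^ m p := by positivity
  have h4 : (0 : ℝ) < A p := by exact_mod_cast (by omega : 0 < A p)
  refine ⟨h4, ?_⟩
  have h5 := Real.log_le_log h4 h2
  rw [Real.log_mul hC.ne' (by positivity), Real.log_pow] at h5
  have h6 := le_abs_self (Real.log C)
  linarith

lemma gF_int_le (hb : 2 ≤ b) (A m : ℕ → ℕ) (p q : ℕ) :
    ∫ t, gF gp b A m p t * gF gp b A m q t ∂U01 ≤ ∫ t, gF gp b A m q t ∂U01 := by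
  apply integral_mono
  · exact bdd_int ((gF_meas gp b A m p).mul (gF_meas gp b A m q))
      (fun t => mul_nonneg (gF_nonneg gp01 b A m p t) (gF_nonneg gp01 b A m q t))
      (fun t => mul_le_one₀ (gF_le_one gp01 b A m p t) (gF_nonneg gp01 b A m q t)
        (gF_le_one gp01 b A m q t))
  · exact bdd_int (gF_meas gp b A m q) (gF_nonneg gp01 b A m q) (gF_le_one gp01 b A m q)
  · intro t
    have h1 := gF_nonneg gp01 b A m q t
    have h2 := gF_le_one gp01 b A m p t
    exact mul_le_of_le_one_left h1 h2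

/-- **The correlation sums.** -/
theorem pair_row (hb : 2 ≤ b) (hα : 1 < α) (hc : 0 < c) (hC : 0 < C) :
    ∃ (K : ℝ) (Q1 : ℕ), 0 < K ∧ ∀ (A m : ℕ → ℕ) (P : ℕ), AdmP b α c C A m P → ∀ CG : ℝ, 0 ≤ CG →
    ∀ q ≥ P + Q1, ∑ p ∈ (range q).filter (fun p => P ≤ p), ((b : ℝ) ^ (m q - m p))⁻¹ ≤
      CG * (q / Real.log q) →
    ∀ T : Finset ℕ, (∀ p ∈ T, P + Q1 ≤ p ∧ p < q) →
      ∑ p ∈ T, ∫ t, gF gp b A m p t * gF gp b A m q t ∂U01 ≤
        K * (1 / q) * (∑ p ∈ T, 1 / (p : ℝ) + 1 + CG) := by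
  have hbr : (2 : ℝ) ≤ b := by exact_mod_cast hb
  have hα0 : 0 < α := by linarith
  have hlbb : 0 < Real.log b := Real.log_pos (by linarith)
  have hlb : 0 < Real.log α := Real.log_pos hα
  obtain ⟨C1, M1, hC1, hM1, hblock⟩ := block_mean hb
  obtain ⟨C2, M2, hC2, hM2, hfar⟩ := pair_far hb
  obtain ⟨C3, M3, hC3, hM3, hnear⟩ := pair_near hb
  set g := Real.log α / (2 * Real.log b) with hg
  have hg0 : 0 < g := by positivity
  obtain ⟨K0, hK0⟩ := pow_unbounded_of_one_lt (C / c) hα
  -- thresholds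
  have hev : ∀ᶠ q : ℕ in atTop, 2 * ((M1 : ℝ) + M2 + M3) / g ≤ q ∧
      2 * q * Real.log α + 2 * |Real.log C| + 4 ≤ (q : ℝ) ^ 2 ∧ 1 ≤ Real.log q := by
    have h1 : ∀ᶠ q : ℕ in atTop, 2 * ((M1 : ℝ) + M2 + M3) / g ≤ q :=
      tendsto_natCast_atTop_atTop.eventually_ge_atTop _
    have h2 : ∀ᶠ q : ℕ in atTop, 2 * Real.log α + 2 * |Real.log C| + 4 + 1 ≤ q :=
      tendsto_natCast_atTop_atTop.eventually_ge_atTop _
    have h3 : ∀ᶠ q : ℕ in atTop, 1 ≤ Real.log q := log_nat_tendsto.eventually_ge_atTop _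
    filter_upwards [h1, h2, h3] with q h1 h2 h3
    refine ⟨h1, ?_, h3⟩
    have h4 := abs_nonneg (Real.log C)
    have h5 : (1 : ℝ) ≤ q := by linarith
    nlinarith
  obtain ⟨Q1, hQ1⟩ := hev.exists_forall_of_atTop
  refine ⟨(K0 + 1) * (C1 / g) + 2 * (C2 / g) ^ 2 + 8 * (C3 / g ^ 2), Q1, by positivity,
    fun A m P hadm CG hCG q hq hG T hT => ?_⟩
  obtain ⟨q1, q2, q3⟩ := hQ1 q (by omega)
  have hPq : P ≤ q := by omega
  have hq0 : (0 : ℝ) < q := by
    by_contra h
    have : (q : ℝ) = 0 := le_antisymm (not_lt.1 h) (Nat.cast_nonneg q)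
    rw [this, Real.log_zero] at q3
    linarith
  have hM10 : (0 : ℝ) ≤ M1 := Nat.cast_nonneg _
  have hM20 : (0 : ℝ) ≤ M2 := Nat.cast_nonneg _
  have hM30 : (0 : ℝ) ≤ M3 := Nat.cast_nonneg _
  have hmlo : ∀ p, P + Q1 ≤ p → g * p ≤ m p ∧ 2 * ((M1 : ℝ) + M2 + M3) ≤ g * p := by
    intro p hp
    refine ⟨hadm.m_lo hb (by omega), ?_⟩
    have h1 := (hQ1 p (by omega)).1
    rw [div_le_iff₀ hg0] at h1
    linarith
  obtain ⟨mq1, mq2⟩ := hmlo q hq
  set Y := ⌈2 * q * Real.log α + 2 * |Real.log C| + 3⌉₊ with hY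
  have hY1 : 2 * q * Real.log α + 2 * |Real.log C| + 3 ≤ Y := Nat.le_ceil _
  have hpos3 : 0 ≤ 2 * q * Real.log α + 2 * |Real.log C| := by
    have := abs_nonneg (Real.log C)
    positivity
  have hY2 : (Y : ℝ) ≤ (q : ℝ) ^ 2 := by
    have := Nat.ceil_lt_add_one (show 0 ≤ 2 * q * Real.log α + 2 * |Real.log C| + 3 by linarith)
    linarith
  have hY3 : 2 ≤ Y := by
    have : (2 : ℝ) ≤ Y := by linarith
    exact_mod_cast this
  have hYlog : Real.log Y ≤ 2 * Real.log q := by
    have h1 : (0 : ℝ) < Y := by linarith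
    have h2 := Real.log_le_log h1 hY2
    rw [Real.log_pow] at h2
    exact_mod_cast h2
  -- the bound for one pair
  have hpair : ∀ p ∈ T, ∫ t, gF gp b A m p t * gF gp b A m q t ∂U01 ≤
      (if q - p ≤ K0 then C1 / g * (1 / q) else 0) + 2 * (C2 / g) ^ 2 * (1 / q * (1 / p)) +
      4 * (C3 / g ^ 2) * (1 / (q : ℝ) ^ 2 * (1 + 2 * Real.log q * ((b : ℝ) ^ (m q - m p))⁻¹)) := by
    intro p hp
    obtain ⟨hp1, hp2⟩ := hT p hp
    have hp0 : (0 : ℝ) < p := by
      have h3 := (hQ1 p (by omega)).2.2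
      by_contra h
      have : (p : ℝ) = 0 := le_antisymm (not_lt.1 h) (Nat.cast_nonneg p)
      rw [this, Real.log_zero] at h3
      linarith
    obtain ⟨mp1, mp2⟩ := hmlo p hp1
    have hmpq : m p ≤ m q := hadm.mono p (by omega) q hp2.le
    have hmp0 : (0 : ℝ) < m p := lt_of_lt_of_le (by positivity) mp1
    have hmq0 : (0 : ℝ) < m q := lt_of_lt_of_le (by positivity) mq1
    have t2 : 0 ≤ 2 * (C2 / g) ^ 2 * (1 / q * (1 / (p : ℝ))) := by positivity
    have t3 : 0 ≤ 4 * (C3 / g ^ 2) *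
        (1 / (q : ℝ) ^ 2 * (1 + 2 * Real.log q * ((b : ℝ) ^ (m q - m p))⁻¹)) := by positivity
    split_ifs with hK
    · -- very close
      have h1 := gF_int_le hb A m p q
      rw [int_gF hb] at h1
      have h2 := hblock (m q) (by
        have : (M1 : ℝ) ≤ m q := by linarith
        exact_mod_cast this) q (A q) (hadm.dig q hPq)
      have h3 : C1 / m q ≤ C1 / g * (1 / q) := by
        calc C1 / m q ≤ C1 / (g * q) := div_le_div_of_nonneg_left hC1.le (by positivity) mq1
          _ = _ := by field_simp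
      linarith
    · rw [zero_add]
      rcases le_or_gt (m q) (2 * (m q - m p)) with hcase | hcase
      · -- far
        have hd : g * q / 2 ≤ ((m q - m p : ℕ) : ℝ) := by
          have : (m q : ℝ) ≤ 2 * ((m q - m p : ℕ) : ℝ) := by exact_mod_cast hcase
          linarith
        have h1 := hfar A m p q hmpq (by
            have : (M2 : ℝ) ≤ m p := by linarith
            exact_mod_cast this) (by
            have : (M2 : ℝ) ≤ ((m q - m p : ℕ) : ℝ) := by linarith
            exact_mod_cast this) (hadm.dig p (by omega)) (hadm.dig q hPq)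
        have h2 : C2 / m p ≤ C2 / (g * p) := div_le_div_of_nonneg_left hC2.le (by positivity) mp1
        have h3 : C2 / ((m q - m p : ℕ) : ℝ) ≤ C2 / (g * q / 2) :=
          div_le_div_of_nonneg_left hC2.le (by positivity) hd
        have h4 : C2 / m p * (C2 / ((m q - m p : ℕ) : ℝ)) ≤ C2 / (g * p) * (C2 / (g * q / 2)) :=
          mul_le_mul h2 h3 (by positivity) (by positivity)
        have h5 : C2 / (g * p) * (C2 / (g * q / 2)) = 2 * (C2 / g) ^ 2 * (1 / q * (1 / p)) := by
          field_simp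
        linarith
      · -- near
        have hmp2 : g * q / 2 ≤ m p := by
          have : (m q : ℝ) ≤ 2 * (m p : ℝ) := by exact_mod_cast (by omega : m q ≤ 2 * m p)
          linarith
        obtain ⟨Ap0, Ap1⟩ := hadm.logA hb hα hC (p := p) (by omega)
        obtain ⟨Aq0, Aq1⟩ := hadm.logA hb hα hC hPq
        have hdq : b ^ (m q - m p) ≤ A q := (Nat.pow_le_pow_right (by omega) (Nat.sub_le _ _)).trans
          (hadm.dig q hPq)
        have hne : A p ≠ A q := by
          intro h
          have h1 := hadm.up p (by omega)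
          have h2 := hadm.lo q hPq
          rw [h] at h1
          have h3 : α ^ q = α ^ p * α ^ (q - p) := by
            rw [← pow_add]
            congr 1
            omega
          have h4 : α ^ K0 ≤ α ^ (q - p) := pow_le_pow_right₀ hα.le (by omega)
          have h5 : C / c < α ^ (q - p) := lt_of_lt_of_le hK0 h4
          rw [div_lt_iff₀ hc] at h5
          have h6 : 0 < α ^ p := by positivity
          have h7 : C * α ^ p < c * α ^ q := by
            rw [h3]
            calc C * α ^ p < (α ^ (q - p) * c) * α ^ p := mul_lt_mul_of_pos_right h5 h6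
              _ = _ := by ring
          linarith
        have hl1 : Real.log (A q + b ^ (m q - m p) : ℕ) ≤ Y := by
          have h1 : ((A q + b ^ (m q - m p) : ℕ) : ℝ) ≤ 2 * A q := by
            have : A q + b ^ (m q - m p) ≤ 2 * A q := by omega
            exact_mod_cast this
          have h2 : (0 : ℝ) < ((A q + b ^ (m q - m p) : ℕ) : ℝ) := by
            push_cast
            positivity
          have h3 := Real.log_le_log h2 h1
          rw [Real.log_mul (by norm_num) Aq0.ne'] at h3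
          have h4 := Real.log_two_lt_d9
          have h5 := abs_nonneg (Real.log C)
          have h6 : 0 ≤ (q : ℝ) * Real.log α := by positivity
          linarith
        have hl2 : Real.log (b ^ (m q - m p) * A p : ℕ) ≤ Y := by
          push_cast
          rw [Real.log_mul (by positivity) Ap0.ne', Real.log_pow]
          have h1 : ((m q - m p : ℕ) : ℝ) ≤ m q := by exact_mod_cast Nat.sub_le _ _
          have h2 := hadm.m_up hb hα hC hPq
          have h3 : ((m q - m p : ℕ) : ℝ) * Real.log b ≤ m q * Real.log b :=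
            mul_le_mul_of_nonneg_right h1 hlbb.le
          have h4 : (p : ℝ) * Real.log α ≤ q * Real.log α :=
            mul_le_mul_of_nonneg_right (by exact_mod_cast hp2.le) hlb.le
          linarith
        have h1 := hnear A m p q Y hY3 hmpq (by
            have : (M3 : ℝ) ≤ m p := by linarith
            exact_mod_cast this) (hadm.dig p (by omega)) (hadm.dig q hPq) hne hl1 hl2
        have hB0 : 0 < ((b : ℝ) ^ (m q - m p))⁻¹ := by positivity
        have h2 : 1 + Real.log Y * ((b : ℝ) ^ (m q - m p))⁻¹ ≤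
            1 + 2 * Real.log q * ((b : ℝ) ^ (m q - m p))⁻¹ := by
          have := mul_le_mul_of_nonneg_right hYlog hB0.le
          linarith
        have h3 : C3 / (m p : ℝ) ^ 2 ≤ C3 / (g * q / 2) ^ 2 :=
          div_le_div_of_nonneg_left hC3.le (by positivity)
            (pow_le_pow_left₀ (by positivity) hmp2 2)
        have h4 : C3 / (m p : ℝ) ^ 2 * (1 + Real.log Y * ((b : ℝ) ^ (m q - m p))⁻¹) ≤
            C3 / (g * q / 2) ^ 2 * (1 + 2 * Real.log q * ((b : ℝ) ^ (m q - m p))⁻¹) := by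
          apply mul_le_mul h3 h2 _ (by positivity)
          have : 0 ≤ Real.log Y := Real.log_nonneg (by exact_mod_cast (by omega : 1 ≤ Y))
          positivity
        have h5 : C3 / (g * q / 2) ^ 2 * (1 + 2 * Real.log q * ((b : ℝ) ^ (m q - m p))⁻¹) =
            4 * (C3 / g ^ 2) *
              (1 / (q : ℝ) ^ 2 * (1 + 2 * Real.log q * ((b : ℝ) ^ (m q - m p))⁻¹)) := by
          field_simp
          ring
        linarith
  refine (Finset.sum_le_sum hpair).trans ?_
  rw [Finset.sum_add_distrib, Finset.sum_add_distrib]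
  -- the three sums
  have s1 : ∑ p ∈ T, (if q - p ≤ K0 then C1 / g * (1 / (q : ℝ)) else 0) ≤
      (K0 + 1) * (C1 / g) * (1 / q) := by
    rw [← Finset.sum_filter, Finset.sum_const, nsmul_eq_mul]
    have hcard : (T.filter (fun p => q - p ≤ K0)).card ≤ K0 := by
      calc _ ≤ (Ico (q - K0) q).card := by
            apply card_le_card
            intro p hp
            rw [mem_filter] at hp
            have := (hT p hp.1).2
            rw [mem_Ico]
            omega
        _ ≤ K0 := by rw [Nat.card_Ico]; omega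
    have h1 : ((T.filter (fun p => q - p ≤ K0)).card : ℝ) ≤ K0 + 1 := by
      have : ((T.filter (fun p => q - p ≤ K0)).card : ℝ) ≤ K0 := by exact_mod_cast hcard
      linarith
    calc _ ≤ ((K0 : ℝ) + 1) * (C1 / g * (1 / q)) := mul_le_mul_of_nonneg_right h1 (by positivity)
      _ = _ := by ring
  have s2 : ∑ p ∈ T, 2 * (C2 / g) ^ 2 * (1 / q * (1 / (p : ℝ))) =
      2 * (C2 / g) ^ 2 * (1 / q) * ∑ p ∈ T, 1 / (p : ℝ) := by
    rw [Finset.mul_sum]
    refine Finset.sum_congr rfl fun p _ => ?_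
    ring
  have s3 : ∑ p ∈ T, 4 * (C3 / g ^ 2) *
      (1 / (q : ℝ) ^ 2 * (1 + 2 * Real.log q * ((b : ℝ) ^ (m q - m p))⁻¹)) ≤
      8 * (C3 / g ^ 2) * (1 / q) * (1 + CG) := by
    rw [← Finset.mul_sum, ← Finset.mul_sum, Finset.sum_add_distrib, ← Finset.mul_sum,
      Finset.sum_const, nsmul_eq_mul, mul_one]
    have h1 : ((T.card : ℕ) : ℝ) ≤ q := by
      have : T.card ≤ q := by
        calc T.card ≤ (range q).card := card_le_card fun p hp => mem_range.2 (hT p hp).2
          _ = q := card_range q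
      exact_mod_cast this
    have h2 : ∑ p ∈ T, ((b : ℝ) ^ (m q - m p))⁻¹ ≤ CG * (q / Real.log q) := by
      refine le_trans ?_ hG
      refine Finset.sum_le_sum_of_subset_of_nonneg (fun p hp => ?_) fun _ _ _ => by positivity
      rw [mem_filter, mem_range]
      exact ⟨(hT p hp).2, by have := (hT p hp).1; omega⟩
    have hlq0 : 0 < Real.log q := by linarith
    have h3 : 2 * Real.log q * ∑ p ∈ T, ((b : ℝ) ^ (m q - m p))⁻¹ ≤ 2 * CG * q := by
      calc _ ≤ 2 * Real.log q * (CG * (q / Real.log q)) :=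
            mul_le_mul_of_nonneg_left h2 (by positivity)
        _ = _ := by field_simp
    have h4 : (T.card : ℝ) + 2 * Real.log q * ∑ p ∈ T, ((b : ℝ) ^ (m q - m p))⁻¹ ≤
        2 * (1 + CG) * q := by
      have : 0 ≤ CG * q := by positivity
      linarith
    calc _ ≤ 4 * (C3 / g ^ 2) * (1 / (q : ℝ) ^ 2 * (2 * (1 + CG) * q)) := by
          apply mul_le_mul_of_nonneg_left _ (by positivity)
          exact mul_le_mul_of_nonneg_left h4 (by positivity)
      _ = _ := by field_simp; ring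
  rw [s2]
  have hS0 : 0 ≤ ∑ p ∈ T, 1 / (p : ℝ) := Finset.sum_nonneg fun p _ => by positivity
  have hR0 : (0 : ℝ) ≤ 1 / q := by positivity
  set sg := ∑ p ∈ T, 1 / (p : ℝ) with hsg
  have u1 : (K0 + 1) * (C1 / g) * (1 / q) ≤ (K0 + 1) * (C1 / g) * (1 / q) * (sg + 1 + CG) := by
    apply le_mul_of_one_le_right (by positivity)
    linarith
  have u2 : 2 * (C2 / g) ^ 2 * (1 / q) * sg ≤ 2 * (C2 / g) ^ 2 * (1 / q) * (sg + 1 + CG) := by
    apply mul_le_mul_of_nonneg_left _ (by positivity)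
    linarith
  have u3 : 8 * (C3 / g ^ 2) * (1 / q) * (1 + CG) ≤ 8 * (C3 / g ^ 2) * (1 / q) * (sg + 1 + CG) := by
    apply mul_le_mul_of_nonneg_left _ (by positivity)
    linarith
  have e : ((K0 + 1) * (C1 / g) + 2 * (C2 / g) ^ 2 + 8 * (C3 / g ^ 2)) * (1 / (q : ℝ)) *
      (sg + 1 + CG) = (K0 + 1) * (C1 / g) * (1 / q) * (sg + 1 + CG) +
      2 * (C2 / g) ^ 2 * (1 / q) * (sg + 1 + CG) + 8 * (C3 / g ^ 2) * (1 / q) * (sg + 1 + CG) := by
    ring
  rw [e]
  linarith

end

end Pool.Agent.Y895.SQ
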