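import Pool.Agent.Y895.SQ.S5

set_option autoImplicit false

/-!
# The row system of primes with random lower digits
-/

open Finset Filter Topology MeasureTheory

namespace Pool.Agent.Y895.SQ

open Pool.Agent.Y895.PM (U01)
open Pool.Agent.Y895.OL (gF gM cg gF_meas gF_nonneg gF_le_one bdd_int Row row_of ae_U01 floor_lt_pow)
open Pool.Agent.H305R2 (log_nat_tendsto)

/-- the weight of an index -/
noncomputable def wn (q : ℕ) : ℝ := 1 / q

lemma wn_nonneg (q : ℕ) : 0 ≤ wn q := by unfold wn; positivity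

lemma wn_le_one (q : ℕ) : wn q ≤ 1 := by
  unfold wn
  rcases Nat.eq_zero_or_pos q with h | h
  · rw [h]; simp
  · rw [div_le_one (by exact_mod_cast h)]
    exact_mod_cast h

section

variable {b : ℕ} {α c C : ℝ}

/-- **The row system.** -/
theorem row_gen (hb : 2 ≤ b) (hα : 1 < α) : ∃ K : ℝ, 0 < K ∧ ∀ c C : ℝ, 0 < c → 0 < C →
    ∃ (Q1 : ℕ), ∀ (A m l : ℕ → ℕ) (P : ℕ), AdmP b α c C A m P →
    (∀ q ≥ P, l q ≤ m q ∧ (q : ℝ) * (1 / 4) * Real.log α ≤ ((m q : ℝ) - l q) * Real.log b) →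
    ∀ CG : ℝ, 0 ≤ CG → (∀ q ≥ P, ∑ p ∈ (range q).filter (fun p => P ≤ p),
      ((b : ℝ) ^ (m q - m p))⁻¹ ≤ CG * (q / Real.log q)) →
    ∀ lam : ℕ → ℝ, (∀ q, 1 ≤ lam q) → (∃ B0 : ℝ, 0 ≤ B0 ∧ ∀ q, wn q * lam q ≤ B0) →
    ∀ CN : ℝ, 0 ≤ CN → (∀ q ≥ P, ∀ T : Finset ℕ, (∀ p ∈ T, P ≤ p ∧ p < q ∧ l q < m p) →
      ∑ p ∈ T, wn p ≤ CN * lam q) →
    Row U01 (gF gp b A m) (gM gp b A m l) Set.univ wn lam (P + Q1) ∧
    (∀ᵐ t ∂U01, ∀ q ≥ P + Q1, q ∈ Set.univ → gM gp b A m l q t ≤ K * wn q) ∧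
    (∀ q ≥ P + Q1, q ∈ Set.univ → ∫ t, gF gp b A m q t ∂U01 ≤ K * wn q) := by
  have hbr : (2 : ℝ) ≤ b := by exact_mod_cast hb
  have hα0 : 0 < α := by linarith
  have hlbb : 0 < Real.log b := Real.log_pos (by linarith)
  have hlb : 0 < Real.log α := Real.log_pos hα
  obtain ⟨C1, M1, hC1, hM1, hblock⟩ := block_mean hb
  set g := Real.log α / (4 * Real.log b) with hg
  have hg0 : 0 < g := by positivity
  refine ⟨C1 / g, by positivity, fun c C hc hC => ?_⟩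
  obtain ⟨K2, Q2, hK2, hrow⟩ := pair_row (b := b) hb hα hc hC
  set Q1 := Q2 + ⌈(M1 : ℝ) / g⌉₊ + 1 with hQ1
  refine ⟨Q1, fun A m l P hadm hl CG hCG hG lam hlam1 hlamB CN hCN hN => ?_⟩
  have hbig : ∀ q, P + Q1 ≤ q → (M1 : ℝ) ≤ g * q ∧ (0 : ℝ) < q := by
    intro q hq
    have h1 : (M1 : ℝ) / g ≤ ⌈(M1 : ℝ) / g⌉₊ := Nat.le_ceil _
    have h2 : ((⌈(M1 : ℝ) / g⌉₊ : ℕ) : ℝ) ≤ q := by exact_mod_cast (by omega : ⌈(M1 : ℝ) / g⌉₊ ≤ q)
    have h3 : (M1 : ℝ) / g ≤ q := h1.trans h2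
    rw [div_le_iff₀ hg0] at h3
    exact ⟨by linarith, by exact_mod_cast (by omega : 0 < q)⟩
  have hlev : ∀ q, P + Q1 ≤ q → g * q ≤ ((m q - l q : ℕ) : ℝ) := by
    intro q hq
    obtain ⟨h1, h2⟩ := hl q (by omega)
    rw [Nat.cast_sub h1]
    have e : g * q = (q * (1 / 4) * Real.log α) / Real.log b := by
      rw [hg]
      field_simp
    rw [e, div_le_iff₀ hlbb]
    exact h2
  have hmean : ∀ q, P + Q1 ≤ q → ∀ k a : ℕ, g * q ≤ k → b ^ k ≤ a →
      ((b : ℝ) ^ k)⁻¹ * cg (gp q) a (b ^ k) ≤ C1 / g * wn q := by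
    intro q hq k a hk ha
    obtain ⟨h1, h2⟩ := hbig q hq
    have h3 := hblock k (by
      have : (M1 : ℝ) ≤ k := by linarith
      exact_mod_cast this) q a ha
    refine h3.trans ?_
    calc C1 / k ≤ C1 / (g * q) := div_le_div_of_nonneg_left hC1.le (by positivity) hk
      _ = _ := by unfold wn; field_simp
  have hup : ∀ᵐ t ∂U01, ∀ q ≥ P + Q1, q ∈ Set.univ → gM gp b A m l q t ≤ C1 / g * wn q := by
    refine Eventually.of_forall fun t q hq _ => ?_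
    refine hmean q hq (m q - l q) _ (hlev q hq) ?_
    have h1 : b ^ (m q - l q) ≤ b ^ m q := Nat.pow_le_pow_right (by omega) (Nat.sub_le _ _)
    have h2 := hadm.dig q (by omega)
    omega
  have hone : ∀ q ≥ P + Q1, q ∈ Set.univ → ∫ t, gF gp b A m q t ∂U01 ≤ C1 / g * wn q := by
    intro q hq _
    rw [int_gF hb]
    refine hmean q hq (m q) _ ((hlev q hq).trans ?_) (hadm.dig q (by omega))
    exact_mod_cast Nat.sub_le _ _
  refine ⟨?_, hup, hone⟩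
  refine row_of gp01 hb (K := C1 / g) (C := K2 * (CN + 1 + CG) + CN)
    (fun q hq => (hl q (by omega)).1) wn_nonneg wn_le_one hlam1
    (by obtain ⟨B0, h1, h2⟩ := hlamB; exact ⟨B0, h1, fun q _ => h2 q⟩) (by positivity)
    (by positivity) hup hone ?_ ?_
  · intro q hq _ T hT
    have h1 := hrow A m P hadm CG hCG q (by omega) (hG q (by omega)) T
      (fun p hp => by
        obtain ⟨-, h2, h3, -⟩ := hT p hp
        exact ⟨by omega, h3⟩)
    refine h1.trans ?_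
    have h2 := hN q (by omega) T (fun p hp => by
        obtain ⟨-, h2, h3, h4⟩ := hT p hp
        exact ⟨by omega, h3, h4⟩)
    have h3 : ∑ p ∈ T, 1 / (p : ℝ) ≤ CN * lam q := h2
    have h4 := hlam1 q
    have h5 : ∑ p ∈ T, 1 / (p : ℝ) + 1 + CG ≤ (CN + 1 + CG) * lam q := by
      have : (1 + CG) * 1 ≤ (1 + CG) * lam q := mul_le_mul_of_nonneg_left h4 (by linarith)
      linarith
    have h6 : 0 ≤ wn q * lam q := mul_nonneg (wn_nonneg q) (by linarith)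
    calc K2 * (1 / (q : ℝ)) * (∑ p ∈ T, 1 / (p : ℝ) + 1 + CG) ≤
          K2 * (1 / q) * ((CN + 1 + CG) * lam q) := mul_le_mul_of_nonneg_left h5 (by positivity)
      _ = K2 * (CN + 1 + CG) * (wn q * lam q) := by unfold wn; ring
      _ ≤ (K2 * (CN + 1 + CG) + CN) * (wn q * lam q) := by
          apply mul_le_mul_of_nonneg_right _ h6
          linarith
  · intro q hq _ T hT
    have h2 := hN q (by omega) T (fun p hp => by
        obtain ⟨-, h2, h3, h4⟩ := hT p hp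
        exact ⟨by omega, h3, h4⟩)
    refine h2.trans ?_
    have h4 := hlam1 q
    have h5 : 0 ≤ K2 * (CN + 1 + CG) := by positivity
    nlinarith

end

end Pool.Agent.Y895.SQ
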