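import Pool.Agent.Y895.SQ.S8

set_option autoImplicit false

/-!
# The law for primes with about `κ q / log q` prescribed upper digits
-/

open Finset Filter Topology MeasureTheory

namespace Pool.Agent.Y895.SQ

open Pool.Agent.Y895.PM (U01)
open Pool.Agent.Y895.OL (gF gM cg gF_meas gF_nonneg gF_le_one bdd_int Row row_of ae_U01 floor_lt_pow
  VI FI fin_of_conv VI_tail FI_tail)
open Pool.Agent.Y895.FB (geo_real)
open Pool.Agent.H305R2 (log_nat_tendsto)
open Pool.Agent.TH888.R (gr one_le_gr gr_mono loglog_tendsto gr_small)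

/-- the growth factor of the correlation sums -/
noncomputable def lm (q : ℕ) : ℝ := 1 + max 0 (Real.log (Real.log q))

lemma one_le_lm (q : ℕ) : 1 ≤ lm q := by
  unfold lm
  have := le_max_left 0 (Real.log (Real.log (q : ℝ)))
  linarith

lemma lm_le {q n : ℕ} (hn : 3 ≤ n) (hq : q ≤ n) : lm q ≤ 1 + Real.log (Real.log n) := by
  have hnr : (3 : ℝ) ≤ n := by exact_mod_cast hn
  have hln : 1 ≤ Real.log n := by
    rw [Real.le_log_iff_exp_le (by linarith)]
    linarith [Real.exp_one_lt_d9]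
  have h0 : 0 ≤ Real.log (Real.log n) := Real.log_nonneg hln
  unfold lm
  have : max 0 (Real.log (Real.log (q : ℝ))) ≤ Real.log (Real.log n) := by
    apply max_le h0
    rcases Nat.lt_or_ge q 2 with h | h
    · have : Real.log (q : ℝ) = 0 := by
        interval_cases q <;> simp
      rw [this, Real.log_zero]
      exact h0
    · have hq2 : (2 : ℝ) ≤ q := by exact_mod_cast h
      have h1 : 0 < Real.log q := Real.log_pos (by linarith)
      apply Real.log_le_log h1
      exact Real.log_le_log (by linarith) (by exact_mod_cast hq)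
  linarith

lemma wn_lm_le (q : ℕ) : wn q * lm q ≤ 1 := by
  unfold wn lm
  rcases Nat.eq_zero_or_pos q with h | h
  · rw [h]; simp
  · have hq : (1 : ℝ) ≤ q := by exact_mod_cast h
    rw [one_div_mul_eq_div, div_le_one (by linarith)]
    have h1 : Real.log (Real.log q) ≤ q - 1 := by
      rcases le_or_gt (Real.log (q : ℝ)) 0 with h2 | h2
      · have h3 : 0 ≤ Real.log (q : ℝ) := Real.log_nonneg hq
        have : Real.log (q : ℝ) = 0 := le_antisymm h2 h3
        rw [this, Real.log_zero]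
        linarith
      · have h3 := Real.log_le_sub_one_of_pos h2
        have h4 := Real.log_le_sub_one_of_pos (show (0 : ℝ) < q by linarith)
        linarith
    have : max 0 (Real.log (Real.log (q : ℝ))) ≤ q - 1 := max_le (by linarith) h1
    linarith

/-- sums of reciprocals -/
lemma recip_le {a q : ℕ} (ha : 1 ≤ a) (haq : a < q) :
    ∑ p ∈ Ico a q, 1 / (p : ℝ) ≤ 1 + Real.log (((q : ℝ) - 1) / a) := by
  have ha0 : (0 : ℝ) < a := by exact_mod_cast ha
  induction q, haq using Nat.le_induction with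
  | base =>
    rw [Nat.succ_eq_add_one, Nat.Ico_succ_singleton, Finset.sum_singleton]
    push_cast
    have h1 : ((a : ℝ) + 1 - 1) / a = 1 := by rw [add_sub_cancel_right, div_self ha0.ne']
    rw [h1, Real.log_one, add_zero, div_le_one ha0]
    exact_mod_cast ha
  | succ q hq ih =>
    rw [Finset.sum_Ico_succ_top (by omega)]
    have hq0 : (1 : ℝ) < q := by exact_mod_cast (by omega : 1 < q)
    have h1 : 1 / (q : ℝ) ≤ Real.log (q / (q - 1)) := by
      have h2 := Real.one_sub_inv_le_log_of_pos (show 0 < (q : ℝ) / (q - 1) by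
        apply div_pos <;> linarith)
      rw [inv_div] at h2
      have e : 1 - ((q : ℝ) - 1) / q = 1 / q := by field_simp; ring
      rwa [e] at h2
    have h2 : Real.log (((q : ℝ) - 1) / a) + Real.log (q / (q - 1)) =
        Real.log ((((q + 1 : ℕ) : ℝ) - 1) / a) := by
      rw [← Real.log_mul (by
        apply ne_of_gt
        apply div_pos <;> linarith) (by
        apply ne_of_gt
        apply div_pos <;> linarith)]
      congr 1
      push_cast
      have : (q : ℝ) - 1 ≠ 0 := by linarith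
      field_simp
      ring
    linarith

section

variable {b : ℕ} {α κ : ℝ}

/-- the number of digits of `t` that define the local mean -/
noncomputable def lk (b : ℕ) (κ : ℝ) (q : ℕ) : ℕ := ⌊κ * q / Real.log q / Real.log b⌋₊

/-- the correlation growth condition from the number of free digits -/
lemma kappa_sum (hb : 2 ≤ b) (hα : 1 < α) (hκ : 0 < κ) {C : ℝ} (hC : 0 < C) {c : ℝ}
    {A m : ℕ → ℕ} {P : ℕ}
    (hadm : AdmP b α c C A m P) (hP2 : 2 ≤ P)
    (hk : ∀ p ≥ P, (p : ℝ) * Real.log α - κ * p / Real.log p ≤ m p * Real.log b) :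
    ∃ CG : ℝ, 0 ≤ CG ∧ ∀ q ≥ P, ∑ p ∈ (range q).filter (fun p => P ≤ p),
      ((b : ℝ) ^ (m q - m p))⁻¹ ≤ CG * (q / Real.log q) := by
  have hbr : (2 : ℝ) ≤ b := by exact_mod_cast hb
  have hb0 : (0 : ℝ) < b := by linarith
  have hα0 : 0 < α := by linarith
  have hα1 : 0 < α - 1 := by linarith
  have hlbb : 0 < Real.log b := Real.log_pos (by linarith)
  have hlb : 0 < Real.log α := Real.log_pos hα
  set D := |Real.log C| with hD
  have hD0 : 0 ≤ D := abs_nonneg _
  refine ⟨(κ + D) / Real.log α + 1 + 1 / (α - 1), by positivity, fun q hq => ?_⟩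
  have hq2 : (2 : ℝ) ≤ q := by exact_mod_cast (by omega : 2 ≤ q)
  have hlq : 0 < Real.log q := Real.log_pos (by linarith)
  have hX1 : 1 ≤ (q : ℝ) / Real.log q := by
    rw [one_le_div hlq]
    exact (Real.log_le_sub_one_of_pos (by linarith)).trans (by linarith)
  set X := (q : ℝ) / Real.log q with hX
  set E := κ * X + D with hE
  have hE0 : 0 ≤ E := by positivity
  set J := ⌈E / Real.log α⌉₊ with hJ
  have hJ1 : E / Real.log α ≤ J := Nat.le_ceil _
  have hJ2 : (J : ℝ) < E / Real.log α + 1 := Nat.ceil_lt_add_one (by positivity)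
  have hterm : ∀ p ∈ (range q).filter (fun p => P ≤ p), ((b : ℝ) ^ (m q - m p))⁻¹ ≤
      (if q - J ≤ p then 1 else 0) + (if p < q - J then (α ^ (q - J - p))⁻¹ else 0) := by
    intro p hp
    rw [mem_filter, mem_range] at hp
    have hmm := hadm.mono p hp.2 q hp.1.le
    by_cases hc : q - J ≤ p
    · rw [if_pos hc, if_neg (by omega), add_zero]
      apply inv_le_one_of_one_le₀
      exact one_le_pow₀ (by linarith)
    · rw [if_neg hc, if_pos (by omega), zero_add]
      have h1 := hk q hq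
      have h2 := hadm.m_up hb hα hC hp.2
      have e1 : (b : ℝ) ^ (m q - m p) = Real.exp (((m q : ℝ) - m p) * Real.log b) := by
        rw [mul_comm, Real.exp_mul, Real.exp_log hb0, ← Real.rpow_natCast, Nat.cast_sub hmm]
      have e2 : α ^ (q - J - p) = Real.exp ((((q : ℝ) - J) - p) * Real.log α) := by
        rw [mul_comm, Real.exp_mul, Real.exp_log hα0, ← Real.rpow_natCast,
          Nat.cast_sub (by omega), Nat.cast_sub (by omega)]
      rw [e1, e2]
      apply inv_anti₀ (Real.exp_pos _)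
      apply Real.exp_le_exp.2
      rw [div_le_iff₀ hlb] at hJ1
      have e3 : κ * (q : ℝ) / Real.log q = κ * X := by rw [hX]; ring
      rw [e3] at h1
      have h3 : κ * X + D ≤ J * Real.log α := hJ1
      nlinarith
  refine (Finset.sum_le_sum hterm).trans ?_
  rw [Finset.sum_add_distrib]
  have s1 : ∑ p ∈ (range q).filter (fun p => P ≤ p), (if q - J ≤ p then (1 : ℝ) else 0) ≤ J := by
    rw [Finset.sum_boole]
    have : (((range q).filter (fun p => P ≤ p)).filter (fun p => q - J ≤ p)).card ≤ J := by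
      calc _ ≤ (Ico (q - J) q).card := by
            apply card_le_card
            intro p hp
            rw [mem_filter, mem_filter, mem_range] at hp
            rw [mem_Ico]
            omega
        _ ≤ J := by rw [Nat.card_Ico]; omega
    exact_mod_cast this
  have s2 : ∑ p ∈ (range q).filter (fun p => P ≤ p), (if p < q - J then (α ^ (q - J - p))⁻¹ else 0) ≤
      1 / (α - 1) := by
    rw [← Finset.sum_filter]
    exact geo_real hα (q - J) _ (fun p hp => (mem_filter.1 hp).2)
  have s3 : (J : ℝ) ≤ ((κ + D) / Real.log α + 1) * X := by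
    have h1 : E / Real.log α ≤ (κ + D) / Real.log α * X := by
      rw [div_mul_eq_mul_div]
      apply div_le_div_of_nonneg_right _ hlb.le
      rw [hE]
      nlinarith
    nlinarith
  have s4 : 1 / (α - 1) ≤ 1 / (α - 1) * X := le_mul_of_one_le_right (by positivity) hX1
  nlinarith

lemma VN_nonneg (S : Set ℕ) (n : ℕ) : 0 ≤ VN S n := by
  unfold VN
  refine Finset.sum_nonneg fun q _ => ?_
  split_ifs
  · exact wn_nonneg q
  · exact le_rfl

lemma VI_full {I : Set ℕ} (hI : ∀ q, q ∈ I) (S : Set ℕ) : VI I wn S = VN S := by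
  have : I = Set.univ := Set.eq_univ_of_forall hI
  rw [this, VI_univ]

lemma FI_full {I : Set ℕ} (hI : ∀ q, q ∈ I) {f : ℕ → ℝ → ℝ} {x : ℝ} {s : ℕ → ℕ}
    (hf : ∀ q, f q x = gp q (s q)) (S : Set ℕ) (n : ℕ) : FI I f S n x = (cN S s n : ℝ) := by
  have : I = Set.univ := Set.eq_univ_of_forall hI
  rw [this, FI_univ hf]

open Classical in
lemma sum_sq_tail (P n : ℕ) (hP : 1 ≤ P) (S I : Set ℕ) :
    ∑ q ∈ range (n + 1), (if q ∈ S ∧ q ∈ I ∧ P ≤ q then 1 / (q : ℝ) ^ 2 else 0) ≤ 2 := by
  have h1 : ∑ q ∈ range (n + 1), (if q ∈ S ∧ q ∈ I ∧ P ≤ q then 1 / (q : ℝ) ^ 2 else 0) ≤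
      ∑ q ∈ Ioo 0 (n + 1), ((q : ℝ) ^ 2)⁻¹ := by
    rw [← Finset.sum_filter]
    have hsub : (range (n + 1)).filter (fun q => q ∈ S ∧ q ∈ I ∧ P ≤ q) ⊆ Ioo 0 (n + 1) := by
      intro q hq
      rw [mem_filter, mem_range] at hq
      rw [mem_Ioo]
      omega
    refine (Finset.sum_le_sum_of_subset_of_nonneg hsub fun _ _ _ => by positivity).trans ?_
    refine Finset.sum_le_sum fun q _ => ?_
    rw [one_div]
  have h2 := sum_Ioo_inv_sq_le (α := ℝ) 0 (n + 1)
  have h3 : (2 : ℝ) / ((0 : ℕ) + 1) = 2 := by norm_num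
  rw [h3] at h2
  exact h1.trans h2

open Classical in
/-- **From the row system to the law.** -/
theorem law_of_row {f M : ℕ → ℝ → ℝ} {I : Set ℕ} (hI : ∀ q, q ∈ I) {P : ℕ} (hP1 : 1 ≤ P)
    {c K' : ℝ} (hc : 0 < c)
    (hK' : 0 ≤ K') (hR : Row U01 f M I wn lm P)
    (hm : ∀ᵐ t ∂U01, ∀ q ≥ P, |M q t - c * wn q| ≤ K' * (1 / (q : ℝ) ^ 2)) {s : ℝ → ℕ → ℕ}
    (hs : ∀ t q, f q t = gp q (s t q)) (S : Set ℕ) (hdiv : Tendsto (VN S) atTop atTop) :
    ∀ᵐ t ∂U01, ∃ B : ℝ, 0 ≤ B ∧ ∀ n : ℕ, 3 ≤ n →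
      |(cN S (s t) n : ℝ) - c * VN S n| ≤ B * gr (VN S n * (1 + Real.log (Real.log n))) := by
  have h1 := hR.law S (by rw [VI_full hI]; exact hdiv)
  filter_upwards [h1, hm] with t ht hmt
  obtain ⟨B, hB, hBn⟩ := ht
  refine ⟨B + P + 2 * K' + c * P, by positivity, fun n hn => ?_⟩
  have hnr : (3 : ℝ) ≤ n := by exact_mod_cast hn
  have hln : 1 ≤ Real.log n := by
    rw [Real.le_log_iff_exp_le (by linarith)]
    linarith [Real.exp_one_lt_d9]
  have h0 : 0 ≤ Real.log (Real.log n) := Real.log_nonneg hln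
  obtain ⟨a1, a2⟩ := VI_tail (I := I) hR.w0 hR.w1 S P n
  obtain ⟨b1, b2⟩ := FI_tail (I := I) hR.f0 hR.f1 S P n t
  have e0 : FI I f S n t = (cN S (s t) n : ℝ) := FI_full hI (fun q => hs t q) S n
  rw [VI_full hI] at a1 a2
  rw [e0] at b1 b2
  have key := hBn (n + 1)
  set V' := ∑ q ∈ range (n + 1), (if q ∈ S ∧ q ∈ I ∧ P ≤ q then wn q else 0) with hV'
  set F' := ∑ q ∈ range (n + 1), (if q ∈ S ∧ q ∈ I ∧ P ≤ q then f q t else 0) with hF'
  set M' := ∑ q ∈ range (n + 1), (if q ∈ S ∧ q ∈ I ∧ P ≤ q then M q t else 0) with hM'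
  have e1 : ∑ q ∈ range (n + 1), (if q ∈ S ∧ q ∈ I ∧ P ≤ q then f q t - M q t else 0) =
      F' - M' := by
    rw [hF', hM', ← Finset.sum_sub_distrib]
    refine Finset.sum_congr rfl fun q _ => ?_
    split_ifs
    · rfl
    · norm_num
  rw [e1] at key
  have hW : ∑ q ∈ range (n + 1), (if q ∈ S ∧ q ∈ I ∧ P ≤ q then wn q * lm q else 0) ≤
      VN S n * (1 + Real.log (Real.log n)) := by
    have g1 : ∑ q ∈ range (n + 1),
        (if q ∈ S ∧ q ∈ I ∧ P ≤ q then wn q * lm q else 0) ≤
        V' * (1 + Real.log (Real.log n)) := by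
      rw [hV', Finset.sum_mul]
      refine Finset.sum_le_sum fun q hq => ?_
      rw [mem_range] at hq
      split_ifs
      · exact mul_le_mul_of_nonneg_left (lm_le hn (by omega)) (wn_nonneg q)
      · rw [zero_mul]
    exact g1.trans (mul_le_mul_of_nonneg_right a2 (by linarith))
  have hW0 : 0 ≤ ∑ q ∈ range (n + 1),
      (if q ∈ S ∧ q ∈ I ∧ P ≤ q then wn q * lm q else 0) :=
    Finset.sum_nonneg fun q _ => by
      split_ifs
      · exact mul_nonneg (wn_nonneg q) (by linarith [one_le_lm q])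
      · exact le_rfl
  have hg1 := one_le_gr (hW0.trans hW)
  have hg2 := mul_le_mul_of_nonneg_left (gr_mono hW0 hW) hB
  have hMV : |M' - c * V'| ≤ 2 * K' := by
    have e2 : M' - c * V' = ∑ q ∈ range (n + 1),
        (if q ∈ S ∧ q ∈ I ∧ P ≤ q then M q t - c * wn q else 0) := by
      rw [hM', hV', Finset.mul_sum, ← Finset.sum_sub_distrib]
      refine Finset.sum_congr rfl fun q _ => ?_
      split_ifs
      · rfl
      · norm_num
    rw [e2]
    refine (Finset.abs_sum_le_sum_abs _ _).trans ?_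
    have g1 : ∀ q ∈ range (n + 1),
        |if q ∈ S ∧ q ∈ I ∧ P ≤ q then M q t - c * wn q else 0| ≤
        K' * (if q ∈ S ∧ q ∈ I ∧ P ≤ q then 1 / (q : ℝ) ^ 2 else 0) := by
      intro q _
      split_ifs with hq
      · exact hmt q hq.2.2
      · simp
    refine (Finset.sum_le_sum g1).trans ?_
    rw [← Finset.mul_sum]
    have := mul_le_mul_of_nonneg_left (sum_sq_tail P n hP1 S I) hK'
    linarith
  obtain ⟨k1, k2⟩ := abs_le.1 key
  obtain ⟨l1, l2⟩ := abs_le.1 hMV
  have hP0 : (0 : ℝ) ≤ P := Nat.cast_nonneg P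
  have g3 : (P + 2 * K' + c * P) * 1 ≤
      (P + 2 * K' + c * P) * gr (VN S n * (1 + Real.log (Real.log n))) :=
    mul_le_mul_of_nonneg_left hg1 (by positivity)
  have a1' : c * (VN S n - P) ≤ c * V' := mul_le_mul_of_nonneg_left a1 hc.le
  have a2' : c * V' ≤ c * VN S n := mul_le_mul_of_nonneg_left a2 hc.le
  rw [abs_le]
  constructor <;> nlinarith

end

end Pool.Agent.Y895.SQ
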