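import Mathlib
import Pool.Agent.H20R2.EN.FLem
import Pool.Agent.H373R2.T7.Cnt

set_option autoImplicit false

/-!
# An upper bound sieve for systems of residue classes

Uniform in the system, with at most `c` classes for each prime.  From the fundamental lemma
`Pool.Agent.H20R2.fLem` (adapted from `Pool.Agent.H373R2.T7.sys_fund`).
-/

namespace Pool.Agent.Y895.SQ
open Finset

/-- the exponent of the double power -/
def JJ (y : ℕ) : ℕ := Nat.log 2 (Nat.log 2 y) + 1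

lemma JJ_lt (y : ℕ) : y < 2 ^ 2 ^ JJ y := by
  have h1 : y < 2 ^ (Nat.log 2 y + 1) := Nat.lt_pow_succ_log_self (by norm_num) y
  have h2 : Nat.log 2 y + 1 ≤ 2 ^ JJ y := Nat.lt_pow_succ_log_self (by norm_num) _
  exact h1.trans_le (Nat.pow_le_pow_right (by norm_num) h2)

lemma JJ_pow (y : ℕ) (hy : 2 ≤ y) : 2 ^ JJ y ≤ 2 * Nat.log 2 y := by
  have h0 : Nat.log 2 y ≠ 0 := by
    have : 0 < Nat.log 2 y := Nat.log_pos (by norm_num) hy
    omega
  unfold JJ
  rw [pow_succ]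
  have := Nat.pow_log_le_self 2 h0
  omega

lemma JJ_le (y : ℕ) (hy : 2 ≤ y) : 2 ^ 2 ^ JJ y ≤ y ^ 2 := by
  calc 2 ^ 2 ^ JJ y ≤ 2 ^ (2 * Nat.log 2 y) := Nat.pow_le_pow_right (by norm_num) (JJ_pow y hy)
    _ = (2 ^ Nat.log 2 y) ^ 2 := by rw [← pow_mul, mul_comm]
    _ ≤ y ^ 2 := Nat.pow_le_pow_left (Nat.pow_log_le_self 2 (by omega)) 2

lemma JJ_small (y : ℕ) (hy : 3 ≤ y) : JJ y + 2 ≤ 2 * y := by
  unfold JJ
  have h1 : Nat.log 2 (Nat.log 2 y) ≤ Nat.log 2 y := Nat.log_le_self _ _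
  have h2 : Nat.log 2 y ≤ y := Nat.log_le_self _ _
  omega

lemma prod_inj (S S' : Finset ℕ) (hS : ∀ p ∈ S, p.Prime) (hS' : ∀ p ∈ S', p.Prime)
    (h : ∏ p ∈ S, p = ∏ p ∈ S', p) : S = S' := by
  ext p
  constructor
  · intro hp
    have h1 : p ∣ ∏ p ∈ S', p := h ▸ dvd_prod_of_mem _ hp
    obtain ⟨p', hp', hd⟩ := (Prime.dvd_finsetProd_iff (hS p hp).prime _).1 h1
    rw [Nat.prime_dvd_prime_iff_eq (hS p hp) (hS' p' hp')] at hd
    exact hd ▸ hp'
  · intro hp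
    have h1 : p ∣ ∏ p ∈ S, p := h ▸ dvd_prod_of_mem _ hp
    obtain ⟨p', hp', hd⟩ := (Prime.dvd_finsetProd_iff (hS' p hp).prime _).1 h1
    rw [Nat.prime_dvd_prime_iff_eq (hS' p hp) (hS p' hp')] at hd
    exact hd ▸ hp'

open Classical in
/-- number of bad classes -/
noncomputable def nu (Q : ℕ → ℕ → Prop) (p : ℕ) : ℕ := ((range p).filter (fun r => Q p r)).card

lemma nu_le (Q : ℕ → ℕ → Prop) (p : ℕ) : nu Q p ≤ p := by
  classical
  unfold nu
  exact (card_filter_le _ _).trans (by simp)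

open Classical in
/-- the upper bound sieve -/
theorem up_sieve (c : ℕ) : ∃ K z0 : ℕ, 1 ≤ K ∧ ∀ y X : ℕ, 3 ≤ y → y ^ K ≤ X →
    ∀ Q : ℕ → ℕ → Prop, (∀ p n, Q p n ↔ Q p (n % p)) →
    ∀ P : Finset ℕ, (∀ p ∈ P, p.Prime ∧ z0 < p ∧ p ≤ y ∧ nu Q p ≤ c) →
    (((Icc 1 X).filter (fun n : ℕ => ∀ p ∈ P, ¬ Q p n)).card : ℝ) ≤
      2 * (X * ∏ p ∈ P, (1 - (nu Q p : ℝ) / p)) + √(X : ℝ) := by
  obtain ⟨C0, hC0, hFL⟩ := Pool.Agent.H20R2.fLem c
  set b := C0 with hb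
  refine ⟨8 * (C0 * b) + 4, C0 + c, by omega, fun y X hy hyX Q hper P hP => ?_⟩
  set J := JJ y with hJ
  set Y : ℕ := 2 ^ 2 ^ J with hY
  have hyY : y < Y := JJ_lt y
  have hYy : Y ≤ y ^ 2 := JJ_le y (by omega)
  set D : ℕ := Y ^ (C0 * b) with hD
  have hPp : ∀ p ∈ P, p.Prime := fun p hp => (hP p hp).1
  have hfac : ∀ p : ℕ, p.Prime → 0 ≤ 1 - (nu Q p : ℝ) / p := by
    intro p hp
    have hp0 : (0 : ℝ) < p := by exact_mod_cast hp.pos
    have h1 : (nu Q p : ℝ) / p ≤ 1 := by rw [div_le_one hp0]; exact_mod_cast nu_le Q p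
    linarith
  have key := hFL b J (C0 + c) P (fun p => (nu Q p : ℝ) / p) le_rfl (by omega)
    (fun p hp => ⟨(hP p hp).1, (hP p hp).2.1, ((hP p hp).2.2.1.trans hyY.le)⟩)
    (fun p hp => by
      have hp0 : (0 : ℝ) < p := by exact_mod_cast (hPp p hp).pos
      have hp1 : (1 : ℝ) < p := by exact_mod_cast (hPp p hp).one_lt
      refine ⟨by positivity, ?_⟩
      apply div_le_div₀ (Nat.cast_nonneg _) (by exact_mod_cast (hP p hp).2.2.2) (by linarith)
        (by linarith))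
    (Icc 1 X) (fun _ => (1 : ℝ)) (fun p n => Q p n) X (fun _ => (D : ℝ))
    (fun _ _ => zero_le_one) (by positivity) (by
      intro T hT hTD
      have hTp : ∀ p ∈ T, p.Prime := fun p hp => hPp p (hT hp)
      have h3 := Pool.Agent.H373R2.T7.count_sys (fun p a => Q p a) X T hTp 1 le_rfl
        (fun p hp hd => (hTp p hp).one_lt.ne' (Nat.dvd_one.1 hd)) 0
      have e4 : ∏ p ∈ T, (((range p).filter (fun a => Q p a)).card : ℝ) ≤ D := by
        have h5 : ∏ p ∈ T, (((range p).filter (fun a => Q p a)).card : ℝ) ≤ ∏ p ∈ T, (p : ℝ) := by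
          apply prod_le_prod (fun _ _ => Nat.cast_nonneg _)
          intro p hp
          exact_mod_cast nu_le Q p
        refine h5.trans ?_
        have h6 : ((∏ p ∈ T, p : ℕ) : ℝ) ≤ D := by exact_mod_cast hTD
        push_cast at h6
        exact h6
      have e5 : ∑ m ∈ (Icc 1 X).filter (fun m => ∀ p ∈ T, Q p m), (1 : ℝ) =
          (((Icc 1 X).filter (fun n => n ≡ 0 [MOD 1] ∧ ∀ p ∈ T, Q p (n % p))).card : ℝ) := by
        rw [sum_const, nsmul_eq_mul, mul_one]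
        congr 2
        apply filter_congr
        intro n _
        constructor
        · intro h5
          exact ⟨Nat.modEq_one, fun p hp => (hper p n).1 (h5 p hp)⟩
        · rintro ⟨_, h5⟩ p hp
          exact (hper p n).2 (h5 p hp)
      rw [Nat.cast_one, div_one] at h3
      rw [e5]
      exact h3.trans e4)
  have f1 : ∑ m ∈ (Icc 1 X).filter (fun m => ∀ p ∈ P, ¬ Q p m), (1 : ℝ) =
      (((Icc 1 X).filter (fun n : ℕ => ∀ p ∈ P, ¬ Q p n)).card : ℝ) := by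
    rw [sum_const, nsmul_eq_mul, mul_one]
  rw [f1] at key
  have hM0 : 0 ≤ (X : ℝ) * ∏ p ∈ P, (1 - (nu Q p : ℝ) / p) :=
    mul_nonneg (Nat.cast_nonneg _) (prod_nonneg fun p hp => hfac p (hPp p hp))
  have hb1 : (1 / 2 : ℝ) ^ b ≤ 1 := pow_le_one₀ (by norm_num) (by norm_num)
  have key2 := (abs_le.1 key).2
  have hmul : (1 / 2 : ℝ) ^ b * ((X : ℝ) * ∏ p ∈ P, (1 - (nu Q p : ℝ) / p)) ≤
      (X : ℝ) * ∏ p ∈ P, (1 - (nu Q p : ℝ) / p) := by nlinarith
  -- the error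
  rw [sum_const, nsmul_eq_mul] at key2
  have hcard : (P.powerset.filter (fun T : Finset ℕ => ∏ p ∈ T, p ≤ D)).card ≤ D := by
    calc _ ≤ (Icc 1 D).card := by
          apply card_le_card_of_injOn (fun T : Finset ℕ => ∏ p ∈ T, p)
          · intro T hT
            rw [mem_coe, mem_filter, mem_powerset] at hT
            have h5 : 1 ≤ ∏ p ∈ T, p :=
              Nat.pos_of_ne_zero (prod_ne_zero_iff.2 fun p hp => (hPp p (hT.1 hp)).ne_zero)
            exact mem_coe.2 (mem_Icc.2 ⟨h5, hT.2⟩)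
          · intro T hT T' hT' h
            rw [mem_coe, mem_filter, mem_powerset] at hT hT'
            exact prod_inj T T' (fun p hp => hPp p (hT.1 hp)) (fun p hp => hPp p (hT'.1 hp)) h
      _ = D := by rw [Nat.card_Icc]; omega
  have hDy : D ≤ y ^ (2 * (C0 * b)) := by
    calc D ≤ (y ^ 2) ^ (C0 * b) := Nat.pow_le_pow_left hYy _
      _ = _ := by rw [← pow_mul]
  have hJy : J + 2 ≤ 2 * y := JJ_small y (by omega)
  have htot : (J + 2) * (D * D) ≤ y ^ (4 * (C0 * b) + 2) := by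
    calc (J + 2) * (D * D) ≤ (2 * y) * (y ^ (2 * (C0 * b)) * y ^ (2 * (C0 * b))) := by gcongr
      _ ≤ (y * y) * (y ^ (2 * (C0 * b)) * y ^ (2 * (C0 * b))) :=
          Nat.mul_le_mul_right _ (Nat.mul_le_mul_right _ (by omega))
      _ = y ^ (4 * (C0 * b) + 2) := by
          rw [← pow_add, show 4 * (C0 * b) + 2 = (2 * (C0 * b) + 2 * (C0 * b)) + 2 by ring, pow_add]
          ring
  have hfin : ((J : ℝ) + 2) *
      (((P.powerset.filter (fun T : Finset ℕ => ∏ p ∈ T, p ≤ D)).card : ℝ) * (D : ℝ)) ≤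
      ((y ^ (4 * (C0 * b) + 2) : ℕ) : ℝ) := by
    have h5 : (J + 2) * ((P.powerset.filter (fun T : Finset ℕ => ∏ p ∈ T, p ≤ D)).card * D) ≤
        y ^ (4 * (C0 * b) + 2) := by
      refine le_trans ?_ htot
      gcongr
    exact_mod_cast h5
  have hsq : ((y ^ (4 * (C0 * b) + 2) : ℕ) : ℝ) ≤ √(X : ℝ) := by
    apply Real.le_sqrt_of_sq_le
    have h5 : (y ^ (4 * (C0 * b) + 2)) ^ 2 ≤ X := by
      rw [← pow_mul]
      refine le_trans (le_of_eq ?_) hyX
      congr 1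
      ring
    exact_mod_cast h5
  have h9 := hfin.trans hsq
  simp only [hD, hY] at h9 key2
  linarith

end Pool.Agent.Y895.SQ
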